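import Pool.Agent.Lib.MP_905f9a_lc.D.Defs
import Pool.Agent.Lib.MP_905f9a_lc.Homog

/-! No perfect family of definable sets, atomicity, and finitely many orbits on tuples. -/

namespace Pool.Agent.Lib.MP_905f9a_lc.D

open FirstOrder FirstOrder.Language FirstOrder.Language.Structure Set Function Order

universe u v

variable {L : FirstOrder.Language.{u, v}} {A : Type} [L.Structure A]

/-- There is no perfect family of sets definable with parameters. -/
def NP (L : FirstOrder.Language.{u, v}) (A : Type) [L.Structure A] : Prop :=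
  ∀ (n : ℕ) (𝒮 : Set (Set (Fin n → A))), (∀ Z ∈ 𝒮, (univ : Set A).Definable L Z) →
    (∀ Z ∈ 𝒮, Z.Nonempty ∧ ∃ Y ∈ 𝒮, ∃ Y' ∈ 𝒮, Y ⊆ Z ∧ Y' ⊆ Z ∧ Disjoint Y Y') → 𝒮 = ∅

theorem IsOmegaStable.np [Countable A] [Nonempty A] (hs : IsOmegaStable L A) : NP L A := by
  intro n 𝒮 h1 h2
  by_contra hne
  obtain ⟨Z0, hZ0⟩ := nonempty_iff_ne_empty.2 hne
  let T := L[[(univ : Set A)]].completeTheory A
  have := hs A rfl univ countable_univ n
  have : Nonempty (T.CompleteType (Fin n)) := ⟨T.typeOf (h2 Z0 hZ0).1.some⟩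
  obtain ⟨f, hf⟩ := exists_surjective_nat (T.CompleteType (Fin n))
  have key : ∀ (p : T.CompleteType (Fin n)) (Z : 𝒮), ∃ Y : 𝒮, Y.1 ⊆ Z.1 ∧
      p ∉ closure (T.typeOf '' Y.1) := by
    rintro p ⟨Z, hZ⟩
    obtain ⟨-, Y, hY, Y', hY', k1, k2, k3⟩ := h2 Z hZ
    obtain ⟨φ, rfl⟩ := h1 Y hY
    rcases p.mem_or_not_mem (Formula.equivSentence φ) with h | h
    · refine ⟨⟨Y', hY'⟩, k2, fun k => (p.not_mem_iff _).1 (closure_minimal ?_
        (CompleteType.isClosed_typesWith (Formula.equivSentence φ).not) k) h⟩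
      rintro _ ⟨x, hx, rfl⟩
      exact (Theory.CompleteType.not_mem_iff _ _).2 fun j =>
        disjoint_left.1 k3 (Theory.CompleteType.formula_mem_typeOf.1 j) hx
    · refine ⟨⟨_, hY⟩, k1, fun k => (p.not_mem_iff _).1 h (closure_minimal ?_
        (CompleteType.isClosed_typesWith (Formula.equivSentence φ)) k)⟩
      rintro _ ⟨x, hx, rfl⟩
      exact Theory.CompleteType.formula_mem_typeOf.2 hx
  choose F F1 F2 using key
  let s : ℕ → 𝒮 := fun k => Nat.rec ⟨Z0, hZ0⟩ (fun k Z => F (f k) Z) k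
  obtain ⟨p, hp⟩ := IsCompact.nonempty_iInter_of_sequence_nonempty_isCompact_isClosed
    (fun k => closure (T.typeOf '' (s k).1)) (fun k => closure_mono (image_mono (F1 _ _)))
    (fun k => ((h2 _ (s k).2).1.image _).closure) isClosed_closure.isCompact
    (fun _ => isClosed_closure)
  obtain ⟨k, rfl⟩ := hf p
  exact F2 _ _ (mem_iInter.1 hp (k + 1))

theorem def_sub {I J : Type} {S : Set (J ⊕ I → A)} (hS : (∅ : Set A).Definable L S) {P : Set A}
    {s : J → A} (hs : ∀ j, s j ∈ P) : P.Definable L {v | Sum.elim s v ∈ S} := by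
  obtain ⟨φ, rfl⟩ := empty_definable_iff.1 hS
  refine definable_iff_exists_formula_sum.2 ⟨φ.relabel (Sum.map (fun j => ⟨s j, hs j⟩) id), ?_⟩
  ext v
  simp only [mem_ofPred_eq, Formula.realize_relabel, Sum.elim_comp_map, comp_id]
  rfl

theorem def_fin {I : Type} {P : Set A} {Z : Set (I → A)} (h : P.Definable L Z) :
    ∃ F : Finset A, (F : Set A) ⊆ P ∧ ∃ S : Set (F ⊕ I → A), (∅ : Set A).Definable L S ∧
      Z = {v | Sum.elim Subtype.val v ∈ S} := by
  obtain ⟨F, h1, h2⟩ := definable_iff_finitely_definable.1 h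
  obtain ⟨φ, rfl⟩ := definable_iff_exists_formula_sum.1 h2
  exact ⟨F, h1, _, empty_definable_iff.2 ⟨φ, rfl⟩, rfl⟩

theorem NP.atom (h : NP L A) {n : ℕ} (P : Set A) {Z : Set (Fin n → A)} (hZ : P.Definable L Z)
    (hne : Z.Nonempty) : ∃ Y ⊆ Z, P.Definable L Y ∧ Y.Nonempty ∧
      ∀ W, P.Definable L W → (Y ∩ W).Nonempty → Y ⊆ W := by
  by_contra hc
  push Not at hc
  refine Set.Nonempty.ne_empty (s := {Y | Y ⊆ Z ∧ P.Definable L Y ∧ Y.Nonempty})
    ⟨Z, subset_rfl, hZ, hne⟩ (h n _ (fun Y hY => hY.2.1.mono (subset_univ _)) ?_)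
  rintro Y ⟨h1, h2, h3⟩
  obtain ⟨W, k1, k2, k3⟩ := hc Y h1 h2 h3
  exact ⟨h3, _, ⟨inter_subset_left.trans h1, h2.inter k1, k2⟩, _, ⟨sdiff_subset.trans h1,
    h2.sdiff k1, sdiff_nonempty.2 k3⟩, inter_subset_left, sdiff_subset, disjoint_sdiff_inter.symm⟩

variable (L) in
/-- The type of `x` is isolated. -/
def Iso {I : Type} (x : I → A) : Prop := (∅ : Set A).Definable L {y | Eqv L x y}

theorem Iso.comp {I J : Type} [Finite I] [Finite J] {x : I → A} (h : Iso L x) (f : J → I) :
    Iso L (x ∘ f) := by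
  have k := h.image_comp f
  have e : {y | Eqv L (x ∘ f) y} = (fun g => g ∘ f) '' {y | Eqv L x y} :=
    Subset.antisymm (fun y hy => hy _ k ⟨x, fun _ _ j => j, rfl⟩) (by
      rintro _ ⟨y, hy, rfl⟩
      exact Eqv.comp hy f)
  unfold Iso
  rwa [e]

theorem Iso.eqv {I : Type} {x y : I → A} (h : Iso L x) (k : Eqv L x y) : Iso L y := by
  have e : {z | Eqv L y z} = {z | Eqv L x z} := Set.ext fun z =>
    ⟨fun j S hS hx => j S hS (k S hS hx), fun j S hS hy => j S hS (k.symm S hS hy)⟩
  unfold Iso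
  rwa [e]

theorem NP.exists_atomic (h : NP L A) : ∃ N : Set A,
    (∀ (I : Type) [Finite I] (x : I → A), (∀ i, x i ∈ N) → Iso L x) ∧
    ∀ Z : Set (Fin 1 → A), N.Definable L Z → Z.Nonempty → ∃ a ∈ N, (fun _ => a) ∈ Z := by
  classical
  obtain ⟨N, -, hN⟩ := zorn_subset_nonempty
    {N : Set A | ∀ (I : Type) [Finite I] (x : I → A), (∀ i, x i ∈ N) → Iso L x}
    (fun c hc hch hne => ⟨⋃₀ c, fun I _ x hx => by
      obtain ⟨N, h1, h2⟩ := hch.directedOn.exists_mem_subset_of_finset_subset_biUnion hne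
        (s := (finite_range x).toFinset) (f := id) (by
          simpa only [Finite.coe_toFinset, range_subset_iff, id, ← sUnion_eq_biUnion] using hx)
      exact hc h1 I x fun i => h2 (by simp), fun _ => subset_sUnion_of_mem⟩) ∅ (fun I _ x hx => by
      have : IsEmpty I := ⟨hx⟩
      have e : {y | Eqv L x y} = univ := eq_univ_of_forall fun y => by
        rw [Subsingleton.elim y x]; exact fun _ _ k => k
      unfold Iso
      rw [e]
      exact definable_univ)
  refine ⟨N, hN.prop, fun Z hZ hne => ?_⟩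
  obtain ⟨Y, y1, y2, ⟨y, y3⟩, y4⟩ := h.atom N hZ hne
  have ey : (fun _ => y 0) = y := funext fun i => congrArg y (Subsingleton.elim _ _)
  refine ⟨y 0, hN.le_of_ge (y := insert (y 0) N) (fun I _ x hx => ?_) (subset_insert _ _)
    (mem_insert _ _), ey.symm ▸ y1 y3⟩
  obtain ⟨F, f1, S, f2, rfl⟩ := def_fin y2
  let b : F ⊕ {i // x i ∈ N} → A := Sum.elim Subtype.val (fun i => x i.1)
  have b1 : ∀ j, b j ∈ N := by
    rintro (j | j)
    exacts [f1 j.2, j.2]
  have e : {w | Eqv L (Sum.elim b y) w} = (fun w => w ∘ Sum.inl) ⁻¹' {u | Eqv L b u} ∩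
      (fun w => w ∘ Sum.map Sum.inl id) ⁻¹' S := by
    refine Subset.antisymm (fun w hw => ⟨Eqv.comp hw Sum.inl, hw _ (f2.preimage_comp _) ?_⟩) ?_
    · rw [mem_preimage, Sum.elim_comp_map]
      exact y3
    · rintro w ⟨w1, w2⟩ R hR k
      have := w1 _ ((f2.preimage_comp (Sum.map Sum.inl id)).himp hR).forall_of_finite
        (fun v => by
          rw [himp_eq]
          refine or_iff_not_imp_right.2 fun j => y4 _ (def_sub hR b1) ⟨y, y3, k⟩ ?_
          rw [mem_compl_iff, not_not, mem_preimage, Sum.elim_comp_map] at j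
          exact j)
        (w ∘ Sum.inr)
      rw [Sum.elim_comp_inl_inr, himp_eq] at this
      exact this.resolve_right (not_not.2 w2)
  have i1 : Iso L (Sum.elim b y) := by
    unfold Iso
    rw [e]
    exact ((hN.prop _ b b1).preimage_comp _).inter (f2.preimage_comp _)
  have e2 : x = Sum.elim b y ∘ fun i =>
      if k : x i ∈ N then Sum.inl (Sum.inr ⟨i, k⟩) else Sum.inr 0 := funext fun i => by
    by_cases k : x i ∈ N
    · simp only [comp_apply, dif_pos k]; rfl
    · simp only [comp_apply, dif_neg k]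
      exact (hx i).resolve_right k
  rw [e2]
  exact i1.comp _

variable (L A) in
/-- All types realized in `A` are isolated. -/
def Atomic : Prop := ∀ (I : Type) [Finite I] (x : I → A), Iso L x

theorem card_le [Countable L.Symbols] :
    Cardinal.lift.{0} L.card ≤ Cardinal.lift.{max u v} Cardinal.aleph0.{0} := by
  rw [Cardinal.lift_aleph0, Cardinal.lift_le_aleph0]
  exact Cardinal.mk_le_aleph0

theorem IsOmegaCat.equiv (h : IsOmegaCat L A) [Countable A] [Infinite A] (N : Type) [L.Structure N]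
    (hN : A ≅[L] N) [Countable N] : Nonempty (A ≃[L] N) := by
  have := hN.infinite
  have : N ⊨ L.completeTheory A := hN.theory_model
  exact h (Theory.ModelType.of _ A) (Theory.ModelType.of _ N) (Cardinal.mk_eq_aleph0 A)
    (Cardinal.mk_eq_aleph0 N)

theorem NP.atomic [L.IsRelational] [Countable A] [Infinite A] (h : NP L A) (hc : IsOmegaCat L A) :
    Atomic L A := by
  obtain ⟨N, h1, h2⟩ := h.exists_atomic
  let S : L.Substructure A := ⟨N, fun f => isEmptyElim f⟩
  let E := S.toElementarySubstructure (fun n φ x a k => by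
    obtain ⟨b, b1, b2⟩ := h2 _ (def_sub (s := Subtype.val ∘ x) (empty_definable_iff.2
      ⟨φ.toFormula.relabel (Sum.elim Empty.elim (Fin.lastCases (Sum.inr 0) Sum.inl)), rfl⟩)
      (fun j => (x j).2)) ⟨fun _ => a, by
        simp only [mem_ofPred_eq, Formula.realize_relabel, BoundedFormula.realize_toFormula]
        refine (iff_of_eq ?_).1 k
        congr 1
        · exact Subsingleton.elim _ _
        · funext i
          induction i using Fin.lastCases <;> simp⟩
    refine ⟨⟨b, b1⟩, ?_⟩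
    simp only [mem_ofPred_eq, Formula.realize_relabel, BoundedFormula.realize_toFormula] at b2
    refine (iff_of_eq ?_).1 b2
    congr 1
    · exact Subsingleton.elim _ _
    · funext i
      induction i using Fin.lastCases <;> simp)
  obtain ⟨e⟩ := hc.equiv E E.elementarilyEquivalent.symm
  intro I _ x
  let j := E.subtype.comp e.toElementaryEmbedding
  refine (h1 I (j ∘ x) fun i => (e (x i)).2).eqv fun R hR k => ?_
  obtain ⟨φ, rfl⟩ := empty_definable_iff.1 hR
  exact (j.map_formula φ x).1 k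

theorem Atomic.ext_one (hA : Atomic L A) {I : Type} [Finite I] {x y : I → A} (h : Eqv L x y)
    (a : A) : ∃ b, Eqv L (fun o : Option I => o.elim a x) (fun o : Option I => o.elim b y) := by
  obtain ⟨z, hz, e⟩ := h _ ((hA _ (fun o : Option I => o.elim a x)).image_comp some)
    ⟨_, fun _ _ h => h, rfl⟩
  refine ⟨z none, ?_⟩
  have e' : (fun o : Option I => o.elim (z none) y) = z := by
    funext o
    cases o with
    | none => rfl
    | some i => exact (congrFun e i).symm
  rw [e']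
  exact hz

theorem Atomic.orbit [L.IsRelational] [Countable A] (hA : Atomic L A) {I : Type} [Finite I]
    {x y : I → A} (h : Eqv L x y) : ∃ σ ∈ AutG L A, σ ∘ x = y := by
  classical
  have := Fintype.ofFinite I
  let _ := Encodable.ofCountable A
  let X := {p : Finset (A × A) // GoodP L p}
  let p0 : X := ⟨Finset.univ.image (fun i => (x i, y i)), goodP_of h _ (fun q hq => by
    obtain ⟨i, -, rfl⟩ := Finset.mem_image.1 hq
    exact ⟨i, rfl⟩)⟩
  have ins : ∀ (p : X) (a b : A), Eqv L (fun o : Option p.1 => o.elim a (fun i => i.1.1))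
      (fun o => o.elim b (fun i => i.1.2)) → ∃ q : X, (a, b) ∈ q.1 ∧ p ≤ q := fun p a b hb =>
    ⟨⟨insert (a, b) p.1, goodP_of hb _ (fun q hq => by
      rcases Finset.mem_insert.1 hq with rfl | hq
      · exact ⟨none, rfl⟩
      · exact ⟨some ⟨q, hq⟩, rfl⟩)⟩, Finset.mem_insert_self _ _, Finset.subset_insert _ _⟩
  let cf : A ⊕ A → Cofinal X := fun s => Sum.recOn s
    (fun a => ⟨{p | ∃ b, (a, b) ∈ p.1}, fun p => by
      obtain ⟨b, hb⟩ := hA.ext_one (p.2 p.1 (fun i => i.1.1) (fun i => i.1.2) (fun i => i.2)) a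
      obtain ⟨q, h1, h2⟩ := ins p a b hb
      exact ⟨q, ⟨b, h1⟩, h2⟩⟩)
    (fun b => ⟨{p | ∃ a, (a, b) ∈ p.1}, fun p => by
      obtain ⟨a, ha⟩ :=
        hA.ext_one (p.2 p.1 (fun i => i.1.1) (fun i => i.1.2) (fun i => i.2)).symm b
      obtain ⟨q, h1, h2⟩ := ins p a b ha.symm
      exact ⟨q, ⟨a, h1⟩, h2⟩⟩)
  let I0 : Ideal X := idealOfCofinals p0 cf
  let r : A → A → Prop := fun a b => ∃ p ∈ I0, (a, b) ∈ p.1
  have hr : ∀ (J : Type) [Finite J] (x y : J → A), (∀ j, r (x j) (y j)) → Eqv L x y := by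
    intro J _ x y hxy
    choose p hp1 hp2 using hxy
    have hd : Directed (· ≤ ·) (fun q : I0 => (q : X)) := I0.directed.directed_val
    have : Nonempty I0 := ⟨⟨p0, mem_idealOfCofinals _ _⟩⟩
    obtain ⟨z, hz⟩ := hd.finite_le (fun j => ⟨p j, hp1 j⟩)
    exact z.1.2 J x y (fun j => hz j (hp2 j))
  have hl : ∀ a, ∃ b, r a b := fun a => by
    obtain ⟨p, ⟨b, hb⟩, hp⟩ := cofinal_meets_idealOfCofinals p0 cf (Sum.inl a)
    exact ⟨b, p, hp, hb⟩
  have hrr : ∀ b, ∃ a, r a b := fun b => by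
    obtain ⟨p, ⟨a, ha⟩, hp⟩ := cofinal_meets_idealOfCofinals p0 cf (Sum.inr b)
    exact ⟨a, p, hp, ha⟩
  have hu : ∀ a b a' b', r a b → r a' b' → (a = a' ↔ b = b') := by
    intro a b a' b' h1 h2
    have e := hr (Fin 2) ![a, a'] ![b, b'] (by
      intro j; fin_cases j; exacts [h1, h2])
    have hD : (∅ : Set A).Definable L {z : Fin 2 → A | z 0 = z 1} :=
      Set.empty_definable_iff.2 ⟨(Term.var 0).equal (Term.var 1), by ext; simp⟩
    exact ⟨fun h => e _ hD h, fun h => e.symm _ hD h⟩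
  choose f hf using hl
  choose g hg using hrr
  let σ : Equiv.Perm A := ⟨f, g, fun a => (hu _ _ _ _ (hg (f a)) (hf a)).2 rfl,
    fun b => (hu _ _ _ _ (hf (g b)) (hg b)).1 rfl⟩
  refine ⟨σ, fun n R z => ?_, funext fun i => ?_⟩
  · have e := hr (Fin n) z (σ ∘ z) (fun j => hf (z j))
    have hD : (∅ : Set A).Definable L {z : Fin n → A | RelMap R z} :=
      Set.empty_definable_iff.2 ⟨R.formula (fun i => Term.var i), by ext; simp⟩
    exact ⟨fun h => e.symm _ hD h, fun h => e _ hD h⟩
  · exact (hu _ _ _ _ (hf (x i)) ⟨p0, mem_idealOfCofinals _ _,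
      Finset.mem_image_of_mem (fun i => (x i, y i)) (Finset.mem_univ i)⟩).1 rfl

theorem IsOmegaCat.realize [Countable L.Symbols] [Countable A] [Infinite A] (hc : IsOmegaCat L A)
    {I : Type} [Finite I] (p : (L.completeTheory A).CompleteType I) :
    ∃ x : I → A, (L.completeTheory A).typeOf x = p := by
  have red : ∀ M : Theory.ModelType.{_, _, max u v} p.toTheory, Infinite M := fun M => by
    let _ := (L.lhomWithConstants I).reduct M
    have := (LHom.onTheory_model _ _).1 (M.is_model.mono p.subset)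
    exact (elementarilyEquivalent_iff.2 fun φ =>
      (realize_iff_of_model_completeTheory (L := L) A M φ).symm).infinite
  obtain ⟨N, hN⟩ := Theory.exists_model_card_eq ⟨_, red p.isMaximal.1.some⟩
    Cardinal.aleph0.{0} le_rfl card_le
  let _ := (L.lhomWithConstants I).reduct N
  have := (LHom.onTheory_model _ _).1 (N.is_model.mono p.subset)
  have : Countable N := Cardinal.mk_le_aleph0_iff.1 hN.le
  obtain ⟨e⟩ := hc.equiv N (elementarilyEquivalent_iff.2 fun φ =>
    (realize_iff_of_model_completeTheory A N φ).symm)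
  refine ⟨e.symm ∘ fun a => (L.con a : N), SetLike.ext fun φ => ?_⟩
  rw [Theory.CompleteType.mem_typeOf, StrongHomClass.realize_formula]
  exact (Formula.realize_equivSentence_symm_con N φ).trans
    ((p.isMaximal.isComplete.realize_sentence_iff φ N).trans (p.isMaximal.mem_iff_models φ).symm)

/-- The Ryll-Nardzewski direction needed here. -/
theorem NP.oligo [L.IsRelational] [Countable L.Symbols] [Countable A] [Infinite A] (h : NP L A)
    (hc : IsOmegaCat L A) : Oligo L A := by
  intro I _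
  have hA := h.atomic hc
  choose φ hφ using fun x : I → A => empty_definable_iff.1 (hA I x)
  obtain ⟨F, hF⟩ := isCompact_univ.elim_finite_subcover
    (fun x => (L.completeTheory A).typesWith (Formula.equivSentence (φ x)))
    (fun _ => CompleteType.isOpen_typesWith _) (fun p _ => by
      obtain ⟨x, rfl⟩ := hc.realize p
      exact mem_iUnion.2 ⟨x, Theory.CompleteType.formula_mem_typeOf.2
        ((Set.ext_iff.1 (hφ x) x).1 fun _ _ k => k)⟩)
  have : ∀ y, ∃ x : F, Eqv L x.1 y := fun y => by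
    obtain ⟨x, h1, h2⟩ := mem_iUnion₂.1 (hF (mem_univ ((L.completeTheory A).typeOf y)))
    exact ⟨⟨x, h1⟩, (Set.ext_iff.1 (hφ x) y).2 (Theory.CompleteType.formula_mem_typeOf.1 h2)⟩
  choose c hc using this
  exact ⟨F, inferInstance, c, fun x y e => hA.orbit fun S hS k =>
    hc y S hS (e ▸ (hc x).symm S hS k)⟩

end Pool.Agent.Lib.MP_905f9a_lc.D
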