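import Pool.Agent.Lib.MP_905f9a_lc.Homog
import Pool.Agent.Lib.MP_905f9a_lc.Types

/-! Extending an action of the order automorphisms of the rationals to finite covers and to
free covers. -/

namespace Pool.Agent.Lib.MP_905f9a_lc.D

open Set Function Pointwise

theorem ea {S : Set ℚ} (hS : S.Finite) {A : Set GQ} (hA : A.Finite) {κ : Type} [Finite κ]
    (χ : GQ → κ) (hχ : ∀ β β' : GQ, (∀ t ∈ S, β t = β' t) → χ β = χ β') :
    ∃ β, ∀ α ∈ A, χ (β * α) = χ β := by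
  classical
  lift S to Finset ℚ using hS
  let S' := (hA.insert 1).toFinset.biUnion (fun α => S.image α)
  let s0 := S.orderEmbOfFin rfl
  let t := S'.orderEmbOfFin rfl
  obtain ⟨N, hN⟩ := ramsey_sm κ S.card S'.card
  obtain ⟨e, he, h⟩ := hN (fun r => χ (if h : ∃ β : GQ, ∀ i, β (s0 i) = ((r i : ℕ) : ℚ) then
    h.choose else 1))
  obtain ⟨β, hβ⟩ := ext_iso t (fun i => ((e i : ℕ) : ℚ)) (fun i j => by
    rw [t.lt_iff_lt, Nat.cast_lt, ← Fin.lt_def, he.lt_iff_lt])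
  have key : ∀ α ∈ insert 1 A, ∃ s : Fin S.card → Fin S'.card, StrictMono s ∧
      ∀ i, t (s i) = α (s0 i) := by
    intro α hα
    have : ∀ i, ∃ j, t j = α (s0 i) := fun i => by
      have : α (s0 i) ∈ range t := by
        rw [Finset.range_orderEmbOfFin]
        exact Finset.mem_biUnion.2 ⟨α, (hA.insert 1).mem_toFinset.2 hα,
          Finset.mem_image_of_mem _ (Finset.orderEmbOfFin_mem _ _ _)⟩
      exact this
    choose s hs using this
    exact ⟨s, fun i j k => t.lt_iff_lt.1 (by rwa [hs, hs, α.lt_iff_lt, s0.lt_iff_lt]), hs⟩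
  have key2 : ∀ (α : GQ) (s : Fin S.card → Fin S'.card), (∀ i, t (s i) = α (s0 i)) →
      χ (if h : ∃ β : GQ, ∀ i, β (s0 i) = (((e ∘ s) i : ℕ) : ℚ) then h.choose else 1) =
        χ (β * α) := by
    intro α s hs
    have ex : ∀ i, (β * α) (s0 i) = (((e ∘ s) i : ℕ) : ℚ) := fun i => by
      rw [mul_app, ← hs, hβ]; rfl
    have ex' : ∃ β : GQ, ∀ i, β (s0 i) = (((e ∘ s) i : ℕ) : ℚ) := ⟨_, ex⟩
    rw [dif_pos ex']
    refine hχ _ _ fun w hw => ?_
    have : w ∈ range s0 := by rwa [Finset.range_orderEmbOfFin]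
    obtain ⟨i, rfl⟩ := this
    rw [ex, ex'.choose_spec]
  refine ⟨β, fun α hα => ?_⟩
  obtain ⟨s, s1, s2⟩ := key α (Or.inr hα)
  obtain ⟨s', s1', s2'⟩ := key 1 (Or.inl rfl)
  rw [← key2 α s s2, h s s' s1 s1', key2 1 s' s2', mul_one]

variable (G : Type) {Y : Type} [Group G] [MulAction G Y]

/-- An action on the invariant set `X` that is locally given by elements of `G`, with bounded
equivariant supports. -/
structure Good (X : Set Y) (ρ : GQ → Y → Y) (σ : Y → Set ℚ) : Prop where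
  inv : ∀ g : G, ∀ x ∈ X, g • x ∈ X
  mul : ∀ α β, ∀ x ∈ X, ρ (α * β) x = ρ α (ρ β x)
  loc : ∀ α, ∀ F ⊆ X, F.Finite → ∃ g : G, ∀ x ∈ F, ρ α x = g • x
  eqv : ∀ α, ∀ x ∈ X, σ (ρ α x) ⊆ α '' σ x
  supp : ∀ α : GQ, ∀ x ∈ X, (∀ t ∈ σ x, α t = t) → ρ α x = x
  bd : ∃ (I : Type) (_ : Finite I), ∀ x ∈ X, ∃ f : I → ℚ, σ x ⊆ range f
  fin : ∀ T : Set ℚ, T.Finite → {x ∈ X | σ x ⊆ T}.Finite

variable {G} {X Z : Set Y} {ρ : GQ → Y → Y} {σ : Y → Set ℚ}

theorem Good.mem (h : Good G X ρ σ) (α : GQ) {x : Y} (hx : x ∈ X) : ρ α x ∈ X := by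
  obtain ⟨g, hg⟩ := h.loc α {x} (singleton_subset_iff.2 hx) (finite_singleton x)
  rw [hg x rfl]
  exact h.inv g x hx

theorem Good.congr (h : Good G X ρ σ) {α β : GQ} {x : Y} (hx : x ∈ X)
    (k : ∀ t ∈ σ x, α t = β t) : ρ α x = ρ β x := by
  have := h.supp (β⁻¹ * α) x hx (fun t ht => by rw [mul_app, k t ht, inv_app])
  conv_rhs => rw [← this, ← h.mul _ _ _ hx, mul_inv_cancel_left]

theorem Good.reps (h : Good G X ρ σ) : ∃ R : Set Y, R.Finite ∧ ∀ x ∈ X, ∃ α, ρ α x ∈ R := by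
  obtain ⟨I, _, hI⟩ := h.bd
  let c : (I → ℚ) → I → I → Prop := fun f i j => f i < f j
  refine ⟨_, h.fin (⋃ k, range (invFun c k)) (finite_iUnion fun _ => finite_range _),
    fun x hx => ?_⟩
  obtain ⟨f, hf⟩ := hI x hx
  obtain ⟨α, hα⟩ := ext_iso f (invFun c (c f)) (fun i j =>
    (iff_of_eq (congrFun (congrFun (invFun_eq ⟨f, rfl⟩ : c (invFun c (c f)) = c f) i) j)).symm)
  refine ⟨α, h.mem α hx, (h.eqv α x hx).trans ?_⟩
  rintro _ ⟨t, ht, rfl⟩
  obtain ⟨i, rfl⟩ := hf ht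
  exact mem_iUnion.2 ⟨_, i, (hα i).symm⟩

theorem Good.extend (h : Good G X ρ σ) (hZ : ∀ g : G, ∀ z ∈ Z, g • z ∈ Z) (τ : Y → Set Y)
    (t1 : ∀ z ∈ Z, τ z ⊆ X) (t2 : ∀ g : G, ∀ z ∈ Z, τ (g • z) = g • τ z)
    (t3 : ∃ (J : Type) (_ : Finite J), ∀ z ∈ Z, ∃ t : J → Y, τ z ⊆ range t)
    {κ : Type} [Finite κ] (w : Y → Option ℚ) (k : Y → κ)
    (inj : ∀ z ∈ Z, ∀ z' ∈ Z, τ z = τ z' → w z = w z' → k z = k z' → z = z')
    (E : ∀ α : GQ, ∀ F ⊆ X, F.Finite → ∀ F' ⊆ Z, F'.Finite → ∃ g : G, (∀ x ∈ F, ρ α x = g • x) ∧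
      ∀ z ∈ F', w (g • z) = (w z).map α ∧ k (g • z) = k z) :
    ∃ ρ' σ', Good G (X ∪ Z) ρ' σ' := by
  classical
  obtain ⟨J, _, t3⟩ := t3
  have tf : ∀ z ∈ Z, (τ z).Finite := fun z hz => by
    obtain ⟨t, ht⟩ := t3 z hz
    exact (finite_range t).subset ht
  let P : GQ → Y → G → Prop := fun α z g => (∀ x ∈ τ z, ρ α x = g • x) ∧
    w (g • z) = (w z).map α ∧ k (g • z) = k z
  have ex : ∀ α, ∀ z ∈ Z, ∃ g, P α z g := fun α z hz => by
    obtain ⟨g, g1, g2⟩ := E α _ (t1 z hz) (tf z hz) {z} (singleton_subset_iff.2 hz)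
      (finite_singleton z)
    exact ⟨g, g1, g2 z rfl⟩
  choose! γ hγ using ex
  have un : ∀ α, ∀ z ∈ Z, ∀ g, P α z g → γ α z • z = g • z := by
    intro α z hz g hg
    obtain ⟨a1, a2, a3⟩ := hγ α z hz
    refine inj _ (hZ _ z hz) _ (hZ _ z hz) ?_ (a2.trans hg.2.1.symm) (a3.trans hg.2.2.symm)
    rw [t2 _ z hz, t2 _ z hz]
    exact image_congr fun x hx => (a1 x hx).symm.trans (hg.1 x hx)
  have nX : ∀ (g : G) y, y ∉ X → g • y ∉ X := fun g y hy k => hy (by simpa using h.inv g⁻¹ _ k)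
  have cs : ∀ y ∈ X ∪ Z, y ∉ X → y ∈ Z := fun y hy k => hy.resolve_left k
  refine ⟨fun α y => if y ∈ X then ρ α y else γ α y • y,
    fun y => if y ∈ X then σ y else (⋃ x ∈ τ y, σ x) ∪ {q | w y = some q},
    fun g y hy => hy.imp (h.inv g y) (hZ g y), fun α β y hy => ?_, fun α F hF hf => ?_,
    fun α y hy => ?_, fun α y hy => ?_, ?_, fun T hT => ?_⟩
  · by_cases hx : y ∈ X
    · simp only [if_pos hx, if_pos (h.mem β hx), h.mul α β y hx]
    · have hz := cs y hy hx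
      simp only [if_neg hx, if_neg (nX _ y hx), ← mul_smul]
      obtain ⟨a1, a2, a3⟩ := hγ β y hz
      obtain ⟨b1, b2, b3⟩ := hγ α _ (hZ (γ β y) y hz)
      refine un _ y hz _ ⟨fun x hx => ?_, ?_, by rw [mul_smul, b3, a3]⟩
      · rw [h.mul _ _ _ (t1 y hz hx), a1 x hx, mul_smul, b1]
        rw [t2 _ y hz]
        exact smul_mem_smul_set hx
      · rw [mul_smul, b2, a2, Option.map_map]; rfl
  · have f1 : (F \ X) ⊆ Z := fun y hy => cs y (hF hy.1) hy.2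
    obtain ⟨g, g1, g2⟩ := E α (F ∩ X ∪ ⋃ z ∈ F \ X, τ z)
      (union_subset inter_subset_right (iUnion₂_subset fun z hz => t1 z (f1 hz)))
      ((hf.inter_of_left X).union (hf.sdiff.biUnion fun z hz => tf z (f1 hz))) _ f1 hf.sdiff
    refine ⟨g, fun y hy => ?_⟩
    by_cases hx : y ∈ X
    · simp only [if_pos hx]
      exact g1 y (Or.inl ⟨hy, hx⟩)
    · simp only [if_neg hx]
      exact un α y (f1 ⟨hy, hx⟩) g ⟨fun x k => g1 x (Or.inr (mem_biUnion ⟨hy, hx⟩ k)),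
        g2 y ⟨hy, hx⟩⟩
  · by_cases hx : y ∈ X
    · simp only [if_pos hx, if_pos (h.mem α hx)]
      exact h.eqv α y hx
    · have hz := cs y hy hx
      simp only [if_neg hx, if_neg (nX _ y hx)]
      obtain ⟨a1, a2, -⟩ := hγ α y hz
      rw [t2 _ y hz, a2]
      rintro q (hq | hq)
      · obtain ⟨_, ⟨x, k1, rfl⟩, k2⟩ := mem_iUnion₂.1 hq
        obtain ⟨r, r1, rfl⟩ := h.eqv α x (t1 y hz k1) (by rw [a1 x k1]; exact k2)
        exact ⟨r, Or.inl (mem_biUnion k1 r1), rfl⟩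
      · obtain ⟨r, r1, rfl⟩ := Option.map_eq_some_iff.1 hq
        exact ⟨r, Or.inr r1, rfl⟩
  · by_cases hx : y ∈ X
    · simp only [if_pos hx]
      exact h.supp α y hx
    · have hz := cs y hy hx
      simp only [if_neg hx]
      intro ht
      refine (un α y hz 1 ⟨fun x k => ?_, ?_, by rw [one_smul]⟩).trans (one_smul _ _)
      · rw [one_smul]
        exact h.supp α x (t1 y hz k) fun t k' => ht t (Or.inl (mem_biUnion k k'))
      · rw [one_smul]
        cases e : w y with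
        | none => rfl
        | some q => exact congrArg some (ht q (Or.inr e)).symm
  · obtain ⟨I, _, hI⟩ := h.bd
    choose! f hf using hI
    refine ⟨Option (Option J × I), inferInstance, fun y hy => ?_⟩
    by_cases hx : y ∈ X
    · simp only [if_pos hx]
      refine ⟨fun o => o.elim 0 (fun p => f y p.2), fun q hq => ?_⟩
      obtain ⟨i, rfl⟩ := hf y hx hq
      exact ⟨some (none, i), rfl⟩
    · have hz := cs y hy hx
      simp only [if_neg hx]
      obtain ⟨t, ht⟩ := t3 y hz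
      refine ⟨fun o => o.elim ((w y).getD 0) (fun p => f (p.1.elim y t) p.2), ?_⟩
      rintro q (hq | hq)
      · obtain ⟨x, k1, k2⟩ := mem_iUnion₂.1 hq
        obtain ⟨j, rfl⟩ := ht k1
        obtain ⟨i, rfl⟩ := hf _ (t1 y hz k1) k2
        exact ⟨some (some j, i), rfl⟩
      · exact ⟨none, by rw [show w y = some q from hq]; rfl⟩
  · have f1 : {z ∈ Z | (⋃ x ∈ τ z, σ x) ∪ {q | w z = some q} ⊆ T}.Finite := by
      refine Set.Finite.of_injOn (f := fun z => (τ z, w z, k z)) ?_ ?_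
        ((h.fin T hT).finite_subsets.prod (((hT.image some).insert none).prod finite_univ))
      · rintro z ⟨hz, k⟩
        refine ⟨fun x hx => ⟨t1 z hz hx, fun q hq => k (Or.inl (mem_biUnion hx hq))⟩, ?_, trivial⟩
        cases e : w z with
        | none => exact Or.inl e
        | some q => exact Or.inr ⟨q, k (Or.inr e), e.symm⟩
      · intro z hz z' hz' e
        simp only [Prod.mk.injEq] at e
        exact inj z hz.1 z' hz'.1 e.1 e.2.1 e.2.2
    refine ((h.fin T hT).union f1).subset ?_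
    rintro y ⟨hy, k⟩
    by_cases hx : y ∈ X
    · exact Or.inl ⟨hx, by simpa only [if_pos hx] using k⟩
    · exact Or.inr ⟨cs y hy hx, by simpa only [if_neg hx] using k⟩

/-- Finite covers. -/
theorem Good.fcover (h : Good G X ρ σ) (hZ : ∀ g : G, ∀ z ∈ Z, g • z ∈ Z) (τ : Y → Set Y)
    (t1 : ∀ z ∈ Z, τ z ⊆ X) (t2 : ∀ g : G, ∀ z ∈ Z, τ (g • z) = g • τ z)
    (t3 : ∃ (J : Type) (_ : Finite J), ∀ z ∈ Z, ∃ t : J → Y, τ z ⊆ range t)
    (t4 : ∃ (J : Type) (_ : Finite J), ∀ z ∈ Z, ∃ t : J → Y, {y ∈ Z | τ y = τ z} ⊆ range t) :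
    ∃ ρ' σ', Good G (X ∪ Z) ρ' σ' := by
  classical
  obtain ⟨J, _, t4⟩ := t4
  have tf : ∀ z ∈ Z, (τ z).Finite := fun z hz => by
    obtain ⟨_, _, t3⟩ := t3
    obtain ⟨t, ht⟩ := t3 z hz
    exact (finite_range t).subset ht
  have : ∀ v : Set Y, ∃ f : Y → Option J, InjOn f {y ∈ Z | τ y = v} := by
    intro v
    rcases eq_empty_or_nonempty {y ∈ Z | τ y = v} with e | ⟨z, hz, rfl⟩
    · exact ⟨fun _ => none, e ▸ injOn_empty _⟩
    · obtain ⟨t, ht⟩ := t4 z hz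
      refine ⟨fun y => if h : y ∈ range t then some h.choose else none, fun y hy y' hy' e => ?_⟩
      simp only [dif_pos (ht hy), dif_pos (ht hy'), Option.some.injEq] at e
      rw [← (ht hy).choose_spec, e, (ht hy').choose_spec]
  choose f hf using this
  have key : ∀ s : Set (GQ ⊕ Y), s.Finite → ∃ g0 : G, ∀ α, Sum.inl α ∈ s → ∃ g : G,
      (∀ x ∈ X, Sum.inr x ∈ s → ρ α x = g • x) ∧ ∀ z, Sum.inr z ∈ s →
        f (τ (g0 • g • z)) (g0 • g • z) = f (τ (g0 • z)) (g0 • z) := by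
    intro s hs
    have f1 : (Sum.inr ⁻¹' s).Finite := hs.preimage Sum.inr_injective.injOn
    have f2 : (Sum.inl ⁻¹' s).Finite := hs.preimage Sum.inl_injective.injOn
    have f3 := f1.inter_of_right X
    have := f1.to_subtype
    obtain ⟨I, _, hI⟩ := h.bd
    obtain ⟨β, hβ⟩ := ea (S := ⋃ x ∈ X ∩ Sum.inr ⁻¹' s, σ x) (f3.biUnion fun x hx => by
        obtain ⟨t, ht⟩ := hI x hx.1
        exact (finite_range t).subset ht) f2
      (fun β => {c : (Sum.inr ⁻¹' s) → Option J | ∃ g : G, (∀ x ∈ X ∩ Sum.inr ⁻¹' s,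
        ρ β x = g • x) ∧ c = fun z => f (τ (g • z.1)) (g • z.1)}) (fun β β' k => by
        ext c
        exact exists_congr fun g => and_congr_left' (forall₂_congr fun x hx => by
          rw [h.congr hx.1 fun t ht => k t (mem_biUnion hx ht)]))
    obtain ⟨g0, hg⟩ := h.loc β (X ∩ Sum.inr ⁻¹' s ∪ ⋃ α ∈ Sum.inl ⁻¹' s, ρ α '' (X ∩ Sum.inr ⁻¹' s))
      (union_subset inter_subset_left (iUnion₂_subset fun α _ => by
        rintro _ ⟨x, hx, rfl⟩
        exact h.mem α hx.1)) (f3.union (f2.biUnion fun α _ => f3.image _))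
    refine ⟨g0, fun α hα => ?_⟩
    obtain ⟨g, g1, g2⟩ := (Set.ext_iff.1 (hβ α hα) _).2 ⟨g0, fun x hx => hg x (Or.inl hx), rfl⟩
    refine ⟨g0⁻¹ * g, fun x hx k => ?_, fun z hz => ?_⟩
    · rw [mul_smul, ← g1 x ⟨hx, k⟩, h.mul _ _ _ hx,
        hg _ (Or.inr (mem_biUnion hα (mem_image_of_mem _ ⟨hx, k⟩))), inv_smul_smul]
    · rw [mul_smul, smul_inv_smul]
      exact (congrFun g2 ⟨z, hz⟩).symm
  choose g0 hg0 using key
  obtain ⟨ω, hω⟩ := Set.Finite.rado_selection (β := fun _ : GQ ⊕ Y => Option J)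
    (fun s hs a => a.elim (fun _ => none) (fun y => f (τ (g0 s hs • y)) (g0 s hs • y)))
  refine h.extend hZ τ t1 t2 t3 (fun _ => none) (fun y => ω (Sum.inr y))
    (fun z hz z' hz' e1 _ e2 => ?_) (fun α F hF fF F' hF' fF' => ?_)
  · obtain ⟨t, ht, -, k⟩ := hω {Sum.inr z, Sum.inr z'} (toFinite _)
    rw [k _ (Or.inl rfl), k _ (Or.inr rfl)] at e2
    have e3 : τ (g0 t ht • z') = τ (g0 t ht • z) := by rw [t2 _ z hz, t2 _ z' hz', e1]
    simp only [Sum.elim_inr, e3] at e2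
    exact MulAction.injective _ (hf _ ⟨hZ _ z hz, rfl⟩ ⟨hZ _ z' hz', e3⟩ e2)
  · have f1 : (⋃ z ∈ F', {y ∈ Z | τ y = ρ α '' τ z}).Finite := fF'.biUnion fun z _ => by
      rcases eq_empty_or_nonempty {y ∈ Z | τ y = ρ α '' τ z} with e | ⟨y, hy, e⟩
      · exact e ▸ finite_empty
      · obtain ⟨t, ht⟩ := t4 y hy
        exact (finite_range t).subset (e ▸ ht)
    obtain ⟨t, ht, k1, k2⟩ := hω _ ((((fF.union fF').union (fF'.biUnion fun z hz =>
      tf z (hF' hz))).union f1).image Sum.inr |>.insert (Sum.inl α))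
    obtain ⟨g, g1, g2⟩ := hg0 t ht α (k1 (Or.inl rfl))
    refine ⟨g, fun x hx => g1 x (hF hx) (k1 (Or.inr ⟨x, Or.inl (Or.inl (Or.inl hx)), rfl⟩)),
      fun z hz => ⟨rfl, ?_⟩⟩
    rw [k2 _ (Or.inr ⟨z, Or.inl (Or.inl (Or.inr hz)), rfl⟩), k2 _ (Or.inr ⟨g • z, Or.inr (mem_biUnion hz ⟨hZ g z (hF' hz), ?_⟩), rfl⟩)]
    · exact g2 z (k1 (Or.inr ⟨z, Or.inl (Or.inl (Or.inr hz)), rfl⟩))
    · rw [t2 g z (hF' hz)]
      exact image_congr fun x hx => (g1 x (t1 z (hF' hz) hx)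
        (k1 (Or.inr ⟨x, Or.inl (Or.inr (mem_biUnion hz hx)), rfl⟩))).symm

/-- Free covers with countably infinite fibres. -/
theorem Good.free (h : Good G X ρ σ) (hZ : ∀ g : G, ∀ z ∈ Z, g • z ∈ Z) (π : Y → Y)
    (p1 : ∀ z ∈ Z, π z ∈ X) (p2 : ∀ g : G, ∀ z ∈ Z, π (g • z) = g • π z) (cnt : Z.Countable)
    (inf : ∀ z ∈ Z, {y ∈ Z | π y = π z}.Infinite)
    (hom : ∀ F ⊆ X, F.Finite → ∀ F' ⊆ Z, F'.Finite → ∀ z ∈ Z, ∀ z' ∈ Z, z ∉ F' → z' ∉ F' →
      π z = π z' → ∃ g : G, (∀ x ∈ F ∪ F', g • x = x) ∧ g • z = z') :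
    ∃ ρ' σ', Good G (X ∪ Z) ρ' σ' := by
  classical
  have : ∀ v : Y, ∃ f : Y → ℚ, (∃ z ∈ Z, π z = v) → BijOn f {y ∈ Z | π y = v} univ := by
    intro v
    by_cases hv : ∃ z ∈ Z, π z = v
    · obtain ⟨z, hz, rfl⟩ := hv
      have := (cnt.mono (sep_subset Z (fun y => π y = π z))).to_subtype
      have := (inf z hz).to_subtype
      obtain ⟨e⟩ := nonempty_equiv_of_countable (α := {y ∈ Z | π y = π z}) (β := ℚ)
      refine ⟨fun y => if h : y ∈ {y ∈ Z | π y = π z} then e ⟨y, h⟩ else 0, fun _ =>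
        ⟨mapsTo_univ _ _, fun y hy y' hy' k => ?_, fun q _ => ⟨e.symm q, (e.symm q).2, ?_⟩⟩⟩
      · simp only [dif_pos hy, dif_pos hy'] at k
        exact congrArg Subtype.val (e.injective k)
      · simp only [dif_pos (e.symm q).2, Subtype.coe_eta, Equiv.apply_symm_apply]
    · exact ⟨fun _ => 0, fun k => absurd k hv⟩
  choose f hf using this
  refine h.extend hZ (fun z => {π z}) (fun z hz => singleton_subset_iff.2 (p1 z hz))
    (fun g z hz => by rw [p2 g z hz, smul_set_singleton])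
    ⟨Unit, inferInstance, fun z _ => ⟨fun _ => π z, fun _ k => ⟨(), k.symm⟩⟩⟩
    (fun z => some (f (π z) z)) (fun _ => ()) (fun z hz z' hz' e1 e2 _ => ?_)
    (fun α F hF fF F' hF' fF' => ?_)
  · have e3 : π z' = π z := (singleton_injective e1).symm
    simp only [e3, Option.some.injEq] at e2
    exact (hf _ ⟨z, hz, rfl⟩).injOn ⟨hz, rfl⟩ ⟨hz', e3⟩ e2
  · simp only [Option.map_some, Option.some.injEq, and_true]
    induction F', fF' using Set.Finite.induction_on generalizing F with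
    | empty =>
      obtain ⟨g, hg⟩ := h.loc α F hF fF
      exact ⟨g, hg, fun _ k => k.elim⟩
    | @insert z F' hz fF' ih =>
      have hz' : z ∈ Z := hF' (Or.inl rfl)
      have hF'' : F' ⊆ Z := fun _ k => hF' (Or.inr k)
      obtain ⟨g, g1, g2⟩ := ih F hF fF hF''
      have b := hf _ ⟨g • z, hZ g z hz', rfl⟩
      obtain ⟨y, ⟨y1, y2⟩, y3⟩ := b.surjOn (mem_univ (α (f (π z) z)))
      refine (hom (g • F) ?_ fF.smul_set (g • F') ?_ fF'.smul_set _ (hZ g z hz') y y1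
        (by rwa [smul_mem_smul_set_iff]) ?_ y2.symm).elim
          fun k ⟨k1, k2⟩ => ⟨k * g, fun x hx => ?_, ?_⟩
      rotate_left 3
      · rw [mul_smul, k1 _ (Or.inl (smul_mem_smul_set hx)), g1 x hx]
      · rintro x (rfl | hx)
        · rw [mul_smul, k2, y2, y3]
        · rw [mul_smul, k1 _ (Or.inr (smul_mem_smul_set hx)), g2 x hx]
      · rintro _ ⟨x, hx, rfl⟩
        exact h.inv g x (hF hx)
      · rintro _ ⟨x, hx, rfl⟩
        exact hZ g x (hF'' hx)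
      · rintro ⟨x, hx, rfl⟩
        have e1 : π x = π z := MulAction.injective g (by
          simpa only [p2 g x (hF'' hx), p2 g z hz'] using y2)
        have e2 := g2 x hx
        simp only at y2 y3
        rw [y2, y3, e1] at e2
        exact hz ((hf _ ⟨z, hz', rfl⟩).injOn ⟨hz', rfl⟩ ⟨hF'' hx, e1⟩ (α.injective e2) ▸ hx)

end Pool.Agent.Lib.MP_905f9a_lc.D
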