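import Pool.Agent.Lib.MP_905f9a_lc.D.Irr
import Pool.Agent.Lib.MP_905f9a_lc.D.Lift
import Pool.Agent.Lib.MP_905f9a_lc.Final

/-! Construction of an action with finite supports and finitely many orbits, level by level. -/

namespace Pool.Agent.Lib.MP_905f9a_lc.D

open Set Function Pointwise Ctx MulAction

variable {G : Type} [Group G] [Ctx G]

variable (G) in
/-- An action with open point stabilizers. -/
class OA (Y : Type) [MulAction G Y] : Prop where
  op : ∀ y : Y, Op (stabilizer G y)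

omit [Ctx G] in
theorem stab_smul {Y : Type} [MulAction G Y] (g : G) (y : Y) :
    stabilizer G (g • y) = cj g (stabilizer G y) := by
  ext x
  rw [mem_cj, mem_stabilizer_iff, mem_stabilizer_iff, mul_smul, mul_smul, inv_smul_eq_iff]

section
variable {Y : Type} [MulAction G Y] [OA G Y]

variable (G) in
/-- The stabilizer as an open subgroup. -/
def so (y : Y) : O G := ⟨stabilizer G y, OA.op y⟩

variable (G) in
/-- The algebraic closure of a point. -/
def cls (y : Y) : Q G := cl (so G y)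

theorem cls_smul (g : G) (y : Y) : cls G (g • y) = g • cls G y :=
  congrArg cl (Subtype.ext (stab_smul g y))

variable (G) in
/-- Finitely many orbits. -/
def FO (Z : Set Y) : Prop := ∃ R : Set Y, R.Finite ∧ ∀ z ∈ Z, ∃ r ∈ R, ∃ g : G, g • r = z

variable {X Z : Set Y} {ρ : GQ → Y → Y} {σ : Y → Set ℚ}

theorem FO.fin_alg (h : FO G Z) (c : Q G) : {z ∈ Z | c ≤ cls G z}.Finite := by
  obtain ⟨R, hR, h⟩ := h
  have key : ∀ y : Y, ∃ T : Set Y, T.Finite ∧ (c ≤ cls G y → ∀ v ∈ (St c).1, v • y ∈ T) := by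
    intro y
    by_cases k : c ≤ cls G y
    · rw [← cl_St c] at k
      obtain ⟨F, hF⟩ := k
      refine ⟨(fun f : G => f • y) '' F, F.finite_toSet.image _, fun _ v hv => ?_⟩
      obtain ⟨f, f1, -, f3⟩ := hF v hv
      exact ⟨f, f1, (inv_smul_eq_iff.1 ((mul_smul _ _ _).symm.trans f3)).symm⟩
    · exact ⟨∅, finite_empty, fun j => absurd j k⟩
  choose T T1 T2 using key
  choose F hF using fun r : Y => Ctx.finDC (St c).2 (OA.op (G := G) r)
  refine (hR.biUnion fun r _ => (F r).finite_toSet.biUnion fun f _ => T1 (f • r)).subset ?_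
  rintro z ⟨hz, k⟩
  obtain ⟨r, hr, g, rfl⟩ := h z hz
  obtain ⟨f, hf, v, hv, w, hw, rfl⟩ := hF r g
  rw [mul_smul, mul_smul, mem_stabilizer_iff.1 hw] at k ⊢
  refine mem_biUnion hr (mem_biUnion hf (T2 _ ?_ v hv))
  rwa [cls_smul, ← show v • c = c from hv, sm_le] at k

theorem FO.countable (h : FO G Z) : Z.Countable := by
  obtain ⟨R, hR, h⟩ := h
  choose T T1 T2 using fun r : Y => Ctx.cnt (OA.op (G := G) r)
  refine (hR.countable.biUnion fun r _ => (T1 r).image (fun f => f • r)).mono fun z hz => ?_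
  obtain ⟨r, hr, g, rfl⟩ := h z hz
  obtain ⟨f, f1, f2⟩ := T2 r g
  exact mem_biUnion hr ⟨f, f1, (inv_smul_eq_iff.1 ((mul_smul _ _ _).symm.trans f2)).symm⟩

theorem FO.bound (h : FO G Z) (hX : FO G X) (inv : ∀ g : G, ∀ x ∈ X, g • x ∈ X) :
    ∃ (J : Type) (_ : Finite J), ∀ z ∈ Z, ∃ t : J → Y, {x ∈ X | cls G z ≤ cls G x} ⊆ range t := by
  obtain ⟨R, hR, h⟩ := h
  refine ⟨_, (hR.biUnion fun r _ => hX.fin_alg (cls G r)).to_subtype, fun z hz => ?_⟩
  obtain ⟨r, hr, g, rfl⟩ := h z hz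
  refine ⟨fun j => g • j.1, fun x hx => ⟨⟨g⁻¹ • x, mem_biUnion hr ⟨inv _ x hx.1, ?_⟩⟩,
    smul_inv_smul g x⟩⟩
  rw [← sm_le g, ← cls_smul, ← cls_smul, smul_inv_smul]
  exact hx.2

theorem Good.alg (h : Good G X ρ σ) (hX : FO G X) (hZ : FO G Z)
    (inv : ∀ g : G, ∀ z ∈ Z, g • z ∈ Z)
    (alg : ∀ z ∈ Z, ∀ c, (∀ x ∈ X, cls G z ≤ cls G x → c ≤ cls G x) → c ≤ cls G z) :
    ∃ ρ' σ', Good G (X ∪ Z) ρ' σ' := by
  refine h.fcover inv (fun z => {x ∈ X | cls G z ≤ cls G x}) (fun _ _ => sep_subset _ _)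
    (fun g z _ => ?_) (hZ.bound hX h.inv) ?_
  · ext x
    rw [mem_smul_set_iff_inv_smul_mem, mem_sep_iff, mem_sep_iff, cls_smul, cls_smul, ← sm_le g⁻¹,
      inv_smul_smul]
    exact and_congr_left' ⟨h.inv _ x, fun k => by simpa using h.inv g _ k⟩
  · obtain ⟨J, _, hJ⟩ := hZ.bound hZ inv
    refine ⟨J, inferInstance, fun z hz => ?_⟩
    obtain ⟨t, ht⟩ := hJ z hz
    exact ⟨t, fun y hy => ht ⟨hy.1, alg y hy.1 _ fun x hx k =>
      ((Set.ext_iff.1 hy.2 x).1 ⟨hx, k⟩).2⟩⟩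

omit [OA G Y] [Ctx G] in
theorem FO.union (h : FO G X) (k : FO G Z) : FO G (X ∪ Z) := by
  obtain ⟨R, hR, h⟩ := h
  obtain ⟨R', hR', k⟩ := k
  refine ⟨R ∪ R', hR.union hR', ?_⟩
  rintro z (hz | hz)
  · obtain ⟨r, hr, e⟩ := h z hz
    exact ⟨r, Or.inl hr, e⟩
  · obtain ⟨r, hr, e⟩ := k z hz
    exact ⟨r, Or.inr hr, e⟩

omit [OA G Y] [Ctx G] in
theorem FO.image {Y' : Type} [MulAction G Y'] {P P' : Set Y'} (h : FO G P) (k : P' ⊆ P)
    (s : Y' → Y) (hs : ∀ (g : G) p, s (g • p) = g • s p) : FO G (s '' P') := by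
  obtain ⟨R, hR, h⟩ := h
  refine ⟨s '' R, hR.image s, ?_⟩
  rintro _ ⟨p, hp, rfl⟩
  obtain ⟨r, hr, g, rfl⟩ := h p (k hp)
  exact ⟨_, ⟨r, hr, rfl⟩, g, (hs g r).symm⟩

theorem levels (s δ : Q G → Y) (s1 : ∀ (g : G) p, s (g • p) = g • s p)
    (d1 : ∀ (g : G) p, δ (g • p) = g • δ p) (s2 : ∀ p, cls G (s p) = p)
    (d2 : ∀ p q, δ p = δ q ↔ Dm p = Dm q) {I : Set (Q G)} (hI : FO G I)
    (i1 : ∀ g : G, ∀ p ∈ I, g • p ∈ I) (i2 : ∀ p ∈ I, ∃ c, Irr p c)
    (i3 : ∀ p ∈ I, ∀ q c, p ≤ q → Irr q c → q ∈ I) (k : ℕ) :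
    ∃ ρ σ, Good G (δ '' {p ∈ I | nr p < k} ∪ s '' {p ∈ I | nr p < k}) ρ σ := by
  have si : Injective s := fun p q e => by rw [← s2 p, e, s2]
  have d3 : ∀ p c, Irr p c → cls G (δ p) = c := by
    intro p c h
    refine le_antisymm ?_ ?_
    · rw [← cl_St c]
      refine cl_mono fun g hg => ?_
      have := (h.smul g).same h ((d2 _ _).1 ((d1 g p).trans hg))
      obtain ⟨-, -, k⟩ := (h.smul g).of_same this
      exact k.uniq h
    · obtain ⟨C, rfl, hC⟩ := exists_same p c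
      exact cl_mono fun g hg => (d1 g p).symm.trans ((d2 _ _).2 (h.Dm_eq (hC g hg)))
  have inv : ∀ k (t : Q G → Y), (∀ (g : G) p, t (g • p) = g • t p) → ∀ g : G,
      ∀ z ∈ t '' {p ∈ I | nr p = k}, g • z ∈ t '' {p ∈ I | nr p = k} := by
    rintro k t ht g _ ⟨p, hp, rfl⟩
    exact ⟨g • p, ⟨i1 g p hp.1, (nr_smul g p).trans hp.2⟩, ht g p⟩
  induction k with
  | zero =>
    simp only [Nat.not_lt_zero, sep_false, image_empty, union_empty]
    exact ⟨fun _ y => y, fun _ => ∅, fun _ _ h => h.elim, fun _ _ _ _ => rfl,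
      fun _ _ h _ => ⟨1, fun _ k => (h k).elim⟩, fun _ _ h => h.elim, fun _ _ _ _ => rfl,
      ⟨Unit, inferInstance, fun _ h => h.elim⟩, fun _ _ => by simp⟩
  | succ k ih =>
    obtain ⟨ρ, σ, h⟩ := ih
    obtain ⟨ρ, σ, h⟩ := h.alg ((hI.image (sep_subset _ _) δ d1).union
      (hI.image (sep_subset _ _) s s1)) (hI.image (sep_subset _ _) δ d1) (inv k δ d1) (by
        rintro _ ⟨p, ⟨hp, rfl⟩, rfl⟩ c' hc
        obtain ⟨c, j⟩ := i2 p hp
        rw [d3 p c j] at hc ⊢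
        exact le_of_irr c fun q c2 j1 j2 => s2 q ▸ hc _ (Or.inr ⟨q, ⟨i3 p hp q c2 (j.1.trans j2) j1,
          (nr_le j2).trans_lt (nr_lt j.1 j.2.1)⟩, rfl⟩) (by rwa [s2]))
    have e : ∀ p, invFun s (s p) = p := leftInverse_invFun si
    obtain ⟨ρ, σ, h⟩ := h.free (inv k s s1) (fun y => δ (invFun s y)) (by
        rintro _ ⟨p, hp, rfl⟩
        exact Or.inr ⟨p, hp, by rw [e]⟩) (by
        rintro g _ ⟨p, hp, rfl⟩
        rw [← s1, e, e, d1]) (hI.image (sep_subset _ _) s s1).countable (by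
        rintro _ ⟨p, hp, rfl⟩
        obtain ⟨c, j⟩ := i2 p hp.1
        refine (j.infinite.image si.injOn).mono ?_
        rintro _ ⟨q, hq, rfl⟩
        obtain ⟨g, rfl, -⟩ := j.of_same (j.mem_Dm.1 hq)
        exact ⟨s1 g p ▸ inv k s s1 g _ ⟨p, hp, rfl⟩, by
          rw [e, e, d2, j.Dm_eq (j.mem_Dm.1 hq)]⟩) (by
        rintro F hF fF F' hF' fF' _ ⟨p, hp, rfl⟩ _ ⟨q, hq, rfl⟩ n1 n2 j
        obtain ⟨c, j1⟩ := i2 p hp.1
        obtain ⟨c', j2⟩ := i2 q hq.1
        rw [e, e, d2] at j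
        have key : ∀ p c, Irr p c → nr p = k → s p ∉ F' →
            ¬ cl ((fF.union fF').toFinset.inf (so G)) ≤ p := by
          intro p c j hk n l
          rw [Finset.apply_inf_eq_inf_comp cl cl_inf cl_top, j.prime.finset_inf_le] at l
          obtain ⟨y, y1, y2⟩ := l
          replace y2 : cls G y ≤ p := y2
          have y3 := nr_le y2
          rcases (Finite.mem_toFinset _).1 y1 with y1 | y1
          · rcases hF y1 with (⟨r, hr, rfl⟩ | ⟨r, hr, rfl⟩) | ⟨r, hr, rfl⟩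
            · obtain ⟨c, j⟩ := i2 r hr.1
              have := nr_le j.1
              rw [d3 r c j] at y3
              exact absurd hr.2 (by omega)
            · rw [s2] at y3
              exact absurd hr.2 (by omega)
            · obtain ⟨c, j⟩ := i2 r hr.1
              have := nr_lt j.1 j.2.1
              rw [d3 r c j] at y3
              exact absurd hr.2 (by omega)
          · obtain ⟨r, hr, rfl⟩ := hF' y1
            rw [s2] at y2
            refine n (le_antisymm y2 (by_contra fun l => ?_) ▸ y1)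
            exact absurd (nr_lt y2 l) (by rw [hk, hr.2]; exact lt_irrefl k)
        obtain ⟨g, g1, g2⟩ := j1.hom (j1.same j2 j) _ (key p c j1 hp.2 n1) (key q c' j2 hq.2 n2)
        exact ⟨g, fun x hx => Finset.inf_le (f := so G) ((Finite.mem_toFinset _).2 hx) g1,
          by rw [← s1, g2]⟩)
    refine ⟨ρ, σ, ?_⟩
    simp only [Nat.lt_succ_iff_lt_or_eq, sep_or, image_union]
    rwa [union_union_union_comm, ← union_assoc]

end

/-- Sets of closed sets with open stabilizer. -/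
def Sm : SubMulAction G (Set (Q G)) where
  carrier := {t | Op (stabilizer G t)}
  smul_mem' g t h := by
    show Op _
    rw [stab_smul]
    exact op_cj g h

instance : OA G (Sm (G := G)) := ⟨fun t => op_mono t.2 fun _ h => Subtype.ext h⟩

instance {Y Y' : Type} [MulAction G Y] [MulAction G Y'] [OA G Y] [OA G Y'] : OA G (Y ⊕ Y') :=
  ⟨fun y => by
    cases y with
    | inl y => exact op_mono (OA.op y) fun _ h => congrArg Sum.inl h
    | inr y => exact op_mono (OA.op y) fun _ h => congrArg Sum.inr h⟩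

theorem exists_nice {A : Type} [MulAction G A] [OA G A] (h : FO G (univ : Set A)) :
    ∃ ρ : GQ →* Equiv.Perm A, Nice ρ ∧
      ∀ α (F : Set A), F.Finite → ∃ g : G, ∀ a ∈ F, ρ α a = g • a := by
  let s : Q G → Sm (G := G) ⊕ A := fun p => Sum.inl ⟨{p}, op_mono (St p).2 fun g hg =>
    (smul_set_singleton ..).trans (congrArg singleton hg)⟩
  let δ : Q G → Sm (G := G) ⊕ A := fun p => Sum.inl ⟨Dm p, op_mono (St p).2 fun g hg =>
    (Dm_smul ..).symm.trans (congrArg Dm hg)⟩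
  have s1 : ∀ (g : G) p, s (g • p) = g • s p := fun g p =>
    congrArg Sum.inl (Subtype.ext (smul_set_singleton ..).symm)
  have d1 : ∀ (g : G) p, δ (g • p) = g • δ p := fun g p =>
    congrArg Sum.inl (Subtype.ext (Dm_smul ..))
  have s2 : ∀ p, cls G (s p) = p := fun p => by
    conv_rhs => rw [← cl_St p]
    refine congrArg cl (Subtype.ext (Subgroup.ext fun g => ?_))
    show g • s p = s p ↔ g • p = p
    simp only [← s1, s, Sum.inl.injEq, Subtype.mk.injEq, singleton_eq_singleton_iff]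
  have r2 : ∀ a : A, cls G (Sum.inr a : Sm (G := G) ⊕ A) = cls G a := fun a =>
    congrArg cl (Subtype.ext (Subgroup.ext fun g => Sum.inr_injective.eq_iff))
  let I : Set (Q G) := {p | (∃ c, Irr p c) ∧ ∃ a : A, cls G a ≤ p}
  have hI : FO G I := by
    obtain ⟨R, hR, h⟩ := h
    refine ⟨_, hR.biUnion fun r _ => fin_irr (cls G r), ?_⟩
    rintro p ⟨⟨c, j⟩, a, ha⟩
    obtain ⟨r, hr, g, rfl⟩ := h a trivial
    exact ⟨g⁻¹ • p, mem_biUnion hr ⟨⟨_, j.smul _⟩, by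
      rwa [← sm_le g, smul_inv_smul, ← cls_smul]⟩, g, smul_inv_smul g p⟩
  obtain ⟨K, hK⟩ : ∃ K, ∀ p ∈ I, nr p < K := by
    obtain ⟨R, hR, h⟩ := hI
    obtain ⟨K, hK⟩ := (hR.image nr).bddAbove
    refine ⟨K + 1, fun p hp => ?_⟩
    obtain ⟨r, hr, g, rfl⟩ := h p hp
    rw [nr_smul]
    exact Nat.lt_succ_of_le (hK ⟨r, hr, rfl⟩)
  obtain ⟨ρ, σ, H⟩ := levels s δ s1 d1 s2 (fun p q => by
    simp only [δ, Sum.inl.injEq, Subtype.mk.injEq]) hI
    (fun g p ⟨⟨c, j⟩, a, ha⟩ => ⟨⟨_, j.smul g⟩, g • a, by rwa [cls_smul, sm_le]⟩)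
    (fun _ hp => hp.1) (fun p ⟨_, a, ha⟩ q c k j => ⟨⟨c, j⟩, a, ha.trans k⟩) K
  obtain ⟨ρ, σ, H⟩ := H.alg ((hI.image (sep_subset _ _) δ d1).union
    (hI.image (sep_subset _ _) s s1)) (h.image subset_rfl Sum.inr fun _ _ => rfl) (by
      rintro g _ ⟨a, -, rfl⟩
      exact ⟨g • a, trivial, rfl⟩) (by
      rintro _ ⟨a, -, rfl⟩ c' hc
      rw [r2] at hc ⊢
      exact le_of_irr _ fun q c j1 j2 => s2 q ▸ hc _ (Or.inr ⟨q, ⟨⟨⟨c, j1⟩, a, j2⟩,
        hK q ⟨⟨c, j1⟩, a, j2⟩⟩, rfl⟩) (by rwa [s2]))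
  generalize δ '' {p ∈ I | nr p < K} ∪ s '' {p ∈ I | nr p < K} = X at H
  have m : ∀ a : A, Sum.inr a ∈ X ∪ Sum.inr '' univ := fun a => Or.inr ⟨a, trivial, rfl⟩
  have : ∀ α (a : A), ∃ b, ρ α (Sum.inr a) = Sum.inr b := fun α a => by
    obtain ⟨g, hg⟩ := H.loc α {Sum.inr a} (singleton_subset_iff.2 (m a)) (finite_singleton _)
    exact ⟨g • a, hg _ rfl⟩
  choose act ha using this
  let M : MulAction GQ A :=
    { smul := act
      one_smul := fun a => Sum.inr_injective ((ha 1 a).symm.trans (H.supp 1 _ (m a) fun _ _ => rfl))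
      mul_smul := fun α β a => Sum.inr_injective ((ha _ a).symm.trans
        ((H.mul α β _ (m a)).trans (by rw [ha, ha]; rfl))) }
  refine ⟨toPermHom GQ A, ⟨fun a => ?_, ?_⟩, fun α F hF => ?_⟩
  · obtain ⟨J, _, hJ⟩ := H.bd
    obtain ⟨f, hf⟩ := hJ _ (m a)
    exact ⟨(finite_range f).toFinset, fun α hα => Sum.inr_injective ((ha α a).symm.trans
      (H.supp α _ (m a) fun t ht => hα t ((Finite.mem_toFinset _).2 (hf ht))))⟩
  · obtain ⟨R, hR, k⟩ := H.reps
    choose γ hγ using fun a : A => k _ (m a)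
    refine ⟨R, hR.to_subtype, fun a => ⟨_, hγ a⟩, fun a b e => ⟨(γ b)⁻¹ * γ a, ?_⟩⟩
    have : γ a • a = γ b • b := Sum.inr_injective ((ha _ a).symm.trans
      ((congrArg Subtype.val e).trans (ha _ b)))
    show ((γ b)⁻¹ * γ a) • a = b
    rw [mul_smul, this, inv_smul_smul]
  · obtain ⟨g, hg⟩ := H.loc α (Sum.inr '' F) (by rintro _ ⟨a, -, rfl⟩; exact m a) (hF.image _)
    exact ⟨g, fun a k => Sum.inr_injective ((ha α a).symm.trans (hg _ ⟨a, k, rfl⟩))⟩

end Pool.Agent.Lib.MP_905f9a_lc.D
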