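import Pool.Agent.Lib.MP_905f9a_lc.D.Orb
import Pool.Agent.Lib.MP_905f9a_lc.D.Levels

/-! From Lachlan's class to the group-theoretic setting. -/

namespace Pool.Agent.Lib.MP_905f9a_lc.D

open FirstOrder FirstOrder.Language FirstOrder.Language.Structure Set Function MulAction

universe u v

variable {L : FirstOrder.Language.{u, v}} {A : Type} [L.Structure A]

variable (L A) in
/-- Subgroups containing the stabilizer of a finite tuple. -/
def OpA (V : Subgroup (AutG L A)) : Prop :=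
  ∃ (I : Type) (_ : Finite I) (t : I → A), stabilizer (AutG L A) t ≤ V

theorem OpA.fin {V : Subgroup (AutG L A)} (h : OpA L A V) :
    ∃ (n : ℕ) (t : Fin n → A), stabilizer (AutG L A) t ≤ V := by
  obtain ⟨I, _, t, h⟩ := h
  obtain ⟨n, ⟨e⟩⟩ := Finite.exists_equiv_fin I
  exact ⟨n, t ∘ e.symm, fun g hg => h (funext fun i => by simpa using congrFun hg (e i))⟩

theorem OpA.inf {V W : Subgroup (AutG L A)} (h : OpA L A V) (k : OpA L A W) : OpA L A (V ⊓ W) := by
  obtain ⟨I, _, s, h⟩ := h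
  obtain ⟨J, _, t, k⟩ := k
  exact ⟨I ⊕ J, inferInstance, Sum.elim s t, fun g hg =>
    ⟨h (funext fun i => congrFun hg (Sum.inl i)), k (funext fun i => congrFun hg (Sum.inr i))⟩⟩

theorem OpA.cj {V : Subgroup (AutG L A)} (g : AutG L A) (h : OpA L A V) : OpA L A (cj g V) := by
  obtain ⟨I, _, s, h⟩ := h
  exact ⟨I, inferInstance, g • s, by rw [stab_smul]; exact cj_mono g h⟩

theorem orb2 (hO : Oligo L A) {I J : Type} [Finite I] [Finite J] (s : I → A) :
    ∃ (κ : Type) (_ : Finite κ) (c : (J → A) → κ), ∀ x y, c x = c y →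
      ∃ g : AutG L A, g • s = s ∧ g • x = y := by
  obtain ⟨κ, _, c, hc⟩ := hO (I ⊕ J)
  refine ⟨κ, inferInstance, fun x => c (Sum.elim s x), fun x y e => ?_⟩
  obtain ⟨σ, hσ, k⟩ := hc _ _ e
  exact ⟨⟨σ, hσ⟩, funext fun i => congrFun k (Sum.inl i), funext fun i => congrFun k (Sum.inr i)⟩

theorem def_par [L.IsRelational] [Countable A] (hO : Oligo L A) {I J : Type} [Finite I] [Finite J]
    {s : J → A} {P : Set A} (hs : ∀ j, s j ∈ P) {S : Set (I → A)}
    (hS : ∀ g : AutG L A, g • s = s → ∀ x ∈ S, g • x ∈ S) : P.Definable L S := by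
  have := def_sub (definable_of_inv hO {w : J ⊕ I → A | ∃ g : AutG L A, ∃ x ∈ S,
    g • Sum.elim s x = w} (by
      rintro σ hσ _ ⟨g, x, hx, rfl⟩
      exact ⟨⟨σ, hσ⟩ * g, x, hx, mul_smul _ _ _⟩)) hs
  refine (congrArg (P.Definable L) (Set.ext fun x => ⟨?_, fun hx => ?_⟩)).mp this
  swap
  · exact ⟨1, x, hx, one_smul _ _⟩
  rintro ⟨g, y, hy, e⟩
  exact (funext fun i => congrFun e (Sum.inr i) : g • y = x) ▸
    hS g (funext fun i => congrFun e (Sum.inl i)) y hy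

theorem mem_stab {G Y : Type} [Group G] [MulAction G Y] {g h : G} {y : Y} (e : g • y = h • y) :
    g⁻¹ * h ∈ stabilizer G y := by
  rw [mem_stabilizer_iff, mul_smul, ← e, inv_smul_smul]

theorem triv_of [L.IsRelational] [Countable A] (hO : Oligo L A) (h : InD L A)
    {B S : Subgroup (AutG L A)} (hS : OpA L A S) (hB : S ≤ B) (na : ¬ Alg S B)
    (sm : ∀ V, OpA L A V → V ≤ B → ∀ x ∈ B, ∀ y ∈ B,
      Alg (cj x S) V ∨ Alg (cj y S) V ∨ DC V S x y)
    (mx : ∀ S', S ≤ S' → S' ≤ B → S' = S ∨ S' = B) :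
    ∀ g ∈ B, ∀ k ∈ B, g ∉ S → k ∉ S → ¬ Alg S (B ⊓ cj g S ⊓ cj k S) := by
  classical
  obtain ⟨d, t, ht⟩ := hS.fin
  let D := B ⧸ S.subgroupOf B
  let m : B → D := QuotientGroup.mk
  have m1 : ∀ x y, m x = m y ↔ x.1⁻¹ * y.1 ∈ S := fun x y => QuotientGroup.eq
  have m2 : ∀ x y : B, x • m y = m (x * y) := fun _ _ => rfl
  have m3 : Surjective m := QuotientGroup.mk_surjective
  let Dom : Set (Fin d → A) := range fun b : B => b.1 • t
  let f : Dom → D := fun x => m x.2.choose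
  have f1 : ∀ b : B, f ⟨_, b, rfl⟩ = m b := fun b => (m1 _ _).2 (ht (mem_stab
    (Exists.choose_spec (⟨b, rfl⟩ : b.1 • t ∈ Dom))))
  have fs : Surjective f := fun x => by
    obtain ⟨b, rfl⟩ := m3 x
    exact ⟨_, f1 b⟩
  have : Countable D := fs.countable
  have inf : ∀ F : Finset (AutG L A), ∃ x : B, ∀ y ∈ F, y ∈ B → y⁻¹ * x ∉ S := fun F => by
    by_contra! j
    exact na ⟨F, fun u hu => j ⟨u, hu⟩⟩
  have : Infinite D := not_finite_iff_infinite.1 fun _ => na (Alg.of_cover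
    (fun g => if j : g ∈ B then m ⟨g, j⟩ else m 1) fun u hu u' hu' e => by
      simp only [dif_pos hu, dif_pos hu'] at e
      exact (m1 _ _).1 e)
  let _ := orbS B D
  have pl : ∀ {n : ℕ} (R : Set (Fin n → D)), (∀ b : B, ∀ x ∈ R, b • x ∈ R) →
      ((Finset.univ.image t : Finset A) : Set A).Definable L (pull f R) := by
    intro n R hR
    refine def_par hO (s := t) (by simp) ?_
    rintro g hg w ⟨x, h1, h2⟩
    choose b hb using fun j => (x j).2
    refine ⟨fun j => ⟨_, ⟨g, hB (ht hg)⟩ * b j, rfl⟩, fun j i => ?_, ?_⟩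
    · show g • w (j, i) = _
      rw [h1, ← hb]
      rfl
    · refine (iff_of_eq (congrArg (· ∈ R) (funext fun j => ?_))).1 (hR ⟨g, hB (ht hg)⟩ _ h2)
      rw [f1, ← m2, ← f1, Pi.smul_apply, show x j = ⟨_, b j, rfl⟩ from Subtype.ext (hb j).symm]
  have st : ∀ b c : B, b • m c = m c ↔ b.1 ∈ cj c.1 S := fun b c => by
    rw [m2, eq_comm, m1, mem_cj, mul_assoc]
    rfl
  obtain ⟨E, _, hE⟩ := h.2.2 (orbL D) D (Finset.univ.image t) ⟨d, Dom, f, fs,
    def_par hO (s := t) (by simp) (by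
      rintro g hg _ ⟨b, rfl⟩
      exact ⟨⟨g, hB (ht hg)⟩ * b, mul_smul _ _ _⟩),
    pl _ (fun b x hx => congrArg (b • ·) hx), fun n R => pl _ (by
      rintro b _ ⟨c, rfl⟩
      exact ⟨b * c, mul_smul _ _ _⟩)⟩ (orb_sm (fun J _ => by
      obtain ⟨κ, _, c, hc⟩ := orb2 hO (J := J × Fin d) t
      let c' : (J → B) → κ := fun b => c fun p => (b p.1).1 • t p.2
      refine ⟨range fun k => m ∘ invFun c' k, finite_range _, fun u => ?_⟩
      obtain ⟨b, rfl⟩ := m3.comp_left u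
      obtain ⟨g, g1, g2⟩ := hc _ _ (invFun_eq ⟨b, rfl⟩ : c' (invFun c' (c' b)) = c' b)
      refine ⟨_, ⟨c' b, rfl⟩, ⟨g, hB (ht g1)⟩, funext fun j => (m1 _ _).2 (ht (mem_stab ?_))⟩
      exact funext fun i => congrFun g2 (j, i)) (fun J _ u x y => by
      obtain ⟨u, rfl⟩ := m3.comp_left u
      obtain ⟨x, rfl⟩ := m3 x
      obtain ⟨y, rfl⟩ := m3 y
      let V := (stabilizer B (m ∘ u)).map B.subtype
      have v1 : V ≤ B := Subgroup.map_subtype_le _
      have v2 : ∀ b : B, b.1 ∈ V ↔ b • (m ∘ u) = m ∘ u := fun b =>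
        Subgroup.mem_map_iff_mem B.subtype_injective
      have key : ∀ x : B, Alg (cj x.1 S) V →
          {z | ∃ b : B, b • (m ∘ u) = m ∘ u ∧ b • m x = z}.Finite := by
        rintro x ⟨F, hF⟩
        refine ((F.finite_toSet.preimage B.subtype_injective.injOn).image (· • m x)).subset ?_
        rintro _ ⟨b, hb, rfl⟩
        obtain ⟨a, a1, a2, a3⟩ := hF b ((v2 b).2 hb)
        have := (st ((⟨a, v1 a2⟩ : B)⁻¹ * b) x).2 a3
        rw [mul_smul, inv_smul_eq_iff] at this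
        exact ⟨⟨a, v1 a2⟩, a1, this.symm⟩
      refine (sm V ⟨Option J × Fin d, inferInstance, fun p => p.1.elim 1 (fun j => (u j).1) • t p.2,
        fun g hg => ?_⟩ v1 x x.2 y y.2).imp (key x) (Or.imp (key y) ?_)
      · have g1 : g ∈ B := hB (ht (funext fun i => congrFun hg (none, i)))
        refine (v2 ⟨g, g1⟩).2 (funext fun j => (m1 _ _).2 (ht (mem_stab ?_)))
        exact funext fun i => congrFun hg (some j, i)
      · rintro ⟨v, hv, w, hw, e⟩
        exact ⟨⟨v, v1 hv⟩, (v2 _).1 hv, (m2 _ x).trans ((m1 _ y).2 (by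
          rw [e, Subgroup.coe_mul, inv_mul_cancel_left]; exact hw))⟩))
    (orb_prim (fun x y => by
      obtain ⟨x, rfl⟩ := m3 x
      obtain ⟨y, rfl⟩ := m3 y
      exact ⟨y * x⁻¹, by rw [m2, inv_mul_cancel_right]⟩) fun r hr => by
      let S' : Subgroup B :=
        { carrier := {b | r (m 1) (m b)}
          one_mem' := r.refl' _
          mul_mem' := fun {a b} ha hb => r.trans' ha (by simpa only [m2, mul_one] using hr a _ _ hb)
          inv_mem' := fun {a} ha => r.symm' (by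
            simpa only [m2, mul_one, inv_mul_cancel] using hr a⁻¹ _ _ ha) }
      have s1 : ∀ x y, r (m x) (m y) ↔ (x⁻¹ * y).1 ∈ S'.map B.subtype := fun x y => by
        refine Iff.trans ?_ (Subgroup.mem_map_iff_mem (x := x⁻¹ * y) B.subtype_injective).symm
        show _ ↔ r (m 1) (m (x⁻¹ * y))
        exact ⟨fun j => by simpa only [m2, inv_mul_cancel] using hr x⁻¹ _ _ j,
          fun j => by simpa only [m2, mul_one, mul_inv_cancel_left] using hr x _ _ j⟩
      refine (mx (S'.map B.subtype) (fun g hg => ?_) (Subgroup.map_subtype_le _)).imp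
        (fun e => ?_) (fun e => ?_)
      · have := (s1 1 ⟨g, hB hg⟩).1 ((m1 1 ⟨g, hB hg⟩).2 (by simpa using hg) ▸ r.refl' _)
        simpa only [inv_one, one_mul] using this
      · refine Setoid.ext (m3.forall₂.2 fun x y => ?_)
        rw [s1, e, Subgroup.coe_mul, Subgroup.coe_inv, ← m1]
        rfl
      · refine Setoid.ext (m3.forall₂.2 fun x y => ?_)
        rw [s1, e]
        exact iff_of_true (x⁻¹ * y).2 trivial)
  rintro g hg k hk ng nk ⟨F, hF⟩
  obtain ⟨x, hx⟩ := inf (insert g (insert k F))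
  obtain ⟨b, hb⟩ := orb_pure hE ![m 1, m ⟨g, hg⟩, m ⟨k, hk⟩] (Equiv.swap (m 1) (m x))
  have key : ∀ (g) (hg : g ∈ B), g ∉ S → g⁻¹ * x ∉ S →
      Equiv.swap (m 1) (m x) (m ⟨g, hg⟩) = m ⟨g, hg⟩ := fun g hg n1 n2 =>
    Equiv.swap_apply_of_ne_of_ne (fun e => n1 (by simpa using (m1 _ _).1 e.symm))
      fun e => n2 ((m1 _ _).1 e)
  have b0 : b • m 1 = m x := (congrFun hb 0).trans (Equiv.swap_apply_left _ _)
  obtain ⟨a, a1, a2, a3⟩ := hF b ⟨⟨b.2, (st b ⟨g, hg⟩).1 ((congrFun hb 1).trans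
    (key g hg ng (hx g (by simp) hg)))⟩, (st b ⟨k, hk⟩).1 ((congrFun hb 2).trans
    (key k hk nk (hx k (by simp) hk)))⟩
  rw [m2, mul_one, m1] at b0
  exact hx a (by simp [a1]) a2.1.1 (by simpa [mul_assoc] using S.mul_mem a3 b0)

/-- The setting given by a structure in Lachlan's class. -/
@[reducible] def mkCtx [L.IsRelational] [Countable A] (hO : Oligo L A) (hn : NP L A)
    (h : InD L A) : Ctx (AutG L A) where
  Op := OpA L A
  op_top := ⟨Empty, inferInstance, Empty.elim, le_top⟩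
  op_inf := OpA.inf
  op_mono := fun ⟨I, _, t, h⟩ k => ⟨I, inferInstance, t, h.trans k⟩
  op_cj := OpA.cj
  finDC := by
    rintro V W ⟨I, _, s, hs⟩ ⟨J, _, t, ht⟩
    obtain ⟨κ, _, c, hc⟩ := orb2 hO (J := J) s
    let c' : AutG L A → κ := fun g => c (g • t)
    refine ⟨(finite_range (invFun c')).toFinset, fun x => ⟨invFun c' (c' x), by simp, ?_⟩⟩
    obtain ⟨g, g1, g2⟩ := hc _ _ (invFun_eq ⟨x, rfl⟩ : c' (invFun c' (c' x)) = c' x)
    rw [← mul_smul] at g2
    exact ⟨g, hs g1, _, ht (mem_stab g2), by group⟩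
  cnt := by
    rintro V ⟨I, _, t, ht⟩
    exact ⟨range (invFun fun g : AutG L A => g • t), countable_range _, fun x =>
      ⟨_, ⟨x • t, rfl⟩, ht (mem_stab (invFun_eq (f := fun g : AutG L A => g • t) ⟨x, rfl⟩))⟩⟩
  noperf := by
    intro W hW 𝒮 h1 h2
    obtain ⟨n, t, ht⟩ := hW.fin
    rw [← image_eq_empty (f := image fun g : AutG L A => g • t)]
    refine hn n _ ?_ ?_
    · rintro _ ⟨Z, hZ, rfl⟩
      obtain ⟨-, V, ⟨I, _, s, hs⟩, k⟩ := h1 hZ
      refine def_par hO (s := s) (P := univ) (fun _ => trivial) ?_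
      rintro g hg _ ⟨x, hx, rfl⟩
      exact ⟨g * x, k g (hs hg) x hx, mul_smul _ _ _⟩
    · rintro _ ⟨Z, hZ, rfl⟩
      obtain ⟨k0, Y, hY, Y', hY', k1, k2, k3⟩ := h2 Z hZ
      refine ⟨k0.image _, _, ⟨Y, hY, rfl⟩, _, ⟨Y', hY', rfl⟩, image_mono k1, image_mono k2,
        disjoint_left.2 ?_⟩
      rintro _ ⟨x, hx, rfl⟩ ⟨y, hy, e⟩
      exact disjoint_left.1 k3 hx (by simpa using (h1 hY').1 y hy _ (ht (mem_stab e)))
  triv := triv_of hO h

theorem stable_of [L.IsRelational] [Countable A] (hO : Oligo L A) (hn : NP L A) (h : InD L A) :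
    IsStable L A := by
  let _ := mkCtx hO hn h
  intro m n φ
  by_contra! hc
  obtain ⟨κ, _, c, hc1⟩ := orb2 hO (J := Fin m) (Empty.elim : Empty → A)
  obtain ⟨κ', _, c', hc2⟩ := orb2 hO (J := Fin n) (Empty.elim : Empty → A)
  have key : ∀ M : ℕ, ∃ (k : κ × κ') (a : ℕ → Fin m → A) (b : ℕ → Fin n → A),
      (∀ i < M, (c (a i), c' (b i)) = k) ∧
        ∀ i < M, ∀ j < M, φ.Realize (Sum.elim (a i) (b j)) ↔ i ≤ j := by
    intro M
    obtain ⟨N, hN⟩ := ramsey_sm (κ × κ') 1 (M + 1)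
    obtain ⟨a, b, hab⟩ := hc N
    obtain ⟨e, he, k⟩ := hN fun r => (c (a (r 0)), c' (b (r 0)))
    refine ⟨_, fun i => a (e (Fin.ofNat _ i)), fun i => b (e (Fin.ofNat _ i)), fun i _ =>
      k (fun _ => Fin.ofNat _ i) (fun _ => 0) (Subsingleton.strictMono _)
        (Subsingleton.strictMono _), fun i hi j hj => ?_⟩
    rw [hab, he.le_iff_le, Fin.le_def, Fin.val_ofNat, Fin.val_ofNat, Nat.mod_eq_of_lt (by omega),
      Nat.mod_eq_of_lt (by omega)]
  choose k a b h1 h2 using key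
  obtain ⟨k0, hk⟩ := Finite.exists_infinite_fiber k
  replace hk := Set.infinite_coe_iff.1 hk
  obtain ⟨M0, m1, m2⟩ := hk.exists_gt 0
  have hS : (∅ : Set A).Definable L {w | φ.Realize w} := empty_definable_iff.2 ⟨φ, rfl⟩
  have inv : ∀ (g : AutG L A) (x : Fin m → A) (y : Fin n → A),
      φ.Realize (Sum.elim (g • x) (g • y)) ↔ φ.Realize (Sum.elim x y) := fun g x y => by
    refine Iff.trans (iff_of_eq (congrArg _ (funext ?_))) (def_inv g.2 hS (Sum.elim x y))
    rintro (i | i) <;> rfl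
  have op : ∀ {n : ℕ} (t : Fin n → A), Ctx.Op (stabilizer (AutG L A) t) := fun t =>
    ⟨_, inferInstance, t, le_rfl⟩
  refine nop (W := ⟨_, op (a M0 0)⟩)
    (Y := {g | ¬ φ.Realize (Sum.elim (g • a M0 0) (b M0 0))}) ⟨fun x hx w hw => ?_,
      _, op (b M0 0), fun v hv x hx => ?_⟩ fun M => ?_
  · rwa [mem_ofPred_eq, mul_smul, mem_stabilizer_iff.1 hw]
  · rwa [mem_ofPred_eq, mul_smul, ← mem_stabilizer_iff.1 hv, inv]
  · obtain ⟨M', n1, n2⟩ := hk.exists_gt M
    have e : ∀ i < M', (c (a M0 0), c' (b M0 0)) = (c (a M' i), c' (b M' i)) := fun i hi =>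
      ((h1 M0 0 m2).trans m1).trans ((h1 M' i hi).trans n1).symm
    choose! x x1 x2 using fun i hi => hc1 _ _ (congrArg Prod.fst (e i hi))
    choose! y y1 y2 using fun i hi => hc2 _ _ (congrArg Prod.snd (e i hi))
    refine ⟨x, y, fun i hi j hj => ?_⟩
    rw [mem_sm, mem_ofPred_eq, ← inv (y j), mul_smul, smul_inv_smul, x2 i (hi.trans n2),
      y2 j (hj.trans n2), h2 M' i (hi.trans n2) j (hj.trans n2), not_le]

theorem main_D [L.IsRelational] [Countable L.Symbols] [Countable A] (h : InD L A) :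
    IsStable L A ∧ ∃ ρ : GQ →* Equiv.Perm A, Nice ρ ∧ ∀ α, ρ α ∈ AutG L A := by
  cases finite_or_infinite A with
  | inl _ =>
    refine ⟨fun m n φ => ?_, 1, ⟨fun x => ⟨∅, fun _ _ => rfl⟩, A, inferInstance, id,
      fun _ _ e => ⟨1, e⟩⟩, fun _ => one_mem _⟩
    have := Fintype.ofFinite (Fin m → A)
    refine ⟨Fintype.card (Fin m → A) + 1, fun ⟨a, b, k⟩ => ?_⟩
    obtain ⟨i, j, h1, h2⟩ := Fintype.exists_ne_map_eq_of_card_lt a (by simp)
    exact h1 (le_antisymm ((k i j).1 (h2 ▸ (k j j).2 le_rfl)) ((k j i).1 (h2 ▸ (k i i).2 le_rfl)))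
  | inr _ =>
    have hn := h.2.1.np
    have hO := hn.oligo h.1
    let _ := mkCtx hO hn h
    have : OA (AutG L A) A :=
      ⟨fun a => ⟨Unit, inferInstance, fun _ => a, fun _ hg => congrFun hg ()⟩⟩
    obtain ⟨κ, _, c, hc⟩ := hO Unit
    obtain ⟨ρ, h1, h2⟩ := exists_nice (G := AutG L A) (A := A)
      ⟨range fun k => invFun c k (), finite_range _, fun a _ => by
        obtain ⟨σ, hσ, e⟩ := hc _ _ (invFun_eq ⟨fun _ => a, rfl⟩ :
          c (invFun c (c fun _ => a)) = c fun _ => a)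
        exact ⟨_, ⟨_, rfl⟩, ⟨σ, hσ⟩, congrFun e ()⟩⟩
    refine ⟨stable_of hO hn h, ρ, h1, fun α n R x => ?_⟩
    obtain ⟨g, hg⟩ := h2 α _ (finite_range x)
    exact (iff_of_eq (congrArg _ (funext fun i => hg _ ⟨i, rfl⟩))).trans (g.2 n R x)

end Pool.Agent.Lib.MP_905f9a_lc.D
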