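import Pool.Agent.Lib.MP_905f9a_lc.D.Fork

/-! Imaginaries up to interalgebraicity and the independence calculus on them. -/

namespace Pool.Agent.Lib.MP_905f9a_lc.D

open Set Function Ctx

variable {G : Type} [Group G] [Ctx G]

theorem al_inf_iff {A B C : O G} : Al (A ⊓ B) C ↔ Al A C ∧ Al B C :=
  ⟨fun h => ⟨h.mono inf_le_left le_rfl, h.mono inf_le_right le_rfl⟩, fun h => h.1.inf h.2⟩

variable (G) in
/-- Interalgebraicity. -/
def alSetoid : Setoid (O G) :=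
  ⟨fun A B => Al A B ∧ Al B A, fun A => ⟨Al.refl A, Al.refl A⟩, fun h => ⟨h.2, h.1⟩,
    fun h k => ⟨h.1.trans k.1, k.2.trans h.2⟩⟩

variable (G) in
/-- Finitely generated algebraically closed sets, ordered by reverse inclusion. -/
def Q : Type := Quotient (alSetoid G)

/-- The class of an open subgroup. -/
def cl (A : O G) : Q G := Quotient.mk (alSetoid G) A

theorem cl_eq {A B : O G} : cl A = cl B ↔ Al A B ∧ Al B A := Quotient.eq

theorem cl_surj (a : Q G) : ∃ A, cl A = a := Quotient.exists_rep a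

theorem al_inf_inf {A B A' B' : O G} (h : Al A A') (k : Al B B') : Al (A ⊓ B) (A' ⊓ B') :=
  (h.base inf_le_left).inf (k.base inf_le_right)

instance : SemilatticeInf (Q G) where
  le := Quotient.lift₂ (fun C A => Al A C) (fun _ _ _ _ h k => propext
    ⟨fun e => (k.2.trans e).trans h.1, fun e => (k.1.trans e).trans h.2⟩)
  le_refl a := by obtain ⟨A, rfl⟩ := cl_surj a; exact Al.refl A
  le_trans a b c := by
    obtain ⟨A, rfl⟩ := cl_surj a; obtain ⟨B, rfl⟩ := cl_surj b; obtain ⟨C, rfl⟩ := cl_surj c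
    exact fun h k => Al.trans k h
  le_antisymm a b := by
    obtain ⟨A, rfl⟩ := cl_surj a; obtain ⟨B, rfl⟩ := cl_surj b
    exact fun h k => cl_eq.2 ⟨k, h⟩
  inf := Quotient.map₂ (fun A B => A ⊓ B)
    (fun _ _ h _ _ k => ⟨al_inf_inf h.1 k.1, al_inf_inf h.2 k.2⟩)
  inf_le_left a b := by
    obtain ⟨A, rfl⟩ := cl_surj a; obtain ⟨B, rfl⟩ := cl_surj b
    exact Al.of_le inf_le_left
  inf_le_right a b := by
    obtain ⟨A, rfl⟩ := cl_surj a; obtain ⟨B, rfl⟩ := cl_surj b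
    exact Al.of_le inf_le_right
  le_inf a b c := by
    obtain ⟨A, rfl⟩ := cl_surj a; obtain ⟨B, rfl⟩ := cl_surj b; obtain ⟨C, rfl⟩ := cl_surj c
    exact fun h k => Al.inf h k

instance : OrderTop (Q G) where
  top := cl ⊤
  le_top a := by obtain ⟨A, rfl⟩ := cl_surj a; exact Al.of_le le_top

instance : MulAction G (Q G) where
  smul g := Quotient.map (fun A => g • A) (fun _ _ h => ⟨h.1.smul g, h.2.smul g⟩)
  one_smul a := by
    obtain ⟨A, rfl⟩ := cl_surj a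
    exact congrArg cl (one_smul G A)
  mul_smul g h a := by
    obtain ⟨A, rfl⟩ := cl_surj a
    exact congrArg cl (mul_smul g h A)

theorem cl_le {A C : O G} : cl C ≤ cl A ↔ Al A C := Iff.rfl
theorem cl_inf (A B : O G) : cl (A ⊓ B) = cl A ⊓ cl B := rfl
theorem cl_top : cl (⊤ : O G) = ⊤ := rfl
theorem cl_smul (g : G) (A : O G) : cl (g • A) = g • cl A := rfl
theorem cl_mono {A C : O G} (h : C ≤ A) : cl C ≤ cl A := Al.of_le h

theorem sm_inf (g : G) (a b : Q G) : g • (a ⊓ b) = g • a ⊓ g • b := by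
  obtain ⟨A, rfl⟩ := cl_surj a; obtain ⟨B, rfl⟩ := cl_surj b
  exact congrArg cl (smul_inf' g A B)

theorem sm_top (g : G) : g • (⊤ : Q G) = ⊤ := congrArg cl (smul_top' g)

theorem sm_le (g : G) {a b : Q G} : g • a ≤ g • b ↔ a ≤ b := by
  obtain ⟨A, rfl⟩ := cl_surj a; obtain ⟨B, rfl⟩ := cl_surj b
  exact al_smul_iff g

theorem fix_of_mem {g : G} {V : O G} (h : g ∈ V.1) : g • cl V = cl V := by
  rw [← cl_smul, smul_of_mem h]

theorem op_st (a : Q G) : Op (MulAction.stabilizer G a) := by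
  obtain ⟨A, rfl⟩ := cl_surj a
  exact op_mono A.2 (fun _ h => fix_of_mem h)

/-- The stabilizer of a closed set. -/
def St (a : Q G) : O G := ⟨MulAction.stabilizer G a, op_st a⟩

theorem mem_St {g : G} {a : Q G} : g ∈ (St a).1 ↔ g • a = a := Iff.rfl

theorem cl_St (a : Q G) : cl (St a) = a := by
  classical
  obtain ⟨A, rfl⟩ := cl_surj a
  refine cl_eq.2 ⟨Al.of_le (fun _ h => fix_of_mem h), ?_⟩
  obtain ⟨F, hF⟩ := Ctx.finDC A.2 A.2
  have : ∀ r : G, ∃ F' : Finset G, r ∈ (St (cl A)).1 → ∀ u ∈ A.1, ∃ f ∈ F', f ∈ A.1 ∧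
      f⁻¹ * u ∈ cj r A.1 := by
    intro r
    by_cases hr : r ∈ (St (cl A)).1
    · obtain ⟨F', h⟩ := (cl_eq.1 (show cl (r • A) = cl A from hr)).1
      exact ⟨F', fun _ => h⟩
    · exact ⟨∅, fun h => absurd h hr⟩
  choose F' hF' using this
  have l : A.1 ≤ (St (cl A)).1 := fun _ h => fix_of_mem h
  refine ⟨F.biUnion (fun r => (F' r).image (fun f => f * r)), fun u hu => ?_⟩
  obtain ⟨r, hr, v, hv, w, hw, rfl⟩ := hF u
  have hr' : r ∈ (St (cl A)).1 := by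
    simpa [mul_assoc] using (St (cl A)).1.mul_mem ((St (cl A)).1.mul_mem
      ((St (cl A)).1.inv_mem (l hv)) hu) ((St (cl A)).1.inv_mem (l hw))
  obtain ⟨f, f1, f2, f3⟩ := hF' r hr' v hv
  refine ⟨f * r, Finset.mem_biUnion.2 ⟨r, hr, Finset.mem_image_of_mem _ f1⟩,
    (St (cl A)).1.mul_mem (l f2) hr', ?_⟩
  simpa [mul_assoc] using A.1.mul_mem f3 hw

theorem St_smul (g : G) (a : Q G) : St (g • a) = g • St a := by
  refine Subtype.ext (Subgroup.ext fun x => ?_)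
  rw [mem_St, smul_val, mem_cj, mem_St, mul_smul, mul_smul, inv_smul_eq_iff]

theorem Ind.gen {A C B A' C' B' : O G} (h : Ind A C B) (h1 : Al C C') (h2 : Al C' (C ⊓ B))
    (h3 : Al B' (C ⊓ B)) (h4 : Al A' (C' ⊓ A)) : Ind A' C' B' :=
  ((h.rb h1 h2 h3).symm.rb (Al.refl _) (Al.of_le inf_le_left) h4).symm

/-- Independence of `a` from `b` over `c`. -/
def In (a c b : Q G) : Prop := Ind (St a) (St c) (St b)

theorem in_cl {A C B : O G} : In (cl A) (cl C) (cl B) ↔ Ind A C B := by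
  have e : ∀ A : O G, Al A (St (cl A)) ∧ Al (St (cl A)) A := fun A => cl_eq.1 (cl_St _).symm
  exact ⟨fun h => h.gen (e C).2 ((e C).1.base inf_le_left) ((e B).1.base inf_le_right)
    ((e A).1.base inf_le_right), fun h => h.gen (e C).1 ((e C).2.base inf_le_left)
    ((e B).2.base inf_le_right) ((e A).2.base inf_le_right)⟩

variable {a b c d a' b' c' x y z : Q G}

theorem In.symm (h : In a c b) : In b c a := Ind.symm h

theorem In.gen (h : In a c b) (h1 : c' ≤ c) (h2 : c ⊓ b ≤ c') (h3 : c ⊓ b ≤ b')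
    (h4 : c' ⊓ a ≤ a') : In a' c' b' := by
  rw [← cl_St a, ← cl_St b, ← cl_St c, ← cl_St a', ← cl_St b', ← cl_St c'] at *
  exact in_cl.2 ((in_cl.1 h).gen h1 h2 h3 h4)

theorem In.right (h : In a c b) (h3 : c ⊓ b ≤ b') : In a c b' :=
  h.gen le_rfl inf_le_left h3 inf_le_right

theorem In.left (h : In a c b) (h4 : c ⊓ a ≤ a') : In a' c b :=
  h.gen le_rfl inf_le_left inf_le_right h4

theorem In.trans (h : In a c b) (h' : In a (c ⊓ b) d) : In a c (b ⊓ d) := by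
  rw [← cl_St a, ← cl_St b, ← cl_St c, ← cl_St d] at *
  exact in_cl.2 ((in_cl.1 h).trans (in_cl.1 h'))

theorem In.of_le (h : c ≤ b) (a : Q G) : In a c b := by
  rw [← cl_St a, ← cl_St b, ← cl_St c] at *
  exact in_cl.2 (Ind.of_al h _)

theorem In.le (h : In a c b) (k : c ⊓ b ≤ a) : c ≤ a := by
  have := h.right k
  rw [← cl_St a, ← cl_St c]
  exact Ind.al_self this

theorem In.smul (h : In a c b) (g : G) : In (g • a) (g • c) (g • b) := by
  unfold In
  rw [St_smul, St_smul, St_smul]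
  exact Ind.smul h g

theorem extV (a b : Q G) (V : O G) : ∃ g ∈ V.1, In (g • a) (cl V) b := by
  obtain ⟨g, h1, h2⟩ := Ind.ext (St a) V (St b)
  exact ⟨g, h1, by rw [← cl_St a, ← cl_St b]; exact in_cl.2 h2⟩

theorem ext2 (a b c d : Q G) : ∃ g : G, g • c = c ∧ g • d = d ∧ In (g • a) (c ⊓ d) b := by
  obtain ⟨g, h1, h2⟩ := extV a b (St c ⊓ St d)
  rw [cl_inf, cl_St, cl_St] at h2
  exact ⟨g, h1.1, h1.2, h2⟩

theorem ext3 (a b c d e : Q G) :
    ∃ g : G, g • c = c ∧ g • d = d ∧ g • e = e ∧ In (g • a) (c ⊓ d ⊓ e) b := by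
  obtain ⟨g, h1, h2⟩ := extV a b (St c ⊓ St d ⊓ St e)
  rw [cl_inf, cl_inf, cl_St, cl_St, cl_St] at h2
  exact ⟨g, h1.1.1, h1.1.2, h1.2, h2⟩

theorem exists_cb' (z x : Q G) : ∃ d, x ≤ d ∧ In z d x ∧ ∀ y, In z y x → In z x y → y ≤ d := by
  obtain ⟨d, h1, h2, h3⟩ := exists_cb (St z) (St x)
  refine ⟨cl d, by rw [← cl_St x]; exact h1, by rw [← cl_St x, ← cl_St z]; exact in_cl.2 h2,
    fun y k1 k2 => ?_⟩
  rw [← cl_St y]
  exact h3 _ k1 k2

/-- Morley rank of `a` over `c`. -/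
noncomputable def rk (a c : Q G) : Ordinal.{0} := R (St a) (St c)

theorem rk_mono (a : Q G) (h : c' ≤ c) : rk a c' ≤ rk a c :=
  R_al _ (by rw [← cl_le, cl_St, cl_St]; exact h)

theorem in_iff : In a c b ↔ rk a c ≤ rk a (c ⊓ b) := by
  have e : R (St a) (St c ⊓ St b) = rk a (c ⊓ b) :=
    le_antisymm (R_al _ (by rw [← cl_le, cl_inf, cl_St, cl_St, cl_St]))
      (R_al _ (by rw [← cl_le, cl_inf, cl_St, cl_St, cl_St]))
  unfold In Ind
  rw [e]; rfl

theorem loc (b : Q G) (c : ℕ → Q G) (hc : ∀ n, c (n + 1) ≤ c n) :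
    ∃ k, In b (c k) (c (k + 1)) := by
  obtain ⟨_, ⟨k, rfl⟩, hk⟩ := (wellFounded_lt (α := Ordinal.{0})).has_min
    (range fun n => rk b (c n)) (range_nonempty _)
  refine ⟨k, in_iff.2 ?_⟩
  rw [inf_eq_right.2 (hc k)]
  exact not_lt.1 (hk _ (mem_range_self _))

/-- The meet of the first `k` terms. -/
def pre (f : ℕ → Q G) (k : ℕ) : Q G := (Finset.range k).inf f

theorem pre_zero (f : ℕ → Q G) : pre f 0 = ⊤ := by simp [pre]

theorem pre_succ (f : ℕ → Q G) (k : ℕ) : pre f (k + 1) = pre f k ⊓ f k := by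
  simp only [pre, Finset.range_add_one, Finset.inf_insert, inf_comm]

theorem pre_le (f : ℕ → Q G) {i k : ℕ} (h : i < k) : pre f k ≤ f i :=
  Finset.inf_le (Finset.mem_range.2 h)

theorem pre_anti (f : ℕ → Q G) {i k : ℕ} (h : i ≤ k) : pre f k ≤ pre f i :=
  Finset.inf_mono (Finset.range_mono h)

theorem loc' (b e : Q G) (f : ℕ → Q G) : ∃ k, In (f k) (e ⊓ pre f k) b := by
  obtain ⟨k, hk⟩ := loc b (fun n => e ⊓ pre f n) (fun n => by
    rw [pre_succ]; order)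
  refine ⟨k, (hk.right ?_).symm⟩
  rw [pre_succ]; order

theorem morleyV (a : Q G) (V : O G) : ∃ g : ℕ → G, (∀ i, g i ∈ V.1) ∧
    ∀ k, In (g k • a) (cl V) (pre (fun i => g i • a) k) := by
  choose F F1 F2 using fun b => extV a b V
  let s : ℕ → Q G := fun n => Nat.rec ⊤ (fun _ t => t ⊓ F t • a) n
  have e : ∀ k, pre (fun i => F (s i) • a) k = s k := by
    intro k
    induction k with
    | zero => exact pre_zero _
    | succ k ih => rw [pre_succ, ih]
  exact ⟨fun i => F (s i), fun i => F1 _, fun k => by rw [e]; exact F2 _⟩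

theorem morley2 (a c d : Q G) : ∃ g : ℕ → G, (∀ i, g i • c = c ∧ g i • d = d) ∧
    ∀ k, In (g k • a) (c ⊓ d) (pre (fun i => g i • a) k) := by
  obtain ⟨g, h1, h2⟩ := morleyV a (St c ⊓ St d)
  rw [cl_inf, cl_St, cl_St] at h2
  exact ⟨g, fun i => ⟨(h1 i).1, (h1 i).2⟩, h2⟩

theorem morley3 (a c d e : Q G) : ∃ g : ℕ → G, (∀ i, g i • c = c ∧ g i • d = d ∧ g i • e = e) ∧
    ∀ k, In (g k • a) (c ⊓ d ⊓ e) (pre (fun i => g i • a) k) := by
  obtain ⟨g, h1, h2⟩ := morleyV a (St c ⊓ St d ⊓ St e)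
  rw [cl_inf, cl_inf, cl_St, cl_St, cl_St] at h2
  exact ⟨g, fun i => ⟨(h1 i).1.1, (h1 i).1.2, (h1 i).2⟩, h2⟩

/-- Same strong type over `c`. -/
def Same (c x y : Q G) : Prop := ∀ V : O G, c ≤ cl V → ∃ g ∈ V.1, g • x = y

theorem Same.refl (c x : Q G) : Same c x x := fun _ _ => ⟨1, one_mem _, one_smul _ _⟩

theorem Same.symm (h : Same c x y) : Same c y x := fun V hV => by
  obtain ⟨g, h1, rfl⟩ := h V hV
  exact ⟨g⁻¹, V.1.inv_mem h1, inv_smul_smul _ _⟩

theorem Same.trans (h : Same c x y) (k : Same c y z) : Same c x z := fun V hV => by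
  obtain ⟨g, h1, rfl⟩ := h V hV
  obtain ⟨g', h2, rfl⟩ := k V hV
  exact ⟨g' * g, V.1.mul_mem h2 h1, mul_smul _ _ _⟩

theorem Same.mono (h : Same c x y) (k : c ≤ c') : Same c' x y := fun V hV => h V (k.trans hV)

theorem Same.smul (h : Same c x y) (g : G) : Same (g • c) (g • x) (g • y) := fun V hV => by
  obtain ⟨v, h1, rfl⟩ := h (g⁻¹ • V) (by rw [cl_smul, ← sm_le g, smul_inv_smul]; exact hV)
  refine ⟨g * v * g⁻¹, ?_, by simp [mul_smul]⟩
  have := conj_mem_cj g h1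
  rwa [smul_val, cj_cj_inv] at this

theorem exists_stat' (x c : Q G) : ∃ C : O G, cl C = c ∧ ∀ (B : O G) (g h : G), g ∈ C.1 → h ∈ C.1 →
    In (g • x) c (cl B) → In (h • x) c (cl B) → ∃ v ∈ (C ⊓ B).1, v • g • x = h • x := by
  obtain ⟨C, c1, c2, c3⟩ := exists_stat (St x) (St c)
  have e : cl C = c := by rw [← cl_St c]; exact cl_eq.2 ⟨c2, Al.of_le c1⟩
  refine ⟨C, e, fun B g h hg hh i1 i2 => ?_⟩
  rw [← e, ← cl_St x, ← cl_smul, in_cl] at i1 i2
  obtain ⟨v, hv, w, hw, rfl⟩ := c3 B g h hg hh i1 i2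
  exact ⟨v, hv, by rw [mul_smul, mul_smul, show w • x = x from hw]⟩

theorem Same.stat (h : Same c x y) (h1 : In x c b) (h2 : In y c b) : Same (c ⊓ b) x y := by
  intro V hV
  obtain ⟨C, e, hC⟩ := exists_stat' x c
  obtain ⟨g, hg, rfl⟩ := h C e.ge
  obtain ⟨v, hv, k⟩ := hC V 1 g (one_mem _) hg (by rw [one_smul]; exact h1.right hV) (h2.right hV)
  exact ⟨v, hv.2, by simpa using k⟩

theorem exists_same (x c : Q G) : ∃ C : O G, cl C = c ∧ ∀ g ∈ C.1, Same c x (g • x) := by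
  obtain ⟨C, e, hC⟩ := exists_stat' x c
  refine ⟨C, e, fun g hg V hV => ?_⟩
  obtain ⟨v, hv, k⟩ := hC V 1 g (one_mem _) hg (In.of_le hV _) (In.of_le hV _)
  exact ⟨v, hv.2, by simpa using k⟩

theorem Same.get2 (h : Same (c ⊓ d) x y) : ∃ g : G, g • c = c ∧ g • d = d ∧ g • x = y := by
  obtain ⟨g, h1, h2⟩ := h (St c ⊓ St d) (by rw [cl_inf, cl_St, cl_St])
  exact ⟨g, h1.1, h1.2, h2⟩

/-- Finitely many orbits of conjugates over a base. -/
theorem fin_conj (a c : Q G) : ∃ F : Finset G, ∀ g : G, ∃ f ∈ F, ∃ v : G, v • c = c ∧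
    g • a = v • f • a := by
  obtain ⟨F, hF⟩ := Ctx.finDC (St c).2 (St a).2
  refine ⟨F, fun g => ?_⟩
  obtain ⟨f, hf, v, hv, w, hw, rfl⟩ := hF g
  exact ⟨f, hf, v, hv, by rw [mul_smul, mul_smul, show w • a = a from hw]⟩

end Pool.Agent.Lib.MP_905f9a_lc.D
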