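import Pool.Agent.Lib.MP_905f9a_lc.D.Rank
import Pool.Agent.Lib.MP_905f9a_lc.Types

/-! The group-theoretic setting: open subgroups, definable sets, global types. -/

namespace Pool.Agent.Lib.MP_905f9a_lc.D

open Set Function Pointwise

/-- Sets of left cosets of `W` invariant under an open subgroup. -/
def Df {G : Type} [Group G] (Op : Subgroup G → Prop) (W : Subgroup G) : Set (Set G) :=
  {Z | (∀ x ∈ Z, ∀ w ∈ W, x * w ∈ Z) ∧ ∃ V, Op V ∧ ∀ v ∈ V, ∀ x ∈ Z, v * x ∈ Z}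

/-- A group with open subgroups: finitely many double cosets, no perfect family of definable
sets, and trivial strictly minimal sets. -/
class Ctx (G : Type) [Group G] where
  Op : Subgroup G → Prop
  op_top : Op ⊤
  op_inf : ∀ {V W}, Op V → Op W → Op (V ⊓ W)
  op_mono : ∀ {V W}, Op V → V ≤ W → Op W
  op_cj : ∀ {V} (g : G), Op V → Op (cj g V)
  finDC : ∀ {V W}, Op V → Op W → ∃ R : Finset G, ∀ x, ∃ r ∈ R, DC V W r x
  cnt : ∀ {V}, Op V → ∃ R : Set G, R.Countable ∧ ∀ x, ∃ r ∈ R, r⁻¹ * x ∈ V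
  noperf : ∀ {W}, Op W → ∀ 𝒮 ⊆ Df Op W, (∀ Z ∈ 𝒮, Z.Nonempty ∧
    ∃ Y ∈ 𝒮, ∃ Y' ∈ 𝒮, Y ⊆ Z ∧ Y' ⊆ Z ∧ Disjoint Y Y') → 𝒮 = ∅
  triv : ∀ {B S}, Op S → S ≤ B → ¬ Alg S B →
    (∀ V, Op V → V ≤ B → ∀ x ∈ B, ∀ y ∈ B, Alg (cj x S) V ∨ Alg (cj y S) V ∨ DC V S x y) →
    (∀ S', S ≤ S' → S' ≤ B → S' = S ∨ S' = B) →
    ∀ g ∈ B, ∀ h ∈ B, g ∉ S → h ∉ S → ¬ Alg S (B ⊓ cj g S ⊓ cj h S)

open Ctx

variable {G : Type} [Group G] [Ctx G]

variable (G) in
/-- Open subgroups, i.e. imaginary elements up to interdefinability. -/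
def O : Type := {V : Subgroup G // Op V}

instance : SemilatticeInf (O G) := Subtype.semilatticeInf (fun _ _ => op_inf)
instance : OrderTop (O G) := Subtype.orderTop op_top
instance : MulAction G (O G) where
  smul g V := ⟨cj g V.1, op_cj g V.2⟩
  one_smul V := Subtype.ext (cj_one V.1)
  mul_smul g h V := Subtype.ext (cj_mul g h V.1)

theorem smul_val (g : G) (V : O G) : (g • V).1 = cj g V.1 := rfl
theorem inf_val (V W : O G) : (V ⊓ W).1 = V.1 ⊓ W.1 := rfl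
theorem top_val : (⊤ : O G).1 = ⊤ := rfl
theorem le_val {V W : O G} : V ≤ W ↔ V.1 ≤ W.1 := Iff.rfl
theorem smul_inf' (g : G) (V W : O G) : g • (V ⊓ W) = g • V ⊓ g • W := Subtype.ext (cj_inf g _ _)
theorem smul_of_mem {g : G} {V : O G} (h : g ∈ V.1) : g • V = V := Subtype.ext (cj_of_mem h)
theorem smul_mono' (g : G) {V W : O G} (h : V ≤ W) : g • V ≤ g • W := cj_mono g h
theorem smul_top' (g : G) : g • (⊤ : O G) = ⊤ := smul_of_mem trivial

/-- The definable sets in the sort of `W`. -/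
abbrev DF (W : O G) : Set (Set G) := Df Op W.1

theorem alg0 (W : O G) : Alg0 (DF W) where
  inter := by
    rintro Y ⟨y1, V, hV, y2⟩ Z ⟨z1, V', hV', z2⟩
    exact ⟨fun x hx w hw => ⟨y1 x hx.1 w hw, z1 x hx.2 w hw⟩, V ⊓ V', op_inf hV hV',
      fun v hv x hx => ⟨y2 v hv.1 x hx.1, z2 v hv.2 x hx.2⟩⟩
  compl := by
    rintro Y ⟨y1, V, hV, y2⟩
    refine ⟨fun x hx w hw h => hx ?_, V, hV, fun v hv x hx h => hx ?_⟩
    · simpa using y1 _ h _ (W.1.inv_mem hw)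
    · simpa using y2 _ (V.inv_mem hv) _ h
  noperf := noperf W.2

/-- The double coset `C x W`. -/
def dc (C : O G) (x : G) (W : O G) : Set G := {y | DC C.1 W.1 x y}

theorem dc_df (C : O G) (x : G) (W : O G) : dc C x W ∈ DF W :=
  ⟨fun _ h _ hw => DC.trans h (DC.right hw _), C.1, C.2, fun _ hv _ h => DC.trans h (DC.left hv _)⟩

theorem self_mem_dc (C : O G) (x : G) (W : O G) : x ∈ dc C x W := DC.refl _ _ _

theorem dc_mono {C C' : O G} (h : C ≤ C') (x : G) (W : O G) : dc C x W ⊆ dc C' x W :=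
  fun _ hy => DC.mono hy h

theorem dc_eq {C W : O G} {x y : G} (h : y ∈ dc C x W) : dc C y W = dc C x W :=
  Set.ext fun _ => ⟨fun k => DC.trans h k, fun k => DC.trans (DC.symm h) k⟩

omit [Ctx G] in
theorem mem_sm {g x : G} {Y : Set G} : x ∈ g • Y ↔ g⁻¹ * x ∈ Y := mem_smul_set_iff_inv_smul_mem

theorem smul_dc (g : G) (C : O G) (x : G) (W : O G) : g • dc C x W = dc (g • C) (g * x) W := by
  ext y
  rw [mem_sm]
  constructor
  · intro h
    have := DC.conj h g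
    rw [mul_inv_cancel_left] at this
    exact this
  · intro h
    have := DC.conj h g⁻¹
    rw [smul_val, cj_inv_cj, inv_mul_cancel_left] at this
    exact this

theorem smul_dc_of_mem {g : G} {C : O G} (h : g ∈ C.1) (x : G) (W : O G) :
    g • dc C x W = dc C x W := by
  rw [smul_dc, smul_of_mem h]
  exact dc_eq (DC.left h x)

theorem df_map {W : O G} (h k : G) {Y : Set G} (hY : Y ∈ DF W) :
    ((Equiv.mulLeft h).trans (Equiv.mulRight k)) '' Y ∈ DF (k⁻¹ • W) := by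
  obtain ⟨y1, V, hV, y2⟩ := hY
  refine ⟨?_, cj h V, op_cj h hV, ?_⟩
  · rintro _ ⟨x, hx, rfl⟩ w hw
    exact ⟨x * (k⁻¹⁻¹ * w * k⁻¹), y1 x hx _ hw, by simp [mul_assoc]⟩
  · rintro v hv _ ⟨x, hx, rfl⟩
    exact ⟨h⁻¹ * v * h * x, y2 _ hv x hx, by simp [mul_assoc]⟩

theorem rho_map {W : O G} (h k : G) {Y : Set G} (hY : Y ∈ DF W) :
    rho (DF (k⁻¹ • W)) (((Equiv.mulLeft h).trans (Equiv.mulRight k)) '' Y) = rho (DF W) Y := by
  refine le_antisymm ?_ (rho_image_le (alg0 _) (alg0 _) _ (fun _ => df_map h k) hY)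
  have := rho_image_le (alg0 (k⁻¹ • W)) (alg0 (k⁻¹⁻¹ • k⁻¹ • W)) _
    (fun _ => df_map h⁻¹ k⁻¹) (df_map h k hY)
  rw [inv_smul_smul, image_image] at this
  simpa [mul_assoc] using this

omit [Ctx G] in
theorem smul_eq_map (g : G) (Y : Set G) :
    g • Y = ((Equiv.mulLeft g).trans (Equiv.mulRight 1)) '' Y := by
  ext x; simp [mem_sm]

theorem df_smul {W : O G} (g : G) {Y : Set G} (hY : Y ∈ DF W) : g • Y ∈ DF W := by
  have := df_map g 1 hY
  rwa [inv_one, one_smul, ← smul_eq_map] at this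

theorem rho_smul {W : O G} (g : G) {Y : Set G} (hY : Y ∈ DF W) :
    rho (DF W) (g • Y) = rho (DF W) Y := by
  have := rho_map g 1 hY
  rwa [inv_one, one_smul, ← smul_eq_map] at this

/-- The rank of `A` over `C`. -/
noncomputable def R (A C : O G) : Ordinal.{0} := rho (DF A) (dc C 1 A)

theorem R_smul_left (x : G) (A C : O G) : R (x • A) C = rho (DF A) (dc C x A) := by
  have := rho_map 1 x (dc_df C 1 (x • A))
  rw [inv_smul_smul] at this
  rw [R, ← this]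
  congr 1
  ext y
  constructor
  · rintro ⟨_, ⟨v, hv, w, hw, rfl⟩, rfl⟩
    exact ⟨v, hv, _, hw, by simp [mul_assoc]⟩
  · rintro ⟨v, hv, w, hw, rfl⟩
    exact ⟨_, ⟨v, hv, _, conj_mem_cj x hw, rfl⟩, by simp [mul_assoc]⟩

theorem R_smul (g : G) (A C : O G) : R (g • A) (g • C) = R A C := by
  rw [R_smul_left, R, ← rho_smul g (dc_df C 1 A), smul_dc, mul_one]

theorem R_mono (A : O G) {C C' : O G} (h : C ≤ C') : R A C ≤ R A C' :=
  rho_mono (alg0 A) (dc_df _ _ _) (dc_df _ _ _) (dc_mono h 1 A)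

omit [Ctx G] in
theorem compl_smul (g : G) (Y : Set G) : (g • Y)ᶜ = g • Yᶜ := by ext; simp [mem_sm]

variable {W : O G}

theorem Atom.smul {B : Set G} (hB : Atom (DF W) B) (g : G) : Atom (DF W) (g • B) := by
  refine ⟨df_smul g hB.1, hB.2.1.smul_set, fun Y hY h => ?_⟩
  have hY' := df_smul g⁻¹ hY
  have H := alg0 W
  rw [← smul_inv_smul g Y] at h ⊢
  rw [← smul_set_inter, rho_smul g hB.1, rho_smul g (H.inter _ hB.1 _ hY')] at h
  rw [compl_smul, ← smul_set_inter, rho_smul g hB.1,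
    rho_smul g (H.inter _ hB.1 _ (H.compl _ hY'))]
  exact hB.2.2 _ hY' h

omit [Ctx G] in
theorem mem_smt {g : G} {Y : Set G} {p : Set (Set G)} : Y ∈ g • p ↔ g⁻¹ • Y ∈ p :=
  mem_smul_set_iff_inv_smul_mem

theorem typ_smul {B : Set G} (hB : B ∈ DF W) (g : G) :
    typ (DF W) (g • B) = g • typ (DF W) B := by
  ext Y
  rw [mem_smt]
  have key : Y ∈ DF W → (rho (DF W) (g • B ∩ Y) = rho (DF W) (B ∩ g⁻¹ • Y)) := fun hY => by
    rw [← rho_smul g ((alg0 W).inter _ hB _ (df_smul g⁻¹ hY)), smul_set_inter, smul_inv_smul]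
  constructor
  · rintro ⟨h1, h2⟩
    exact ⟨df_smul _ h1, by rw [← key h1, ← rho_smul g hB]; exact h2⟩
  · rintro ⟨h1, h2⟩
    have h3 : Y ∈ DF W := by simpa using df_smul g h1
    exact ⟨h3, by rw [key h3, rho_smul g hB]; exact h2⟩

variable {Z Z' Y Y' : Set G} {p : Set (Set G)}

theorem Full.smul (hZ : Z ∈ DF W) (hp : p ∈ Full (DF W) Z) (g : G) :
    g • p ∈ Full (DF W) (g • Z) := by
  obtain ⟨B, b1, b2, b3, rfl⟩ := hp
  exact ⟨g • B, b1.smul g, smul_set_mono b2, by rw [rho_smul g hZ, rho_smul g b1.1]; exact b3,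
    (typ_smul b1.1 g).symm⟩

theorem Full.exists (hZ : Z ∈ DF W) (hne : Z.Nonempty) : ∃ p, p ∈ Full (DF W) Z := by
  obtain ⟨B, b1, b2, b3⟩ := exists_atom (alg0 W) hZ hne
  exact ⟨_, B, b1, b2, b3, rfl⟩

theorem Full.self_mem (hZ : Z ∈ DF W) (hp : p ∈ Full (DF W) Z) : Z ∈ p := by
  obtain ⟨B, b1, b2, -, rfl⟩ := hp
  exact b1.mono_mem (alg0 W) b1.self_mem hZ b2

theorem Full.rho_le (hp : p ∈ Full (DF W) Z) (hY : Y ∈ p) : rho (DF W) Z ≤ rho (DF W) Y := by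
  obtain ⟨B, b1, -, b3, rfl⟩ := hp
  exact b3.trans (b1.rho_le (alg0 W) hY)

theorem Full.up (hp : p ∈ Full (DF W) Z) (h : Z ⊆ Z') (hr : rho (DF W) Z' ≤ rho (DF W) Z) :
    p ∈ Full (DF W) Z' := by
  obtain ⟨B, b1, b2, b3, rfl⟩ := hp
  exact ⟨B, b1, b2.trans h, hr.trans b3, rfl⟩

theorem Full.of_mem (hp : p ∈ Full (DF W) Z) (h : Y ∈ p) (hr : rho (DF W) Y ≤ rho (DF W) Z) :
    p ∈ Full (DF W) Y := by
  obtain ⟨B, b1, -, b3, rfl⟩ := hp
  obtain ⟨k1, k2⟩ := b1.inter (alg0 W) h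
  exact ⟨_, k1, inter_subset_right, hr.trans (b3.trans h.2), k2.symm⟩

theorem Full.mono_mem (hp : p ∈ Full (DF W) Z) (h : Y ∈ p) (h' : Y' ∈ DF W) (hs : Y ⊆ Y') :
    Y' ∈ p := by
  obtain ⟨B, b1, -, -, rfl⟩ := hp
  exact b1.mono_mem (alg0 W) h h' hs

theorem Full.df (hp : p ∈ Full (DF W) Z) (h : Y ∈ p) : Y ∈ DF W := by
  obtain ⟨B, -, -, -, rfl⟩ := hp
  exact h.1

theorem Full.mem_or (hp : p ∈ Full (DF W) Z) (h : Y ∈ DF W) : Y ∈ p ∨ Yᶜ ∈ p := by
  obtain ⟨B, b1, -, -, rfl⟩ := hp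
  exact b1.mem_or (alg0 W) h

theorem Full.meet (hp : p ∈ Full (DF W) Z) (h : Y ∈ p) (h' : Y' ∈ p) : (Y ∩ Y').Nonempty := by
  obtain ⟨B, b1, -, -, rfl⟩ := hp
  exact b1.nonempty_mem (alg0 W) (b1.inter_mem (alg0 W) h h')

theorem Full.inter_mem (hp : p ∈ Full (DF W) Z) (h : Y ∈ p) (h' : Y' ∈ p) : Y ∩ Y' ∈ p := by
  obtain ⟨B, b1, -, -, rfl⟩ := hp
  exact b1.inter_mem (alg0 W) h h'

theorem Full.cover (hp : p ∈ Full (DF W) Z) {ι : Type} (s : Finset ι) (f : ι → Set G)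
    (hf : ∀ i, f i ∈ DF W) : ∀ Y ∈ p, (∀ x ∈ Y, ∃ i ∈ s, x ∈ f i) → ∃ i ∈ s, f i ∈ p := by
  classical
  induction s using Finset.induction_on with
  | empty =>
    intro Y hY h
    obtain ⟨x, hx, -⟩ := Full.meet hp hY hY
    simpa using h x hx
  | insert a s _ ih =>
    intro Y hY h
    rcases Full.mem_or hp (hf a) with k | k
    · exact ⟨a, Finset.mem_insert_self _ _, k⟩
    · obtain ⟨i, h1, h2⟩ := ih _ (Full.inter_mem hp hY k) (fun x hx => by
        obtain ⟨i, h1, h2⟩ := h x hx.1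
        rcases Finset.mem_insert.1 h1 with rfl | h1
        · exact absurd h2 hx.2
        · exact ⟨i, h1, h2⟩)
      exact ⟨i, Finset.mem_insert_of_mem h1, h2⟩

theorem Full.realize (hZ : Z ∈ DF W) (hp : p ∈ Full (DF W) Z) (V : O G) : ∃ x, dc V x W ∈ p := by
  obtain ⟨F, hF⟩ := Ctx.finDC V.2 W.2
  obtain ⟨x, -, h⟩ := Full.cover hp F (fun x => dc V x W) (fun _ => dc_df _ _ _) Z
    (Full.self_mem hZ hp) (fun x _ => hF x)
  exact ⟨x, h⟩

/-- A realization of `p` over `V` lies in every `V`-invariant member of `p`. -/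
theorem Full.mem_of_real (hp : p ∈ Full (DF W) Z) {V : O G} {x : G} (hx : dc V x W ∈ p)
    (hY : Y ∈ p) (hV : ∀ v ∈ V.1, ∀ y ∈ Y, v * y ∈ Y) : x ∈ Y := by
  obtain ⟨_, ⟨v, hv, w, hw, rfl⟩, h⟩ := Full.meet hp hx hY
  simpa [mul_assoc] using (Full.df hp hY).1 _ (hV _ (V.1.inv_mem hv) _ h) _ (W.1.inv_mem hw)

theorem Full.op_stab (hp : p ∈ Full (DF W) Z) : Op (MulAction.stabilizer G p) := by
  obtain ⟨B, b1, -, -, rfl⟩ := hp
  obtain ⟨-, V, hV, h⟩ := b1.1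
  refine op_mono hV (fun v hv => ?_)
  rw [MulAction.mem_stabilizer_iff, ← typ_smul b1.1]
  congr 1
  ext x
  rw [mem_sm]
  exact ⟨fun k => by simpa using h v hv _ k, h _ (V.inv_mem hv) x⟩

/-- The stabilizer of a global type. -/
def Full.st (hp : p ∈ Full (DF W) Z) : O G := ⟨MulAction.stabilizer G p, Full.op_stab hp⟩

/-- `A` is algebraic over `C`. -/
def Al (A C : O G) : Prop := Alg A.1 C.1

theorem Full.al_st {C : O G} {x : G} (hp : p ∈ Full (DF W) (dc C x W)) : Al (Full.st hp) C := by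
  classical
  have := (full_finite (alg0 W) (dc_df C x W)).to_subtype
  have m : ∀ u ∈ C.1, u • p ∈ Full (DF W) (dc C x W) := fun u hu => by
    have := Full.smul (dc_df C x W) hp u
    rwa [smul_dc_of_mem hu] at this
  refine Alg.of_cover (κ := Full (DF W) (dc C x W))
    (fun u => if hu : u ∈ C.1 then ⟨u • p, m u hu⟩ else ⟨p, hp⟩) (fun u hu u' hu' e => ?_)
  simp only [dif_pos hu, dif_pos hu', Subtype.mk.injEq] at e
  show (u⁻¹ * u') • p = p
  rw [mul_smul, ← e, inv_smul_smul]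

theorem Al.of_le {A C : O G} (h : C ≤ A) : Al A C := Alg.of_le h
theorem Al.refl (A : O G) : Al A A := Alg.of_le le_rfl
theorem Al.mono {A A' C C' : O G} (h : Al A C) (h1 : A ≤ A') (h2 : C' ≤ C) : Al A' C' :=
  Alg.mono h h1 h2
theorem Al.base {A C C' : O G} (h : Al A C) (h2 : C' ≤ C) : Al A C' := h.mono le_rfl h2
theorem Al.inf {A A' C : O G} (h : Al A C) (h' : Al A' C) : Al (A ⊓ A') C := Alg.inf h h'
theorem Al.trans {A B C : O G} (h : Al A B) (h' : Al B C) : Al A C := Alg.trans' h h'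
theorem Al.smul {A C : O G} (h : Al A C) (g : G) : Al (g • A) (g • C) := Alg.conj h g
theorem Al.smul_mem {A C : O G} (h : Al A C) {g : G} (hg : g ∈ C.1) : Al (g • A) C :=
  Alg.conj_mem h hg
theorem al_smul_iff {A C : O G} (g : G) : Al (g • A) (g • C) ↔ Al A C :=
  ⟨fun h => by simpa using h.smul g⁻¹, fun h => h.smul g⟩

theorem al_finset_inf {ι : Type} (s : Finset ι) (f : ι → O G) (C : O G) (h : ∀ i ∈ s, Al (f i) C) :
    Al (s.inf f) C := by
  classical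
  induction s using Finset.induction_on with
  | empty => exact Al.of_le le_top
  | insert a s _ ih =>
    rw [Finset.inf_insert]
    exact (h a (Finset.mem_insert_self _ _)).inf (ih fun i hi => h i (Finset.mem_insert_of_mem hi))

theorem exists_al_le {ι : Type} {s : Set ι} (hs : s.Finite) (C : O G) (P : ι → O G → Prop)
    (hP : ∀ i V V', P i V → V' ≤ V → P i V') (h : ∀ i ∈ s, ∃ V, Al V C ∧ P i V) :
    ∃ C', C' ≤ C ∧ Al C' C ∧ ∀ i ∈ s, P i C' := by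
  choose! f f1 f2 using h
  exact ⟨C ⊓ hs.toFinset.inf f, inf_le_left, (Al.refl C).inf (al_finset_inf _ _ _
    fun i hi => f1 i (hs.mem_toFinset.1 hi)), fun i hi => hP i _ _ (f2 i hi)
      (inf_le_right.trans (Finset.inf_le (hs.mem_toFinset.2 hi)))⟩

theorem exists_fix (C W : O G) (x : G) : ∃ C', C' ≤ C ∧ Al C' C ∧
    ∀ p ∈ Full (DF W) (dc C x W), ∀ g ∈ C'.1, g • p = p :=
  exists_al_le (full_finite (alg0 W) (dc_df C x W)) C (fun p V => ∀ g ∈ V.1, g • p = p)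
    (fun _ _ _ h k g hg => h g (k hg)) (fun _ hp => ⟨Full.st hp, Full.al_st hp, fun _ hg => hg⟩)

theorem rho_dc_al {C C' : O G} (h : Al C' C) (x : G) (W : O G) :
    rho (DF W) (dc C x W) ≤ rho (DF W) (dc C' x W) := by
  obtain ⟨p, hp⟩ := Full.exists (dc_df C x W) ⟨x, self_mem_dc _ _ _⟩
  obtain ⟨F, hF⟩ := h
  obtain ⟨f, -, k⟩ := Full.cover hp F (fun f => f • dc C' x W)
    (fun f => df_smul f (dc_df _ _ _)) _ (Full.self_mem (dc_df _ _ _) hp) (by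
      rintro _ ⟨v, hv, w, hw, rfl⟩
      obtain ⟨f, f1, -, f3⟩ := hF v hv
      exact ⟨f, f1, mem_sm.2 ⟨_, f3, w, hw, by group⟩⟩)
  rw [← rho_smul f (dc_df C' x W)]
  exact Full.rho_le hp k

theorem R_al (A : O G) {C C' : O G} (h : Al C' C) : R A C ≤ R A C' := rho_dc_al h 1 A

end Pool.Agent.Lib.MP_905f9a_lc.D
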