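import Pool.Agent.Lib.MP_905f9a_lc.Defs

namespace Pool.Agent.Lib.MP_905f9a_lc.D

open FirstOrder FirstOrder.Language

universe u v u' v'

variable (L : FirstOrder.Language.{u, v}) (A : Type) [L.Structure A]

/-- The theory of `A` is `ω`-categorical: its models of cardinality `ℵ₀` are isomorphic. -/
def IsOmegaCat : Prop := Cardinal.Categorical (Cardinal.aleph0.{0}) (L.completeTheory A)

/-- The theory of `A` is `ω`-stable: over every countable subset of a model there are only
countably many complete `n`-types. -/
def IsOmegaStable : Prop :=
  ∀ (M : Type) [L.Structure M], (A ≅[L] M) → ∀ B : Set M, B.Countable →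
    ∀ n : ℕ, Countable ((L[[B]].completeTheory M).CompleteType (Fin n))

/-- The theory of `A` is strongly minimal: its models are infinite, and in each of them every
subset definable with parameters is finite or cofinite. -/
def IsStronglyMinimal : Prop :=
  Infinite A ∧ ∀ (M : Type) [L.Structure M], (A ≅[L] M) →
    ∀ S : Set M, (Set.univ : Set M).Definable₁ L S → S.Finite ∨ Sᶜ.Finite

/-- The automorphism group of `A` is transitive and preserves no nontrivial equivalence
relation. -/
def IsPrimitive : Prop :=
  (∀ x y : A, ∃ σ : A ≃[L] A, σ x = y) ∧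
    ∀ r : Setoid A, (∀ (σ : A ≃[L] A) (x y : A), r x y → r (σ x) (σ y)) → r = ⊥ ∨ r = ⊤

/-- A bijection of the domains identifies the parameter-free definable relations. -/
def Bidef (L' : FirstOrder.Language.{u', v'}) (A' : Type) [L'.Structure A'] : Prop :=
  ∃ e : A ≃ A', ∀ (n : ℕ) (S : Set (Fin n → A)),
    (∅ : Set A).Definable L S ↔ (∅ : Set A').Definable L' ((fun x => e ∘ x) '' S)

/-- Lachlan's class: `A` is `ω`-categorical and `ω`-stable, and every strictly minimal structure
interpretable in `A` with parameters is bidefinable with a pure set. -/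
def InD : Prop :=
  IsOmegaCat L A ∧ IsOmegaStable L A ∧
    ∀ (L' : FirstOrder.Language.{0, 0}) [L'.IsRelational] [Countable L'.Symbols]
      (D : Type) [L'.Structure D] (P : Finset A), Interp L A (P : Set A) L' D →
      IsStronglyMinimal L' D → IsPrimitive L' D →
      ∃ (E : Type) (_ : FirstOrder.Language.empty.Structure E),
        Bidef L' D FirstOrder.Language.empty E

end Pool.Agent.Lib.MP_905f9a_lc.D
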