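import Pool.Agent.Lib.MP_905f9a_lc.D.OB

/-! Every type has finite rank. -/

namespace Pool.Agent.Lib.MP_905f9a_lc.D

open Set Function

variable {G : Type} [Group G] [Ctx G]

variable {a b c e f u v w x y z : Q G}

attribute [local irreducible] In U

theorem fin_step (h1 : U z (e ⊓ y) ≠ ⊤) (h2 : U y e ≠ ⊤) : U z e ≠ ⊤ :=
  ne_top_of_le_ne_top (by rw [lascar]; exact WithTop.add_ne_top.2 ⟨h1, h2⟩)
    (U_left (a := z ⊓ y) (by order))

theorem two_le (uu : U u f ≠ ⊤) (uv : U v f ≠ ⊤) (i : In u f v) :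
    U u f + U v f ≤ U u (f ⊓ v ⊓ w) + U v (f ⊓ u ⊓ w) + U w f := by
  obtain ⟨d, d1, d2, d3⟩ := ob uu w
  obtain ⟨d', e1, e2, e3⟩ := ob uv w
  have key : ∀ {u v d d' : Q G}, U u f ≠ ⊤ → U v f ≠ ⊤ → In u f v → f ⊓ u ≤ d → f ⊓ w ≤ d →
      In u (f ⊓ d) w → f ⊓ v ≤ d' → f ⊓ w ≤ d' → U u f ≤ U u (f ⊓ v ⊓ w) + U d f := by
    intro u v d d' uu uv i d1 d2 d3 e1 e2
    have j1 : In u (f ⊓ d ⊓ d') w := d3.gen (by order) (by order) (by order) (by order)
    have j2 : In u (f ⊓ d ⊓ d') v :=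
      ((i.gen (c' := f ⊓ d') (b' := v) (a' := u) (by order) (by order) (by order)
        (by order)).symm.gen (by order) (by order) (by order) (by order)).symm
    have j3 := tt (ne_top_of_le_ne_top uu (U_mono u (by order)))
      (ne_top_of_le_ne_top uv (U_mono v (by order))) j2 j1
    refine (U_left (a := u ⊓ d) (by order)).trans ?_
    rw [lascar]
    exact add_le_add ((d3.U_le (by order)).trans (j3.U_le (by order))) le_rfl
  have k1 := key uu uv i d1 d2 d3 e1 e2
  have k2 := key uv uu i.symm e1 e2 e3 d1 d2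
  have k3 : U d' f + U d f ≤ U w f := by
    refine le_trans ?_ (U_left (a' := d' ⊓ d) (by order))
    rw [lascar]
    exact add_le_add (((i.left d1).symm.left e1).U_le le_rfl) le_rfl
  refine (add_le_add k1 k2).trans ?_
  rw [add_add_add_comm, add_comm (U d f)]
  exact add_le_add le_rfl k3

/-- A stationary type of infinite rank all of whose forking extensions have finite rank. -/
structure Om (a : Q G) (C : O G) : Prop where
  top : U a (cl C) = ⊤
  fork : ∀ b, ¬ In a (cl C) b → U a (cl C ⊓ b) ≠ ⊤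
  stat : ∀ (B : O G) (g h : G), g ∈ C.1 → h ∈ C.1 → In (g • a) (cl C) (cl B) →
    In (h • a) (cl C) (cl B) → ∃ v ∈ (C ⊓ B).1, v • g • a = h • a

variable {C : O G}

/-- Realizations of the type. -/
def Rl (a : Q G) (C : O G) (x : Q G) : Prop := ∃ g ∈ C.1, g • a = x

theorem Rl.smul (h : Rl a C x) {g : G} (hg : g ∈ C.1) : Rl a C (g • x) := by
  obtain ⟨k, h1, rfl⟩ := h
  exact ⟨g * k, C.1.mul_mem hg h1, mul_smul _ _ _⟩

theorem Om.gen (H : Om a C) (h : Rl a C x) (he : e ≤ cl C) : U x e = ⊤ ↔ In x (cl C) e := by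
  obtain ⟨g, hg, rfl⟩ := h
  have fc := fix_of_mem hg
  constructor
  · intro k
    by_contra i
    refine H.fork (g⁻¹ • e) (fun j => i ?_) ?_
    · simpa only [fc, smul_inv_smul] using j.smul g
    · rw [← U_smul g, sm_inf, fc, smul_inv_smul, inf_eq_right.2 he, k]
  · intro i
    exact top_unique (((U_smul' fc a).trans H.top).ge.trans (i.U_le inf_le_right))

theorem Om.conj (H : Om a C) (hx : Rl a C x) (hy : Rl a C y) (B : O G) (i1 : In x (cl C) (cl B))
    (i2 : In y (cl C) (cl B)) : ∃ g ∈ C.1, g ∈ B.1 ∧ g • x = y := by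
  obtain ⟨g, hg, rfl⟩ := hx
  obtain ⟨h, hh, rfl⟩ := hy
  obtain ⟨v, hv, k⟩ := H.stat B g h hg hh i1 i2
  exact ⟨v, hv.1, hv.2, k⟩

theorem Om.tri (H : Om a C) (hx : Rl a C x) (hy : Rl a C y) (hz : Rl a C z) (he : e ≤ cl C)
    (h1 : U z (e ⊓ x) = ⊤) (h2 : U z (e ⊓ y) = ⊤) : U z (e ⊓ x ⊓ y) = ⊤ := by
  by_contra hc
  have h3 : U y (e ⊓ x) = ⊤ := by_contra fun k => fin_step hc k h1
  have h4 : U x (e ⊓ y) = ⊤ := by_contra fun k => fin_step (by rwa [inf_right_comm]) k h2
  have i1 := (H.gen hz (by order)).1 h1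
  have i2 := (H.gen hz (by order)).1 h2
  have i3 := (H.gen hy (by order)).1 h3
  have i4 := (H.gen hx (by order)).1 h4
  have nz : ¬ In z (cl C) (e ⊓ x ⊓ y) := fun k => hc ((H.gen hz (by order)).2 k)
  obtain ⟨n1, e1⟩ := ENat.ne_top_iff_exists.1 (show U x (e ⊓ y ⊓ z) ≠ ⊤ from fun k =>
    nz ((i2.trans (((H.gen hx (by order)).1 k).gen (b' := z) (a' := x) (by order) (by order)
      (by order) (by order)).symm).right (by order)))
  obtain ⟨n2, e2⟩ := ENat.ne_top_iff_exists.1 (show U y (e ⊓ x ⊓ z) ≠ ⊤ from fun k =>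
    nz (i1.trans (((H.gen hy (by order)).1 k).gen (b' := z) (a' := y) (by order) (by order)
      (by order) (by order)).symm))
  obtain ⟨N1, hN⟩ := U_bound a (e ⊓ x)
  have ix : In x (cl C) e := i4.right (by order)
  obtain ⟨b, b1, b2⟩ := exists_fork (n := N1 + n1 + n2 + 1) (a := x) (c := e)
    (((H.gen hx he).2 ix).ge.trans' le_top)
  have b3 : U x (e ⊓ b) ≠ ⊤ := fun k =>
    b1 (((H.gen hx (by order)).1 k).gen he (by order) (by order) (by order))
  have b4 : e ⊓ b ≤ e := inf_le_left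
  generalize e ⊓ b = f at b2 b3 b4
  have key : ∀ j : ℕ, ∃ u, Rl a C u ∧ In u (cl C) e ∧ U u f ≠ ⊤ ∧
      ((N1 + n1 + n2 + 1 + j : ℕ) : ℕ∞) ≤ U u f := by
    intro j
    induction j with
    | zero => exact ⟨x, hx, ix, b3, b2⟩
    | succ j ih =>
      obtain ⟨u, u1, u2, u3, u4⟩ := ih
      obtain ⟨g, hg, i⟩ := extV u u (C ⊓ St e ⊓ St f)
      simp only [cl_inf, cl_St] at i
      have v1 := u1.smul hg.1.1
      have v2 := u2.smul g
      have v3 : U (g • u) f = U u f := U_smul' hg.2 u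
      rw [fix_of_mem hg.1.1, show g • e = e from hg.1.2] at v2
      generalize g • u = v at *
      have i' : In v f u := i.gen (by order) (by order) (by order) (by order)
      obtain ⟨p, p1, p2, p3⟩ := H.conj hx u1 (St e) (by rwa [cl_St]) (by rwa [cl_St])
      have pe : p • e = e := p2
      by_cases hv : U v (e ⊓ u) = ⊤
      swap
      · obtain ⟨q, -, rfl⟩ := v1
        have e3 : U (q • a) (e ⊓ u) = U ((p⁻¹ * q) • a) (e ⊓ x) := by
          rw [← U_smul p ((p⁻¹ * q) • a), sm_inf, pe, p3, ← mul_smul, mul_inv_cancel_left]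
        have := u4.trans (v3.ge.trans ((i'.U_le (c' := e ⊓ u) (by order)).trans
          (e3.le.trans (hN _ (e3 ▸ hv)))))
        norm_cast at this
        omega
      have y1 := i3.smul p
      rw [sm_inf, fix_of_mem p1, pe, p3] at y1
      obtain ⟨q, q1, q2, q3⟩ := H.conj (hy.smul p1) v1 (St e ⊓ St u)
        (by rwa [cl_inf, cl_St, cl_St]) (by rw [cl_inf, cl_St, cl_St]; exact (H.gen v1 (by order)).1 hv)
      have m1 := C.1.mul_mem q1 p1
      have m2 : (q * p) • e = e := by rw [mul_smul, pe]; exact q2.1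
      have m3 : (q * p) • x = u := by rw [mul_smul, p3]; exact q2.2
      rw [← mul_smul] at q3
      generalize q * p = h at *
      have w1 := hz.smul m1
      have w2 := (i1.right (b' := e) (by order)).smul h
      have w3 := U_smul h z (e ⊓ x ⊓ y)
      have w4 := (U_smul h x (e ⊓ y ⊓ z)).trans e1.symm
      have w5 := (U_smul h y (e ⊓ x ⊓ z)).trans e2.symm
      simp only [sm_inf, m2, m3, q3, fix_of_mem m1] at w2 w3 w4 w5
      generalize h • z = w at *
      have v4 : U v f ≠ ⊤ := v3 ▸ u3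
      have w6 : U w f ≠ ⊤ := fin_step (fin_step (ne_top_of_le_ne_top (w3 ▸ hc)
        (U_mono w (by order))) (ne_top_of_le_ne_top v4 (U_mono v inf_le_left))) u3
      refine ⟨w, w1, w2, w6, ?_⟩
      have t := (two_le (w := w) u3 v4 i'.symm).trans (add_le_add (add_le_add
        ((U_mono u (by order)).trans w4.le) ((U_mono v (by order)).trans w5.le)) le_rfl)
      rw [v3] at t
      generalize U u f = r at *
      generalize U w f = s at *
      clear * - t u4 u3
      enat_to_nat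
      omega
  obtain ⟨N, hN⟩ := U_bound a f
  obtain ⟨_, ⟨g, -, rfl⟩, -, u3, u4⟩ := key N
  have := u4.trans (hN g u3)
  norm_cast at this
  omega

theorem Om.tri_pre (H : Om a C) (hz : Rl a C z) {s : ℕ → Q G} (hs : ∀ i, Rl a C (s i)) (k : ℕ) :
    ∀ e ≤ cl C, U z e = ⊤ → (∀ i < k, U z (e ⊓ s i) = ⊤) → U z (e ⊓ pre s k) = ⊤ := by
  induction k with
  | zero => intro e _ h _; rwa [pre_zero, inf_top_eq]
  | succ k ih =>
    intro e he _ h
    rw [pre_succ, inf_comm (pre s k), ← inf_assoc]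
    exact ih _ (by order) (h k (by omega)) fun i hi =>
      H.tri (hs k) (hs i) hz he (h k (by omega)) (h i (by omega))

theorem Om.false (H : Om a C) : False := by
  obtain ⟨N, hN⟩ := U_bound a (cl C ⊓ a)
  obtain ⟨b, b1, b2⟩ := exists_fork (n := N + 1) (H.top.ge.trans' le_top)
  obtain ⟨g, g1, g2⟩ := morleyV a (C ⊓ St b)
  simp only [cl_inf, cl_St] at g2
  obtain ⟨k, hk⟩ := loc' b (cl C) (fun i => g i • a)
  have fc : ∀ i, g i • cl C = cl C := fun i => fix_of_mem (g1 i).1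
  have u : U (g k • a) (cl C ⊓ b) = U a (cl C ⊓ b) :=
    U_smul' (by rw [sm_inf, fc, show g k • b = b from (g1 k).2]) a
  have r : ∀ i, Rl a C (g i • a) := fun i => ⟨_, (g1 i).1, rfl⟩
  refine H.fork b b1 (top_unique (le_trans ?_ ((hk.U_le (by order)).trans u.le)))
  refine (H.tri_pre (r k) r k _ le_rfl ((U_smul' (fc k) a).trans H.top) fun i hi => ?_).ge
  by_contra hc
  have e3 : U (g k • a) (cl C ⊓ g i • a) = U (((g i)⁻¹ * g k) • a) (cl C ⊓ a) := by
    rw [← U_smul (g i) (((g i)⁻¹ * g k) • a), sm_inf, fc, ← mul_smul, mul_inv_cancel_left]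
  have := b2.trans (u.ge.trans (((g2 k).U_le (c' := cl C ⊓ g i • a) (by
    have := pre_le (fun i => g i • a) hi
    order)).trans (e3.le.trans (hN _ (e3 ▸ hc)))))
  norm_cast at this
  omega

/-- Every rank is finite. -/
theorem U_fin (a c : Q G) : U a c ≠ ⊤ := by
  intro h
  obtain ⟨_, ⟨c, hc, rfl⟩, hm⟩ := (wellFounded_lt (α := Ordinal.{0})).has_min
    ((fun c => rk a c) '' {c | U a c = ⊤}) ⟨_, c, h, rfl⟩
  obtain ⟨C, rfl, hC⟩ := exists_stat' a c
  exact Om.false ⟨hc, fun b i k => i (in_iff.2 (not_lt.1 (hm _ ⟨_, k, rfl⟩))), hC⟩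

end Pool.Agent.Lib.MP_905f9a_lc.D
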