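import Pool.Agent.Lib.MP_905f9a_lc.D.Ctx

/-! Independence: symmetry, extension, stationarity, canonical bases. -/

namespace Pool.Agent.Lib.MP_905f9a_lc.D

open Set Function Pointwise Ctx

variable {G : Type} [Group G] [Ctx G]

theorem nop {W : O G} {Y : Set G} (hY : Y ∈ DF W)
    (h : ∀ M : ℕ, ∃ x y : ℕ → G, ∀ i < M, ∀ j < M, x i ∈ y j • Y ↔ j < i) : False := by
  let P : Set G → ℕ → Prop := fun Z M => ∃ x y : ℕ → G, (∀ i < M, x i ∈ Z) ∧
    ∀ i < M, ∀ j < M, x i ∈ y j • Y ↔ j < i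
  have Pm : ∀ Z M M', P Z M → M' ≤ M → P Z M' := by
    rintro Z M M' ⟨x, y, h1, h2⟩ hM
    exact ⟨x, y, fun i hi => h1 i (hi.trans_le hM),
      fun i hi j hj => h2 i (hi.trans_le hM) j (hj.trans_le hM)⟩
  have H := alg0 W
  have := H.noperf {Z | Z ∈ DF W ∧ ∀ M, P Z M} (fun _ h => h.1) (by
    rintro Z ⟨hZ, hP⟩
    refine ⟨by obtain ⟨x, -, h1, -⟩ := hP 1; exact ⟨x 0, h1 0 one_pos⟩, ?_⟩
    obtain ⟨-, V, hV, hZV⟩ := id hZ
    obtain ⟨-, B, hB, hYB⟩ := id hY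
    obtain ⟨F, hF⟩ := Ctx.finDC hV hB
    have key : ∀ M, ∃ r ∈ F, P (Z ∩ r • Y) M ∧ P (Z ∩ (r • Y)ᶜ) M := by
      intro M
      obtain ⟨x, y, h1, h2⟩ := hP (2 * M + 1)
      obtain ⟨r, hr, v, hv, b, hb, e⟩ := hF (y M)
      have e1 : ∀ z, v⁻¹ * z ∈ r • Y ↔ z ∈ y M • Y := by
        intro z
        rw [mem_sm, mem_sm, e]
        constructor
        · intro k
          simpa [mul_assoc] using hYB _ (B.inv_mem hb) _ k
        · intro k
          simpa [mul_assoc] using hYB _ hb _ k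
      have e2 : ∀ z g, v⁻¹ * z ∈ (v⁻¹ * g) • Y ↔ z ∈ g • Y := by
        intro z g
        rw [mem_sm, mem_sm]; simp [mul_assoc]
      refine ⟨r, hr, ⟨fun i => v⁻¹ * x (M + 1 + i), fun j => v⁻¹ * y (M + 1 + j),
        fun i hi => ⟨hZV _ (V.inv_mem hv) _ (h1 _ (by omega)), ?_⟩, fun i hi j hj => ?_⟩,
        ⟨fun i => v⁻¹ * x i, fun j => v⁻¹ * y j,
        fun i hi => ⟨hZV _ (V.inv_mem hv) _ (h1 _ (by omega)), ?_⟩, fun i hi j hj => ?_⟩⟩
      · rw [e1, h2 _ (by omega) _ (by omega)]; omega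
      · rw [e2, h2 _ (by omega) _ (by omega)]; omega
      · rw [mem_compl_iff, e1, h2 _ (by omega) _ (by omega)]; omega
      · rw [e2, h2 _ (by omega) _ (by omega)]
    have : ∃ r : G, ∀ M, P (Z ∩ r • Y) M ∧ P (Z ∩ (r • Y)ᶜ) M := by
      by_contra hc
      push Not at hc
      choose m hm using hc
      obtain ⟨r, hr, k1, k2⟩ := key (F.sup m)
      exact hm r (Pm _ _ _ k1 (Finset.le_sup hr)) (Pm _ _ _ k2 (Finset.le_sup hr))
    obtain ⟨r, hr⟩ := this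
    have d := df_smul r hY
    exact ⟨_, ⟨H.inter _ hZ _ d, fun M => (hr M).1⟩, _, ⟨H.inter _ hZ _ (H.compl _ d),
      fun M => (hr M).2⟩, inter_subset_left, inter_subset_left,
      disjoint_left.2 fun _ h1 h2 => h2.2 h1.2⟩)
  have h2 : (univ : Set G) ∈ {Z | Z ∈ DF W ∧ ∀ M, P Z M} := by
    refine ⟨⟨fun _ _ _ _ => trivial, ⊤, op_top, fun _ _ _ _ => trivial⟩, fun M => ?_⟩
    obtain ⟨x, y, k⟩ := h M
    exact ⟨x, y, fun _ _ => trivial, k⟩
  rw [this] at h2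
  exact h2

theorem smul_mul_mem (x : G) {w : G} {A : O G} (hw : w ∈ A.1) : (x * w) • A = x • A := by
  rw [mul_smul, smul_of_mem hw]

theorem comm {A B C : O G} {Z Z' : Set G} {p q : Set (Set G)} (hZ : Z ∈ DF A) (hZ' : Z' ∈ DF B)
    (hp : p ∈ Full (DF A) Z) (hq : q ∈ Full (DF B) Z') (h1 : ∀ g ∈ C.1, g • p = p)
    (h2 : ∀ g ∈ C.1, g • q = q) {a b : G} (ha : dc (C ⊓ b • B) a A ∈ p) (hb : dc C b B ∈ q) :
    dc (C ⊓ a • A) b B ∈ q := by
  by_contra hc
  choose X hX using Full.realize hZ hp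
  choose Y hY using Full.realize hZ' hq
  let V : ℕ → O G := fun n => Nat.rec C (fun _ V => V ⊓ X V • A ⊓ Y (V ⊓ X V • A) • B) n
  have Vs : ∀ n, V (n + 1) = V n ⊓ X (V n) • A ⊓ Y (V n ⊓ X (V n) • A) • B := fun n => rfl
  have Va : Antitone V := antitone_nat_of_succ_le fun n => by
    rw [Vs]; exact inf_le_left.trans inf_le_left
  have VC : ∀ n, V n ≤ C := fun n => Va (Nat.zero_le n)
  have : ∀ j, ∃ c ∈ C.1, ∃ w ∈ B.1, Y (V j ⊓ X (V j) • A) = c * b * w := fun j =>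
    Full.mem_of_real hq (hY _) hb (fun v hv y hy =>
      DC.trans hy (DC.left (VC j (inf_le_left (a := V j) hv)) y))
  choose c hc1 w hw e using this
  have eB : ∀ j, Y (V j ⊓ X (V j) • A) • B = c j • b • B := fun j => by
    rw [e, smul_mul_mem _ (hw j), mul_smul]
  refine nop (dc_df (C ⊓ b • B) a A) (fun M => ⟨fun i => X (V i), c, fun i _ j _ => ?_⟩)
  constructor
  · intro h
    by_contra hij
    obtain ⟨v, hv, w', hw', e'⟩ := mem_sm.1 h
    have cv : c j * v ∈ C.1 := C.1.mul_mem (hc1 j) hv.1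
    have eA : X (V i) • A = (c j * v) • a • A := by
      have : X (V i) = c j * v * a * w' := by rw [mul_assoc, mul_assoc, ← mul_assoc v, ← e']; simp
      rw [this, smul_mul_mem _ hw', mul_smul]
    have k1 : dc (C ⊓ X (V i) • A) (Y (V j ⊓ X (V j) • A)) B ∈ q := by
      refine Full.mono_mem hq (hY _) (dc_df _ _ _) (dc_mono (le_inf (inf_le_left.trans (VC j)) ?_)
        _ _)
      rcases (not_lt.1 hij).eq_or_lt with rfl | hlt
      · exact inf_le_right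
      · exact inf_le_left.trans ((Va (Nat.succ_le_of_lt hlt)).trans
          (inf_le_left.trans inf_le_right))
    have k2 : dc (C ⊓ X (V i) • A) (Y (V j ⊓ X (V j) • A)) B =
        (c j * v) • dc (C ⊓ a • A) b B := by
      rw [smul_dc, smul_inf', smul_of_mem cv, ← eA, e]
      refine dc_eq ⟨1, one_mem _, (b⁻¹ * v * b)⁻¹ * w j, B.1.mul_mem (B.1.inv_mem hv.2) (hw j), ?_⟩
      group
    rw [k2, ← h2 _ cv] at k1
    exact hc (by simpa [mem_smt] using k1)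
  · intro h
    refine Full.mem_of_real hp (hX _) (by rw [← h1 _ (hc1 j)]; exact smul_mem_smul_set ha) ?_
    intro v hv y hy
    rw [smul_dc, smul_inf', smul_of_mem (hc1 j), ← eB] at hy ⊢
    refine DC.trans hy (DC.left ?_ y)
    exact ⟨VC i hv, inf_le_right (a := V j ⊓ X (V j) • A) (Va (Nat.succ_le_of_lt h) hv)⟩

/-- `A` is independent from `B` over `C`. -/
def Ind (A C B : O G) : Prop := R A C ≤ R A (C ⊓ B)

variable {A B C D : O G}

theorem Ind.symm (h : Ind A C B) : Ind B C A := by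
  obtain ⟨C1, c1, c2, c3⟩ := exists_fix C A 1
  obtain ⟨C2, d1, d2, d3⟩ := exists_fix C B 1
  have a0 : Al (C1 ⊓ C2) C := c2.inf d2
  have l0 : C1 ⊓ C2 ≤ C := inf_le_left.trans c1
  obtain ⟨p, hp⟩ := Full.exists (dc_df (C1 ⊓ C2 ⊓ B) 1 A) ⟨1, self_mem_dc _ _ _⟩
  obtain ⟨q, hq⟩ := Full.exists (dc_df (C1 ⊓ C2) 1 B) ⟨1, self_mem_dc _ _ _⟩
  have hp' : p ∈ Full (DF A) (dc C 1 A) := Full.up hp (dc_mono (inf_le_left.trans l0) _ _)
    (le_trans h (R_al A ((a0.base inf_le_left).inf (Al.of_le inf_le_right))))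
  have hq' : q ∈ Full (DF B) (dc C 1 B) := Full.up hq (dc_mono l0 _ _) (R_al B a0)
  have := comm (C := C1 ⊓ C2) (a := 1) (b := 1) (dc_df _ _ _) (dc_df _ _ _) hp hq
    (fun g hg => c3 p hp' g hg.1) (fun g hg => d3 q hq' g hg.2)
    (by rw [one_smul]; exact Full.self_mem (dc_df _ _ _) hp) (Full.self_mem (dc_df _ _ _) hq)
  rw [one_smul] at this
  exact (Full.rho_le hq' this).trans (R_mono B (inf_le_inf_right _ l0))

theorem Ind.smul (h : Ind A C B) (g : G) : Ind (g • A) (g • C) (g • B) := by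
  unfold Ind at *
  rwa [← smul_inf', R_smul, R_smul]

theorem Ind.of_al (h : Al B C) (A : O G) : Ind A C B := R_al A ((Al.refl C).inf h)

theorem Ind.trans (h : Ind A C B) (h' : Ind A (C ⊓ B) D) : Ind A C (B ⊓ D) := by
  unfold Ind at *
  rw [← inf_assoc]; exact h.trans h'

/-- Monotonicity: from `A ⊥_C B` to `A ⊥_{C'} B'` when `C ⊆ C'` and `C', B'` are algebraic over
`C B`. -/
theorem Ind.rb {C' B' : O G} (h : Ind A C B) (h1 : Al C C') (h2 : Al C' (C ⊓ B))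
    (h3 : Al B' (C ⊓ B)) : Ind A C' B' :=
  (R_al A h1).trans (le_trans h (R_al A (h2.inf h3)))

theorem Ind.ext (A C B : O G) : ∃ g ∈ C.1, Ind (g • A) C B := by
  obtain ⟨p, hp⟩ := Full.exists (dc_df C 1 A) ⟨1, self_mem_dc _ _ _⟩
  obtain ⟨x, hx⟩ := Full.realize (dc_df _ _ _) hp (C ⊓ B)
  obtain ⟨c, hc, w, hw, e⟩ := Full.mem_of_real hp hx (Full.self_mem (dc_df _ _ _) hp)
    (fun v hv y hy => DC.trans hy (DC.left hv.1 y))
  refine ⟨c, hc, ?_⟩
  have e2 : c • A = x • A := by rw [e, smul_mul_mem _ hw, mul_one]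
  unfold Ind
  conv_lhs => rw [← smul_of_mem hc, R_smul]
  rw [e2, R_smul_left]
  exact Full.rho_le hp hx

theorem Ind.al_self (h : Ind A C A) : Al A C := by
  by_contra hc
  have : ∀ F : Finset G, ∃ u ∈ C.1, ∀ f ∈ F, f ∈ C.1 → f⁻¹ * u ∉ A.1 := by
    intro F
    by_contra k
    push Not at k
    exact hc ⟨F, k⟩
  classical
  choose u u1 u2 using this
  let s : ℕ → Finset G := fun n => Nat.rec ∅ (fun _ F => insert (u F) F) n
  have ss : ∀ n, s (n + 1) = insert (u (s n)) (s n) := fun n => rfl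
  have sm : Monotone s := monotone_nat_of_le_succ fun n => by
    rw [ss]; exact Finset.subset_insert _ _
  have eq : ∀ x : G, dc (x • A) x A = x • (A.1 : Set G) := by
    intro x; ext y
    rw [mem_sm]
    constructor
    · rintro ⟨v, hv, w, hw, rfl⟩
      simpa [mul_assoc] using A.1.mul_mem hv hw
    · intro k
      exact ⟨1, one_mem _, _, k, by simp⟩
  have r1 : ∀ x : G, rho (DF A) (dc (x • A) x A) = rho (DF A) (dc A 1 A) := fun x => by
    rw [← rho_smul x (dc_df A 1 A), smul_dc, mul_one]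
  refine no_family (alg0 A) (dc_df C 1 A) ⟨1, self_mem_dc _ _ _⟩
    (fun n => dc (u (s n) • A) (u (s n)) A) (fun n => ⟨dc_df _ _ _, ?_, ?_⟩) ?_
  · rw [eq]
    intro y hy
    exact ⟨_, u1 (s n), _, mem_sm.1 hy, by simp⟩
  · rw [r1]; exact le_trans h (R_mono A inf_le_right)
  · have : ∀ i j, i < j → Disjoint (dc (u (s i) • A) (u (s i)) A) (dc (u (s j) • A) (u (s j)) A) := by
      intro i j hij
      rw [eq, eq, disjoint_left]
      intro y h1 h2
      refine u2 (s j) (u (s i)) (sm (Nat.succ_le_of_lt hij) (Finset.mem_insert_self _ _)) (u1 _) ?_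
      simpa [mul_assoc] using A.1.mul_mem (mem_sm.1 h1) (A.1.inv_mem (mem_sm.1 h2))
    intro i j hij
    rcases lt_or_gt_of_ne hij with h | h
    · exact this i j h
    · exact (this j i h).symm

theorem sep {Z : Set G} (hZ : Z ∈ DF A) {p p' : Set (Set G)} (hp : p ∈ Full (DF A) Z)
    (hp' : p' ∈ Full (DF A) Z) (hne : p ≠ p') (h1 : Al (Full.st hp) C) (h2 : Al (Full.st hp') C) :
    ∃ V, Al V C ∧ ∀ x, dc V x A ∈ p → dc V x A ∉ p' := by
  obtain ⟨Y, y1, y2⟩ : ∃ Y ∈ p, Yᶜ ∈ p' := by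
    by_contra k
    push Not at k
    have k1 : p ⊆ p' := fun Y hY => (Full.mem_or hp' (Full.df hp hY)).resolve_right (k Y hY)
    refine hne (k1.antisymm fun Y hY => (Full.mem_or hp (Full.df hp' hY)).resolve_right fun k2 => ?_)
    simpa using Full.meet hp' hY (k1 k2)
  obtain ⟨-, E, hE, hY⟩ := Full.df hp y1
  let E' : O G := ⟨E, hE⟩
  obtain ⟨C1, c1, c2, c3⟩ := exists_fix C E' 1
  let V := C1 ⊓ (Full.st hp ⊓ Full.st hp')
  have a0 : Al V C := c2.inf (h1.inf h2)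
  refine ⟨V, a0, fun x k1 k2 => ?_⟩
  obtain ⟨q, hq⟩ := Full.exists (dc_df V 1 E') ⟨1, self_mem_dc _ _ _⟩
  have hq' : q ∈ Full (DF E') (dc C 1 E') := Full.up hq (dc_mono (inf_le_left.trans c1) _ _)
    (R_al E' a0)
  obtain ⟨e, he⟩ := Full.realize (dc_df _ _ _) hq (V ⊓ x • A)
  have f0 : ∀ g ∈ V.1, g • q = q := fun g hg => c3 q hq' g hg.1
  have m1 := comm (dc_df _ _ _) hZ hq hp f0 (fun g hg => hg.2.1) he k1
  have m2 := comm (dc_df _ _ _) hZ hq hp' f0 (fun g hg => hg.2.2) he k2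
  obtain ⟨c, hc, w, hw, ee⟩ := Full.mem_of_real hq he (Full.self_mem (dc_df _ _ _) hq)
    (fun v hv y hy => DC.trans hy (DC.left hv.1 y))
  have e2 : e • E' = c • E' := by rw [ee, smul_mul_mem _ hw, mul_one]
  rw [e2] at m1 m2
  have inv : ∀ v ∈ (V ⊓ c • E').1, ∀ y, y ∈ c • Y → v * y ∈ c • Y := by
    intro v hv y hy
    rw [mem_sm] at hy ⊢
    simpa [mul_assoc] using hY _ hv.2 _ hy
  have n1 : x ∈ c • Y := Full.mem_of_real hp m1
    (by rw [← show c • p = p from hc.2.1]; exact smul_mem_smul_set y1) inv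
  have n2 : x ∈ (c • Y)ᶜ := Full.mem_of_real hp' m2
    (by rw [← show c • p' = p' from hc.2.2, compl_smul]; exact smul_mem_smul_set y2)
    (fun v hv y hy k => hy (by simpa using inv _ ((V ⊓ c • E').1.inv_mem hv) _ k))
  exact n2 n1

/-- There is a unique global type of full rank over `C`. -/
def Uniq (A C : O G) : Prop := ∀ p ∈ Full (DF A) (dc C 1 A), ∀ p' ∈ Full (DF A) (dc C 1 A), p = p'

theorem exists_uniq (A C : O G) : ∃ C', C' ≤ C ∧ Al C' C ∧ Uniq A C' := by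
  have fin := full_finite (alg0 A) (dc_df C 1 A)
  obtain ⟨C', c1, c2, c3⟩ := exists_al_le (fin.prod fin) C
    (fun pp V => pp.1 ≠ pp.2 → ∀ V' ≤ V, dc V' 1 A ∈ pp.1 → dc V' 1 A ∉ pp.2)
    (fun pp V V' h k hne V'' k1 => h hne V'' (k1.trans k))
    (fun pp hpp => by
      by_cases hne : pp.1 = pp.2
      · exact ⟨C, Al.refl C, fun k => absurd hne k⟩
      · obtain ⟨V, v1, v2⟩ := sep (dc_df _ _ _) hpp.1 hpp.2 hne (Full.al_st hpp.1)
          (Full.al_st hpp.2)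
        exact ⟨V, v1, fun _ V' hV k1 k2 => v2 1
          (Full.mono_mem hpp.1 k1 (dc_df _ _ _) (dc_mono hV _ _))
          (Full.mono_mem hpp.2 k2 (dc_df _ _ _) (dc_mono hV _ _))⟩)
  refine ⟨C', c1, c2, fun p hp p' hp' => ?_⟩
  by_contra hne
  exact c3 (p, p') ⟨Full.up hp (dc_mono c1 _ _) (R_al A c2), Full.up hp' (dc_mono c1 _ _)
    (R_al A c2)⟩ hne C' le_rfl (Full.self_mem (dc_df _ _ _) hp) (Full.self_mem (dc_df _ _ _) hp')

/-- The type of `A` over `C` is stationary. -/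
def Stat (A C : O G) : Prop := ∀ (B : O G) (g h : G), g ∈ C.1 → h ∈ C.1 → Ind (g • A) C B →
  Ind (h • A) C B → DC (C ⊓ B).1 A.1 g h

theorem Uniq.stat (H : Uniq A C) : Stat A C := by
  intro B g h hg hh i1 i2
  have key : ∀ g ∈ C.1, Ind (g • A) C B → ∃ p ∈ Full (DF A) (dc C 1 A), dc (C ⊓ B) g A ∈ p := by
    intro g hg i
    obtain ⟨p, hp⟩ := Full.exists (dc_df (C ⊓ B) g A) ⟨g, self_mem_dc _ _ _⟩
    refine ⟨p, Full.up hp ((dc_mono inf_le_left _ _).trans (dc_eq ?_).subset) ?_,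
      Full.self_mem (dc_df _ _ _) hp⟩
    · exact ⟨g, hg, 1, one_mem _, by simp⟩
    · rw [← R_smul_left g A (C ⊓ B)]
      refine le_trans ?_ i
      conv_rhs => rw [← smul_of_mem hg, R_smul]
      exact le_rfl
  obtain ⟨p, hp, k1⟩ := key g hg i1
  obtain ⟨p', hp', k2⟩ := key h hh i2
  rw [← H p hp p' hp'] at k2
  obtain ⟨x, x1, x2⟩ := Full.meet hp k1 k2
  exact DC.trans x1 (DC.symm x2)

theorem exists_stat (A C : O G) : ∃ C', C' ≤ C ∧ Al C' C ∧ Stat A C' := by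
  obtain ⟨C', h1, h2, h3⟩ := exists_uniq A C
  exact ⟨C', h1, h2, h3.stat⟩

theorem inv_nf {E : O G} {p : Set (Set G)} (hp : p ∈ Full (DF A) (dc E 1 A))
    (h1 : ∀ g ∈ D.1, g • p = p) (h2 : dc D 1 A ∈ p) : R A D ≤ R A E := by
  obtain ⟨D', c1, c2, c3⟩ := exists_fix D E 1
  obtain ⟨q, hq⟩ := Full.exists (dc_df D' 1 E) ⟨1, self_mem_dc _ _ _⟩
  have hq' : q ∈ Full (DF E) (dc D 1 E) := Full.up hq (dc_mono c1 _ _) (R_al E c2)
  obtain ⟨a, ha⟩ := Full.realize (dc_df _ _ _) hp D'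
  obtain ⟨d, hd, w, hw, ea⟩ := Full.mem_of_real hp ha h2
    (fun v hv y hy => DC.trans hy (DC.left (c1 hv) y))
  obtain ⟨e, he⟩ := Full.realize (dc_df _ _ _) hq (D' ⊓ a • A)
  have m := comm (dc_df _ _ _) (dc_df _ _ _) hq hp (c3 q hq') (fun g hg => h1 g (c1 hg)) he ha
  obtain ⟨c, hc, w', hw', ee⟩ := Full.mem_of_real hq he (Full.self_mem (dc_df _ _ _) hq)
    (fun v hv y hy => DC.trans hy (DC.left hv.1 y))
  have e2 : e • E = c • E := by rw [ee, smul_mul_mem _ hw', mul_one]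
  have e3 : a • A = d • A := by rw [ea, smul_mul_mem _ hw, mul_one]
  have i1 : Ind (e • E) D' (a • A) := by
    unfold Ind
    rw [R_smul_left e E (D' ⊓ a • A), e2]
    conv_lhs => rw [← smul_of_mem hc, R_smul]
    exact Full.rho_le hq he
  have k : c • dc E 1 A ∈ p := by
    rw [← h1 c (c1 hc)]; exact smul_mem_smul_set (Full.self_mem (dc_df _ _ _) hp)
  rw [smul_dc] at k
  have n : a ∈ dc (c • E) (c * 1) A := Full.mem_of_real hp m k
    (fun v hv y hy => DC.trans hy (DC.left (by rw [← e2]; exact hv.2) y))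
  calc R A D = R (a • A) D := by
        rw [e3]; conv_rhs => rw [← smul_of_mem hd, R_smul]
    _ ≤ R (a • A) D' := R_al _ c2
    _ ≤ R (a • A) (D' ⊓ e • E) := i1.symm
    _ ≤ R (a • A) (c • E) := R_mono _ (by rw [e2]; exact inf_le_right)
    _ = R A E := by rw [R_smul_left, dc_eq n, ← R_smul_left, mul_one, R_smul]

theorem exists_cb (Z X : O G) : ∃ d, Al d X ∧ Ind Z d X ∧ ∀ Y, Ind Z Y X → Ind Z X Y → Al d Y := by
  obtain ⟨E, e1, e2, e3⟩ := exists_uniq Z X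
  obtain ⟨p, hp⟩ := Full.exists (dc_df E 1 Z) ⟨1, self_mem_dc _ _ _⟩
  have hp' : p ∈ Full (DF Z) (dc X 1 Z) := Full.up hp (dc_mono e1 _ _) (R_al Z e2)
  have l : E ≤ Full.st hp := fun g hg => by
    have := Full.smul (dc_df _ _ _) hp g
    rw [smul_dc_of_mem hg] at this
    exact e3 _ this _ hp
  refine ⟨Full.st hp, Full.al_st hp', ?_, fun Y i1 i2 => ?_⟩
  · exact (inv_nf (D := Full.st hp) hp (fun g hg => hg) (Full.mono_mem hp (Full.self_mem (dc_df _ _ _) hp)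
      (dc_df _ _ _) (dc_mono l _ _))).trans (R_mono Z (le_inf l e1))
  · have r1 : R Z (X ⊓ Y) ≤ R Z (E ⊓ Y) := R_al Z ((e2.base inf_le_left).inf (Al.of_le inf_le_right))
    obtain ⟨q, hq⟩ := Full.exists (dc_df (E ⊓ Y) 1 Z) ⟨1, self_mem_dc _ _ _⟩
    have hq' : q ∈ Full (DF Z) (dc E 1 Z) := Full.up hq (dc_mono inf_le_left _ _)
      ((R_mono Z e1).trans (le_trans i2 r1))
    rw [e3 q hq' p hp] at hq
    have : p ∈ Full (DF Z) (dc Y 1 Z) := Full.up hq (dc_mono inf_le_right _ _)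
      (le_trans i1 (by rw [inf_comm]; exact r1))
    exact Full.al_st this

end Pool.Agent.Lib.MP_905f9a_lc.D
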