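import Pool.Agent.Lib.MP_905f9a_lc.D.FinRank

/-! The distributive lattice of closed sets and its irreducible elements. -/

namespace Pool.Agent.Lib.MP_905f9a_lc.D

open Set Function Pointwise

variable {G : Type} [Group G] [Ctx G]

variable {a b c c' p q x y : Q G}

attribute [local irreducible] In U

/-- The rank over the empty set. -/
noncomputable def nr (a : Q G) : ℕ := (U a ⊤).toNat

theorem nr_eq (a : Q G) : (nr a : ℕ∞) = U a ⊤ := ENat.natCast_toNat (U_fin a ⊤)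

theorem nr_smul (g : G) (a : Q G) : nr (g • a) = nr a := by
  unfold nr
  rw [U_smul' (sm_top g)]

theorem nr_le (h : a ≤ b) : nr b ≤ nr a := by
  have := U_left (c := ⊤) (a := a) (a' := b) (by order)
  rw [← nr_eq, ← nr_eq] at this
  exact_mod_cast this

theorem nr_lt (h : a ≤ b) (k : ¬ b ≤ a) : nr b < nr a := by
  have := lascar a b ⊤
  rw [inf_eq_left.2 h, top_inf_eq, ← nr_eq, ← nr_eq] at this
  have h2 : U a b ≠ 0 := fun e => k (U_zero.1 e)
  generalize U a b = u at *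
  enat_to_nat
  omega

/-- `c` is the largest proper closed subset of `p`. -/
def Irr (p c : Q G) : Prop := p ≤ c ∧ ¬ c ≤ p ∧ ∀ c', p ≤ c' → ¬ c' ≤ p → c ≤ c'

theorem Irr.uniq (h : Irr p c) (k : Irr p c') : c = c' :=
  le_antisymm (h.2.2 _ k.1 k.2.1) (k.2.2 _ h.1 h.2.1)

theorem Irr.smul (h : Irr p c) (g : G) : Irr (g • p) (g • c) :=
  ⟨(sm_le g).2 h.1, fun k => h.2.1 ((sm_le g).1 k), fun c' k1 k2 => by
    rw [← smul_inv_smul g c', sm_le] at *
    exact h.2.2 _ k1 k2⟩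

theorem Irr.U_le (h : Irr p c) : U p c ≤ 1 := by
  by_contra k
  obtain ⟨b, b1, b2⟩ := exists_fork (n := 1) (a := p) (c := c)
    (Order.add_one_le_of_lt (not_le.1 k))
  obtain ⟨d, d1, d2, d3⟩ := ob (U_fin p c) b
  have := h.1
  by_cases hd : d ≤ p
  · rw [U_zero.2 (d2.trans hd)] at b2
    simp at b2
  · exact b1 (by rwa [inf_eq_left.2 (h.2.2 d (by order) hd)] at d3)

theorem Irr.prime (h : Irr p c) : InfPrime p := by
  refine ⟨fun k => h.2.1 (k h.1), fun x y k => ?_⟩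
  have key : ∀ x, ¬ x ≤ p → In p c x := fun x hx => by
    obtain ⟨d, d1, d2, d3⟩ := ob (U_fin p ⊤) x
    have := h.2.2 d (by order) (by order)
    have := h.1
    exact (d3.symm.gen (by order) (by order) (by order) (by order)).symm
  by_contra hc
  rw [not_or] at hc
  exact h.2.1 ((tt (U_fin _ _) (U_fin _ _) (key x hc.1) (key y hc.2)).le (by order))

theorem tricho (a : Q G) : ⊤ ≤ a ∨ (∃ c, Irr a c) ∨
    ∃ b b', a ≤ b ∧ ¬ b ≤ a ∧ a ≤ b' ∧ ¬ b' ≤ a ∧ b ⊓ b' ≤ a := by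
  by_cases h : ⊤ ≤ a
  · exact Or.inl h
  obtain ⟨b, ⟨b1, b2⟩, hb⟩ := (measure fun b : Q G => nr a - nr b).wf.has_min
    {b | a ≤ b ∧ ¬ b ≤ a} ⟨⊤, le_top, h⟩
  by_cases k : ∀ c', a ≤ c' → ¬ c' ≤ a → b ≤ c'
  · exact Or.inr (Or.inl ⟨b, b1, b2, k⟩)
  push Not at k
  obtain ⟨b', k1, k2, k3⟩ := k
  refine Or.inr (Or.inr ⟨b, b', b1, b2, k1, k2, by_contra fun k4 => hb _ ⟨le_inf b1 k1, k4⟩ ?_⟩)
  have l1 := nr_lt (inf_le_left (a := b) (b := b')) (by order)
  have l2 := nr_le (le_inf b1 k1)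
  show nr a - nr (b ⊓ b') < nr a - nr b
  omega

theorem le_of_irr (a : Q G) : (∀ p c, Irr p c → a ≤ p → x ≤ p) → x ≤ a := by
  induction a using (measure (nr (G := G))).wf.induction with
  | _ a ih =>
    intro h
    rcases tricho a with k | ⟨c, k⟩ | ⟨b, b', k1, k2, k3, k4, k5⟩
    · exact le_top.trans k
    · exact h a c k le_rfl
    · exact (le_inf (ih b (nr_lt k1 k2) fun p c i j => h p c i (k1.trans j))
        (ih b' (nr_lt k3 k4) fun p c i j => h p c i (k3.trans j))).trans k5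

theorem fin_irr (a : Q G) : {p | (∃ c, Irr p c) ∧ a ≤ p}.Finite := by
  induction a using (measure (nr (G := G))).wf.induction with
  | _ a ih =>
    rcases tricho a with k | ⟨c, k⟩ | ⟨b, b', k1, k2, k3, k4, k5⟩
    · refine finite_empty.subset ?_
      rintro p ⟨⟨c, h⟩, j⟩
      exact h.2.1 (le_top.trans (k.trans j))
    · refine ((ih c (nr_lt k.1 k.2.1)).insert a).subset ?_
      rintro p ⟨h, j⟩
      by_cases e : p ≤ a
      · exact Or.inl (le_antisymm e j)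
      · exact Or.inr ⟨h, k.2.2 p j e⟩
    · refine ((ih b (nr_lt k1 k2)).union (ih b' (nr_lt k3 k4))).subset ?_
      rintro p ⟨⟨c, h⟩, j⟩
      exact (h.prime.2 (k5.trans j)).imp (fun e => ⟨⟨c, h⟩, e⟩) (fun e => ⟨⟨c, h⟩, e⟩)

/-- The strictly minimal set containing an irreducible element. -/
def Dm (p : Q G) : Set (Q G) := {q | ∃ c, Irr p c ∧ Same c p q}

theorem Irr.mem_Dm (h : Irr p c) : q ∈ Dm p ↔ Same c p q :=
  ⟨fun ⟨_, k1, k2⟩ => h.uniq k1 ▸ k2, fun k => ⟨c, h, k⟩⟩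

theorem Irr.of_same (h : Irr p c) (k : Same c p q) : ∃ g : G, g • p = q ∧ Irr q c := by
  obtain ⟨g, g1, rfl⟩ := k (St c) (cl_St c).ge
  exact ⟨g, rfl, by simpa only [show g • c = c from g1] using h.smul g⟩

theorem Irr.Dm_eq (h : Irr p c) (k : Same c p q) : Dm q = Dm p := by
  obtain ⟨-, -, h'⟩ := h.of_same k
  ext r
  rw [h.mem_Dm, h'.mem_Dm]
  exact ⟨k.trans, k.symm.trans⟩

theorem Irr.same (h : Irr p c) (h' : Irr q c') (k : Dm p = Dm q) : Same c p q :=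
  h.mem_Dm.1 (k ▸ h'.mem_Dm.2 (Same.refl _ _))

theorem Dm_smul (g : G) (p : Q G) : Dm (g • p) = g • Dm p := by
  ext q
  rw [mem_smul_set_iff_inv_smul_mem]
  exact ⟨fun ⟨c, h, k⟩ => ⟨_, by simpa using h.smul g⁻¹, by simpa using k.smul g⁻¹⟩,
    fun ⟨c, h, k⟩ => ⟨_, h.smul g, by simpa using k.smul g⟩⟩

theorem Irr.infinite (h : Irr p c) : (Dm p).Infinite := by
  classical
  intro hf
  have := hf.to_subtype
  obtain ⟨C, rfl, hC⟩ := exists_same p c
  refine h.2.1 ?_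
  rw [← cl_St p]
  refine Alg.of_cover (κ := Dm p) (fun u => if hu : u ∈ C.1 then ⟨u • p, h.mem_Dm.2 (hC u hu)⟩
    else ⟨p, h.mem_Dm.2 (Same.refl _ _)⟩) (fun u hu u' hu' e => ?_)
  simp only [dif_pos hu, dif_pos hu', Subtype.mk.injEq] at e
  show (u⁻¹ * u') • p = p
  rw [mul_smul, ← e, inv_smul_smul]

/-- Non-algebraic elements of a strictly minimal set are conjugate. -/
theorem Irr.hom (h : Irr p c) (k : Same c p q) (V : O G) (h1 : ¬ cl V ≤ p) (h2 : ¬ cl V ≤ q) :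
    ∃ g ∈ V.1, g • p = q := by
  obtain ⟨-, -, h'⟩ := h.of_same k
  have key : ∀ {p}, Irr p c → ¬ cl V ≤ p → In p c (cl V) := fun h h1 =>
    (in_or_le h.U_le _).resolve_right fun e => (h.prime.2 e).elim h.2.1 h1
  exact k.stat (key h h1) (key h' h2) V inf_le_right

end Pool.Agent.Lib.MP_905f9a_lc.D
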