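import Pool.Agent.Lib.MP_905f9a_lc.D.Triv

/-! One-basedness in finite rank, and finiteness of rank. -/

namespace Pool.Agent.Lib.MP_905f9a_lc.D

open Set Function

variable {G : Type} [Group G] [Ctx G]

variable {a b c e x y z : Q G}

attribute [local irreducible] In U

/-- `x` is algebraic over `e` and the canonical base of `z` over `e x`. -/
def Ph (e x z : Q G) : Prop := ∀ y ≤ e, In z y (e ⊓ x) → In z (e ⊓ x) y → y ≤ x

theorem Ph.smul (h : Ph e x z) {g : G} (hg : g • e = e) : Ph e (g • x) (g • z) := by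
  intro y hy i1 i2
  have hg' : g⁻¹ • e = e := inv_smul_eq_iff.2 hg.symm
  have j1 := i1.smul g⁻¹
  have j2 := i2.smul g⁻¹
  have j3 := (sm_le g⁻¹).2 hy
  simp only [sm_inf, inv_smul_smul, hg'] at j1 j2 j3
  rw [← sm_le g⁻¹, inv_smul_smul]
  exact h _ j3 j1 j2

/-- To prove `Ph` one may assume independence from a further element. -/
theorem Ph.of_in (b : Q G)
    (h : ∀ y ≤ e, In z y (e ⊓ x) → In z (e ⊓ x) y → In y (e ⊓ x ⊓ z) b → y ≤ x) : Ph e x z := by
  intro y hy i1 i2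
  obtain ⟨g, g1, g2, g3, i⟩ := ext3 y b e x z
  have j1 := i1.smul g
  have j2 := i2.smul g
  have j3 := (sm_le g).2 hy
  simp only [sm_inf, g1, g2, g3] at j1 j2 j3
  rw [← sm_le g, g2]
  exact h _ j3 j1 j2 i

theorem Ph.seq (h : Ph e x z) {g : ℕ → G} (h1 : ∀ i, g i • e = e ∧ g i • x = x)
    (h2 : ∀ k, In (g k • z) (e ⊓ x) (pre (fun i => g i • z) k)) :
    ∃ k, e ⊓ pre (fun i => g i • z) k ≤ x := by
  obtain ⟨k, hk⟩ := loc' x e (fun i => g i • z)
  have := h.smul (h1 k).1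
  rw [(h1 k).2] at this
  exact ⟨k, this _ inf_le_left (hk.right (by order)) ((h2 k).right (by order))⟩

theorem Ph.fin (h : Ph e x z) (u : U z e ≠ ⊤) : U x e ≠ ⊤ := by
  obtain ⟨g, g1, g2⟩ := morley2 z e x
  obtain ⟨k, hk⟩ := h.seq g1 g2
  exact ne_top_of_le_ne_top (U_pre_fin (fun i => by rwa [U_smul' (g1 i).1]) k) (U_left hk)

theorem exists_ph (z e b : Q G) : ∃ d, e ⊓ b ≤ d ∧ In z (e ⊓ d) b ∧ Ph e d z := by
  obtain ⟨d, d1, d2, d3⟩ := exists_cb' z (e ⊓ b)
  have d4 : In z (e ⊓ d) b := d2.gen (by order) (by order) (by order) (by order)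
  refine ⟨d, d1, d4, Ph.of_in b fun y hy i1 i2 i3 => ?_⟩
  have j1 : In b (e ⊓ d) (z ⊓ y) := d4.symm.trans i3.symm
  have j2 : In z (e ⊓ d ⊓ y) b := (j1.gen (by order) (by order) (by order) (by order)).symm
  have j3 : In z (e ⊓ d) (y ⊓ b) := i2.trans j2
  exact d3 y ((i1.trans (j2.gen (b' := b) (by order) (by order) (by order) (by order))).right
    (by order)) (j3.gen (by order) (by order) (by order) (by order))

theorem Ph.trans (h1 : Ph e x y) (h2 : Ph e y z) (i : In z (e ⊓ y) x) (ux : U x e ≠ ⊤)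
    (uz : U z e ≠ ⊤) : Ph e x z := by
  obtain ⟨d, d1, d2, d3⟩ := exists_cb' z (e ⊓ x)
  intro w hw i1 i2
  refine (le_inf hw (d3 w i1 i2)).trans ?_
  obtain ⟨g, g1, g2⟩ := morleyV z (St e ⊓ St x ⊓ St y ⊓ St d)
  simp only [cl_inf, cl_St] at g2
  have fe : ∀ k, g k • e = e := fun k => (g1 k).1.1.1
  have fx : ∀ k, g k • x = x := fun k => (g1 k).1.1.2
  have fy : ∀ k, g k • y = y := fun k => (g1 k).1.2
  have fd : ∀ k, g k • d = d := fun k => (g1 k).2
  obtain ⟨k, hk⟩ := h2.seq (fun k => ⟨fe k, fy k⟩) (fun k => by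
    have := i.smul (g k)
    rw [sm_inf, fe, fy, fx] at this
    exact (this.trans ((g2 k).gen (by order) (by order) (by order) (by order))).right (by order))
  have t : In x (e ⊓ d) (pre (fun i => g i • z) k) := tt_pre
    (ne_top_of_le_ne_top ux (U_mono x inf_le_left))
    (fun j => ne_top_of_le_ne_top (by rwa [U_smul' (fe j)]) (U_mono _ inf_le_left)) (fun j => by
      have := d2.smul (g j)
      rw [sm_inf, fe, fx, fd] at this
      exact (this.gen (by order) (by order) (by order) (by order)).symm) k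
  exact h1 _ inf_le_left ((t.right (by order)).symm.right (by order)) (In.of_le (by order) _)

theorem Ph.mv (h2 : Ph e y x) (h3 : Ph e x a) (uy : U y e ≠ ⊤) (ua : U a e ≠ ⊤) :
    ∃ g : G, g • e = e ∧ g • x = x ∧ Ph e (g • y) a ∧ In a (e ⊓ x) (g • y) := by
  obtain ⟨g, g1, g2, i⟩ := ext2 y a e x
  have := h2.smul g1
  rw [g2] at this
  exact ⟨g, g1, g2, this.trans h3 i.symm (by rwa [U_smul' g1]) ua, i.symm⟩

theorem Ph.le_symm (h1 : Ph e x a) (h2 : Ph e a x) (ua : U a e ≠ ⊤) : e ⊓ a ≤ x := by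
  by_contra hc
  have key : ∀ n : ℕ, ∃ x y, Ph e x y ∧ Ph e y x ∧ ¬ e ⊓ y ≤ x ∧ Ph e x a ∧ U y e ≠ ⊤ ∧
      (n : ℕ∞) ≤ U a (e ⊓ x) := by
    intro n
    induction n with
    | zero => exact ⟨x, a, h1, h2, hc, h1, ua, zero_le⟩
    | succ n ih =>
      obtain ⟨x, y, k1, k2, k3, k4, k5, k6⟩ := ih
      obtain ⟨g, g1, g2, p1, i1⟩ := k2.mv k4 k5 ua
      have k1' := k1.smul g1
      have k2' := k2.smul g1
      have k3' : ¬ e ⊓ g • y ≤ x := by rwa [← g1, ← g2, ← sm_inf, sm_le]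
      have k5' : U (g • y) e ≠ ⊤ := by rwa [U_smul' g1]
      rw [g2] at k1' k2'
      generalize g • y = y at *
      have r : ((n + 1 : ℕ) : ℕ∞) ≤ U a (e ⊓ y) := by
        refine le_trans ?_ (U_fork (b := x) fun j => k3' (k4 _ inf_le_left (j.right (by order))
          (i1.right (by order))))
        rw [Nat.cast_succ]
        exact add_le_add (k6.trans (i1.U_le (by order))) le_rfl
      obtain ⟨h, h1, h2, p2, i2⟩ := k1'.mv p1 (k4.fin ua) ua
      refine ⟨h • x, y, ?_, ?_, ?_, p2, k5', r.trans (i2.U_le (by order))⟩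
      · simpa only [h2] using k1'.smul h1
      · simpa only [h2] using k2'.smul h1
      · rwa [← h1, ← h2, ← sm_inf, sm_le]
  obtain ⟨n, hn⟩ := ENat.ne_top_iff_exists.1 ua
  obtain ⟨x, -, -, -, -, -, -, k⟩ := key (n + 1)
  have := k.trans ((U_mono a inf_le_left).trans hn.ge)
  norm_cast at this
  omega

theorem Ph.le (h : Ph e x a) (ua : U a e ≠ ⊤) : e ⊓ a ≤ x := by
  obtain ⟨d, d1, d2, d3⟩ := exists_ph x e a
  have k : Ph e x d := Ph.of_in a fun y hy i1 i2 i3 => by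
    have j1 : In a (e ⊓ d) (x ⊓ y) := d2.symm.trans (i3.symm.gen (by order) (by order)
      (by order) (by order))
    have j2 : In x (y ⊓ d) a := (j1.gen (by order) (by order) (by order) (by order)).symm
    have j3 : In y (e ⊓ x) (d ⊓ a) := i2.symm.trans i3
    exact h y hy (((i1.symm.left (a' := x) (by order)).trans j2).symm.gen (by order) (by order)
      (by order) (by order)) ((j3.right (by order)).symm)
  have := k.le_symm d3 (d3.fin (h.fin ua))
  order

/-- One-basedness in finite rank. -/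
theorem ob (ua : U a e ≠ ⊤) (b : Q G) : ∃ d, e ⊓ a ≤ d ∧ e ⊓ b ≤ d ∧ In a (e ⊓ d) b := by
  obtain ⟨d, d1, d2, d3⟩ := exists_ph a e b
  exact ⟨d, d3.le ua, d1, d2⟩

end Pool.Agent.Lib.MP_905f9a_lc.D
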