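import Pool.Agent.Lib.MP_905f9a_lc.D.Atomic

/-! The canonical structure of a permutation group. -/

namespace Pool.Agent.Lib.MP_905f9a_lc.D

open FirstOrder FirstOrder.Language FirstOrder.Language.Structure Set Function

/-- One relation symbol for every tuple. -/
def orbL (D : Type) : FirstOrder.Language.{0, 0} := ⟨fun _ => Empty, fun n => Fin n → D⟩

instance (D : Type) : (orbL D).IsRelational := fun _ => inferInstanceAs (IsEmpty Empty)

instance (D : Type) [Countable D] : Countable (orbL D).Symbols :=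
  inferInstanceAs (Countable ((Σ _ : ℕ, Empty) ⊕ Σ n : ℕ, Fin n → D))

/-- The orbits on tuples as basic relations. -/
@[reducible] def orbS (H D : Type) [Group H] [MulAction H D] : (orbL D).Structure D where
  funMap f := Empty.elim f
  RelMap {n} (t : Fin n → D) x := ∃ h : H, h • t = x

theorem transfer {L : FirstOrder.Language.{0, 0}} {D M I : Type} [L.Structure D] [L.Structure M]
    [Finite I] (h : D ≅[L] M) (ψ : L.Formula I) (v : I → M) (hv : ψ.Realize v) :
    ∃ w : I → D, ψ.Realize w := by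
  have := (h.realize_sentence ((ψ.relabel Sum.inr).iExs I)).2
  simp only [Sentence.Realize, Formula.realize_iExs, Formula.realize_relabel,
    Sum.elim_comp_inr] at this
  exact this ⟨v, hv⟩

theorem sm_of_bound {L : FirstOrder.Language.{0, 0}} {D : Type} [L.Structure D] [Infinite D]
    (h : ∀ (J : Type) [Finite J] (S : Set (J ⊕ Fin 1 → D)), (∅ : Set D).Definable L S →
      ∃ (K : Type) (_ : Finite K), ∀ u : J → D, ∃ k : K → D, ∀ x y,
        Sum.elim u (fun _ => x) ∈ S → Sum.elim u (fun _ => y) ∉ S → x ∈ range k ∨ y ∈ range k) :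
    IsStronglyMinimal L D := by
  refine ⟨inferInstance, fun M _ hM S hS => ?_⟩
  obtain ⟨F, -, S', f2, e⟩ := def_fin hS
  obtain ⟨φ, rfl⟩ := empty_definable_iff.1 f2
  obtain ⟨K, _, hK⟩ := h F _ (empty_definable_iff.2 ⟨φ, rfl⟩)
  by_contra hc
  rw [not_or] at hc
  have := Set.infinite_coe_iff.2 hc.1
  have := Set.infinite_coe_iff.2 hc.2
  obtain ⟨n, ⟨eK⟩⟩ := Finite.exists_equiv_fin (Option K)
  let a := (eK.toEmbedding.trans (Fin.valEmbedding.trans (Infinite.natEmbedding S))).trans
    (Embedding.subtype _)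
  let b := (eK.toEmbedding.trans (Fin.valEmbedding.trans (Infinite.natEmbedding ↥Sᶜ))).trans
    (Embedding.subtype _)
  have mem : ∀ x : M, x ∈ S ↔ φ.Realize (Sum.elim Subtype.val fun _ => x) := fun x =>
    Set.ext_iff.1 e fun _ => x
  have rl : ∀ {N : Type} [L.Structure N] (w : F ⊕ Bool × Option K → N) p,
      (φ.relabel (Sum.map id fun _ => p)).Realize w ↔
        φ.Realize (Sum.elim (w ∘ Sum.inl) fun _ => w (Sum.inr p)) := fun w p => by
    rw [Formula.realize_relabel]
    refine iff_of_eq (congrArg _ (funext ?_))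
    rintro (i | i) <;> rfl
  obtain ⟨w, hw⟩ := transfer hM (I := F ⊕ Bool × Option K)
    (Formula.iInf (fun i => φ.relabel (Sum.map id fun _ => (true, i))) ⊓
      Formula.iInf (fun i => (φ.relabel (Sum.map id fun _ => (false, i))).not) ⊓
      Formula.iInf (fun p : Bool × {p : Option K × Option K // p.1 ≠ p.2} =>
        ((Term.var (Sum.inr (p.1, p.2.1.1))).equal (Term.var (Sum.inr (p.1, p.2.1.2)))).not))
    (Sum.elim Subtype.val fun p => cond p.1 (a p.2) (b p.2)) (by
      simp only [Formula.realize_inf, Formula.realize_iInf, Formula.realize_not, rl,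
        Formula.realize_equal, Term.realize_var, Sum.elim_inr, Sum.elim_comp_inl, ← mem]
      refine ⟨⟨fun i => Subtype.prop _, fun i => Subtype.prop (p := (· ∈ Sᶜ)) _⟩, ?_⟩
      rintro ⟨_ | _, p, hp⟩
      exacts [b.injective.ne hp, a.injective.ne hp])
  simp only [Formula.realize_inf, Formula.realize_iInf, Formula.realize_not, rl,
    Formula.realize_equal, Term.realize_var] at hw
  obtain ⟨k, hk⟩ := hK (w ∘ Sum.inl)
  have key : ∀ t, ∃ i, w (Sum.inr (t, i)) ∉ range k := fun t => by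
    by_contra! j
    choose f hf using j
    have := Fintype.ofFinite K
    refine (Fintype.card_le_of_injective f fun i i' e => by_contra fun n =>
      hw.2 (t, ⟨(i, i'), n⟩) ?_).not_gt (by simp)
    rw [← hf, ← hf, e]
  obtain ⟨i, hi⟩ := key true
  obtain ⟨j, hj⟩ := key false
  exact (hk _ _ (hw.1.1 i) (hw.1.2 j)).elim hi hj

variable {H D : Type} [Group H] [MulAction H D]

theorem orb_aut (h : H) : letI := orbS H D
    MulAction.toPerm h ∈ AutG (orbL D) D :=
  fun _ _ x => ⟨fun ⟨g, e⟩ => ⟨h⁻¹ * g, by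
    rw [mul_smul, e]; exact inv_smul_smul h x⟩, fun ⟨g, e⟩ => ⟨h * g, by rw [mul_smul, e]; rfl⟩⟩

theorem orb_sm [Infinite D]
    (ol : ∀ (J : Type) [Finite J], ∃ R : Set (J → D), R.Finite ∧ ∀ u, ∃ r ∈ R, ∃ h : H, h • r = u)
    (sm : ∀ (J : Type) [Finite J] (u : J → D) (x y : D),
      {z | ∃ h : H, h • u = u ∧ h • x = z}.Finite ∨ {z | ∃ h : H, h • u = u ∧ h • y = z}.Finite ∨
        ∃ h : H, h • u = u ∧ h • x = y) :
    letI := orbS H D
    IsStronglyMinimal (orbL D) D := by
  let _ := orbS H D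
  refine sm_of_bound fun J _ S hS => ?_
  have fin : ∀ u : J → D, {x : D | {z | ∃ h : H, h • u = u ∧ h • x = z}.Finite}.Finite := by
    intro u
    obtain ⟨R, hR, k⟩ := ol (Option J)
    have : ∀ r : Option J → D, ∃ T : Set D, T.Finite ∧ ∀ (x : D) (g : H),
        {z | ∃ h : H, h • u = u ∧ h • x = z}.Finite → (g • r = fun o => o.elim x u) → x ∈ T := by
      intro r
      by_cases e : ∃ (x : D) (g : H), {z | ∃ h : H, h • u = u ∧ h • x = z}.Finite ∧
        g • r = fun o => o.elim x u
      · obtain ⟨x, g, e1, e2⟩ := e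
        rw [← eq_inv_smul_iff] at e2
        refine ⟨_, e1, fun y g' _ e3 => ?_⟩
        rw [e2, ← mul_smul] at e3
        exact ⟨g' * g⁻¹, funext fun j => congrFun e3 (some j), congrFun e3 none⟩
      · exact ⟨∅, finite_empty, fun x g e1 e2 => e ⟨x, g, e1, e2⟩⟩
    choose T T1 T2 using this
    refine (hR.biUnion fun r _ => T1 r).subset fun x hx => ?_
    obtain ⟨r, hr, g, e⟩ := k fun o => o.elim x u
    exact mem_biUnion hr (T2 r x g hx e)
  obtain ⟨R, hR, k⟩ := ol J
  refine ⟨_, (hR.biUnion fun r _ => fin r).to_subtype, fun u => ?_⟩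
  obtain ⟨r, hr, g, rfl⟩ := k u
  refine ⟨fun j => g • j.1, fun x y hx hy => ?_⟩
  rcases sm J r (g⁻¹ • x) (g⁻¹ • y) with e | e | ⟨h, h1, h2⟩
  · exact Or.inl ⟨⟨_, mem_biUnion hr e⟩, smul_inv_smul g x⟩
  · exact Or.inr ⟨⟨_, mem_biUnion hr e⟩, smul_inv_smul g y⟩
  · refine absurd ((def_inv (orb_aut (g * h * g⁻¹)) hS _).2 hx) fun j => hy ?_
    refine (iff_of_eq (congrArg (· ∈ S) (funext ?_))).1 j
    rintro (i | i)
    · show (g * h * g⁻¹) • g • r i = g • r i
      rw [mul_smul, mul_smul, inv_smul_smul, show h • r i = r i from congrFun h1 i]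
    · show (g * h * g⁻¹) • x = y
      rw [mul_smul, mul_smul, h2, smul_inv_smul]

theorem orb_prim (tr : ∀ x y : D, ∃ h : H, h • x = y)
    (pr : ∀ r : Setoid D, (∀ (h : H) (x y : D), r x y → r (h • x) (h • y)) → r = ⊥ ∨ r = ⊤) :
    letI := orbS H D
    IsPrimitive (orbL D) D := by
  let _ := orbS H D
  let e : H → D ≃[orbL D] D := fun h =>
    ⟨MulAction.toPerm h, fun f => Empty.elim f, fun R x => orb_aut h _ R x⟩
  exact ⟨fun x y => (tr x y).imp' e fun _ k => k, fun r hr => pr r fun h => hr (e h)⟩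

theorem orb_pure {E : Type} [FirstOrder.Language.empty.Structure E]
    (h : letI := orbS H D; Bidef (orbL D) D FirstOrder.Language.empty E) {n : ℕ} (t : Fin n → D)
    (σ : Equiv.Perm D) : ∃ h : H, h • t = σ ∘ t := by
  let _ := orbS H D
  obtain ⟨e, he⟩ := h
  have h1 := (he n {x | ∃ h : H, h • t = x}).1 (empty_definable_iff.2
    ⟨Relations.formula (L := orbL D) t (fun i => Term.var i), by
      ext x
      simp only [mem_ofPred_eq, Formula.realize_rel, Term.realize_var]
      rfl⟩)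
  obtain ⟨x, hx, k⟩ := (def_inv (σ := e.permCongr σ) (fun _ R => isEmptyElim R) h1 (e ∘ t)).2
    ⟨t, ⟨1, one_smul _ _⟩, rfl⟩
  refine hx.imp fun h j => j.trans (funext fun i => e.injective ?_)
  simpa using congrFun k i

end Pool.Agent.Lib.MP_905f9a_lc.D
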