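import Mathlib

/-! Morley rank for an algebra of subsets without a perfect family. -/

namespace Pool.Agent.Lib.MP_905f9a_lc.D

open Set Function

variable {X : Type} (𝒟 : Set (Set X))

/-- `Z` has Morley rank at least `α`. -/
def RK : Ordinal.{0} → Set X → Prop :=
  WellFounded.fix (wellFounded_lt (α := Ordinal.{0})) (fun α ih Z => Z.Nonempty ∧
    ∀ β (h : β < α), ∃ f : ℕ → Set X, (∀ n, f n ∈ 𝒟 ∧ f n ⊆ Z ∧ ih β h (f n)) ∧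
      Pairwise (Disjoint on f))

theorem rk_iff (α : Ordinal.{0}) (Z : Set X) : RK 𝒟 α Z ↔ Z.Nonempty ∧
    ∀ β < α, ∃ f : ℕ → Set X, (∀ n, f n ∈ 𝒟 ∧ f n ⊆ Z ∧ RK 𝒟 β (f n)) ∧
      Pairwise (Disjoint on f) := by
  unfold RK
  rw [WellFounded.fix_eq]

/-- An algebra of sets without a perfect family. -/
structure Alg0 : Prop where
  inter : ∀ Y ∈ 𝒟, ∀ Z ∈ 𝒟, Y ∩ Z ∈ 𝒟
  compl : ∀ Y ∈ 𝒟, Yᶜ ∈ 𝒟
  noperf : ∀ 𝒮 ⊆ 𝒟, (∀ Z ∈ 𝒮, Z.Nonempty ∧ ∃ Y ∈ 𝒮, ∃ Y' ∈ 𝒮, Y ⊆ Z ∧ Y' ⊆ Z ∧ Disjoint Y Y') →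
    𝒮 = ∅

variable {𝒟}

theorem RK.nonempty {α} {Z : Set X} (h : RK 𝒟 α Z) : Z.Nonempty := ((rk_iff 𝒟 α Z).1 h).1

theorem RK.anti {α β} {Z : Set X} (h : RK 𝒟 α Z) (hβ : β ≤ α) : RK 𝒟 β Z := by
  rw [rk_iff] at h ⊢
  exact ⟨h.1, fun γ hγ => h.2 γ (hγ.trans_le hβ)⟩

theorem RK.mono {α} {Y Z : Set X} (h : RK 𝒟 α Y) (hYZ : Y ⊆ Z) : RK 𝒟 α Z := by
  rw [rk_iff] at h ⊢
  refine ⟨h.1.mono hYZ, fun γ hγ => ?_⟩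
  obtain ⟨f, h1, h2⟩ := h.2 γ hγ
  exact ⟨f, fun n => ⟨(h1 n).1, (h1 n).2.1.trans hYZ, (h1 n).2.2⟩, h2⟩

theorem RK.split (H : Alg0 𝒟) {Y : Set X} (hY : Y ∈ 𝒟) (α : Ordinal.{0}) :
    ∀ {Z : Set X}, RK 𝒟 α Z → RK 𝒟 α (Z ∩ Y) ∨ RK 𝒟 α (Z ∩ Yᶜ) := by
  induction α using WellFoundedLT.induction with
  | ind α ih =>
    intro Z hZ
    by_contra hc
    push Not at hc
    obtain ⟨h1, h2⟩ := hc
    have key : ∀ W ∈ 𝒟, ¬ RK 𝒟 α (Z ∩ W) → (Z ∩ W).Nonempty → ∃ β < α, ∀ γ, β ≤ γ →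
        ∀ f : ℕ → Set X, (∀ n, f n ∈ 𝒟 ∧ f n ⊆ Z) → Pairwise (Disjoint on f) →
        {n | RK 𝒟 γ (f n ∩ W)}.Finite := by
      intro W hW h hne
      rw [rk_iff] at h
      push Not at h
      obtain ⟨β, hβ, h⟩ := h hne
      refine ⟨β, hβ, fun γ hγ f hf hd => ?_⟩
      by_contra hinf
      let e := Set.Infinite.natEmbedding _ hinf
      refine h (fun n => f (e n) ∩ W) (fun n => ⟨H.inter _ (hf _).1 _ hW,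
        inter_subset_inter_left _ (hf _).2, (e n).2.anti hγ⟩) (fun i j hij => ?_)
      exact (hd (fun h => hij (e.injective (Subtype.ext h)))).mono inter_subset_left
        inter_subset_left
    by_cases n1 : (Z ∩ Y).Nonempty
    · by_cases n2 : (Z ∩ Yᶜ).Nonempty
      · obtain ⟨β1, b1, k1⟩ := key Y hY h1 n1
        obtain ⟨β2, b2, k2⟩ := key Yᶜ (H.compl _ hY) h2 n2
        obtain ⟨f, f1, f2⟩ := ((rk_iff 𝒟 α Z).1 hZ).2 (max β1 β2) (max_lt b1 b2)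
        have := (k1 _ (le_max_left β1 β2) f (fun n => ⟨(f1 n).1, (f1 n).2.1⟩) f2).union
          (k2 _ (le_max_right β1 β2) f (fun n => ⟨(f1 n).1, (f1 n).2.1⟩) f2)
        refine Set.infinite_univ (this.subset (fun n _ => ?_))
        exact ih _ (max_lt b1 b2) (f1 n).2.2
      · refine h1 (hZ.mono (fun x hx => ⟨hx, ?_⟩))
        by_contra hx'
        exact n2 ⟨x, hx, hx'⟩
    · exact h2 (hZ.mono (fun x hx => ⟨hx, fun hx' => n1 ⟨x, hx, hx'⟩⟩))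

theorem exists_not_rk (H : Alg0 𝒟) {Z : Set X} (hZ : Z ∈ 𝒟) : ∃ α, ¬ RK 𝒟 α Z := by
  classical
  let b : Set X → Ordinal.{0} := fun W => if h : ∃ α, ¬ RK 𝒟 α W then h.choose else 0
  obtain ⟨a, ha⟩ : BddAbove (range b) := Ordinal.bddAbove_of_small
  have hb : ∀ W, RK 𝒟 a W → ∀ α, RK 𝒟 α W := by
    intro W hW
    by_contra hc
    push Not at hc
    have e : b W = hc.choose := dif_pos hc
    exact hc.choose_spec (hW.anti (e ▸ ha (mem_range_self W)))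
  have := H.noperf {W | W ∈ 𝒟 ∧ ∀ α, RK 𝒟 α W} (fun _ h => h.1) (by
    rintro W ⟨-, h2⟩
    obtain ⟨f, f1, f2⟩ := ((rk_iff 𝒟 _ W).1 (h2 (a + 1))).2 a (Order.lt_succ a)
    exact ⟨(h2 0).nonempty, f 0, ⟨(f1 0).1, hb _ (f1 0).2.2⟩, f 1, ⟨(f1 1).1, hb _ (f1 1).2.2⟩,
      (f1 0).2.1, (f1 1).2.1, f2 (by norm_num)⟩)
  by_contra hc
  push Not at hc
  have h2 : Z ∈ {W | W ∈ 𝒟 ∧ ∀ α, RK 𝒟 α W} := ⟨hZ, hc⟩
  rw [this] at h2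
  exact h2

variable (𝒟) in
/-- One more than the Morley rank. -/
noncomputable def rho (Z : Set X) : Ordinal.{0} := sInf {α | ¬ RK 𝒟 α Z}

theorem lt_rho (H : Alg0 𝒟) {Z : Set X} (hZ : Z ∈ 𝒟) {α} : α < rho 𝒟 Z ↔ RK 𝒟 α Z := by
  have hne : {α | ¬ RK 𝒟 α Z}.Nonempty := exists_not_rk H hZ
  constructor
  · intro h
    by_contra hc
    exact absurd (csInf_le' (show α ∈ {α | ¬ RK 𝒟 α Z} from hc)) (not_le.2 h)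
  · intro h
    by_contra hc
    exact csInf_mem hne (h.anti (not_lt.1 hc))

theorem rho_mono (H : Alg0 𝒟) {Y Z : Set X} (hY : Y ∈ 𝒟) (hZ : Z ∈ 𝒟) (h : Y ⊆ Z) :
    rho 𝒟 Y ≤ rho 𝒟 Z :=
  le_of_forall_lt fun _ hα => (lt_rho H hZ).2 (((lt_rho H hY).1 hα).mono h)

theorem rho_split (H : Alg0 𝒟) {Y Z : Set X} (hY : Y ∈ 𝒟) (hZ : Z ∈ 𝒟) :
    rho 𝒟 Z ≤ rho 𝒟 (Z ∩ Y) ∨ rho 𝒟 Z ≤ rho 𝒟 (Z ∩ Yᶜ) := by
  rw [← le_max_iff]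
  refine le_of_forall_lt fun α hα => ?_
  rw [lt_max_iff, lt_rho H (H.inter _ hZ _ hY), lt_rho H (H.inter _ hZ _ (H.compl _ hY))]
  exact ((lt_rho H hZ).1 hα).split H hY α

theorem rho_pos (H : Alg0 𝒟) {Z : Set X} (hZ : Z ∈ 𝒟) : 0 < rho 𝒟 Z ↔ Z.Nonempty := by
  rw [lt_rho H hZ, rk_iff]
  simp

theorem no_family (H : Alg0 𝒟) {Z : Set X} (hZ : Z ∈ 𝒟) (hne : Z.Nonempty) (f : ℕ → Set X)
    (h1 : ∀ n, f n ∈ 𝒟 ∧ f n ⊆ Z ∧ rho 𝒟 Z ≤ rho 𝒟 (f n)) (h2 : Pairwise (Disjoint on f)) :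
    False := by
  have : RK 𝒟 (rho 𝒟 Z) Z := (rk_iff 𝒟 _ Z).2 ⟨hne, fun β hβ => ⟨f, fun n => ⟨(h1 n).1,
    (h1 n).2.1, (lt_rho H (h1 n).1).1 (hβ.trans_le (h1 n).2.2)⟩, h2⟩⟩
  exact lt_irrefl _ ((lt_rho H hZ).2 this)

theorem rk_image {X' : Type} {𝒟' : Set (Set X')} (e : X ≃ X') (he : ∀ Y ∈ 𝒟, e '' Y ∈ 𝒟')
    (α : Ordinal.{0}) : ∀ {Z : Set X}, RK 𝒟 α Z → RK 𝒟' α (e '' Z) := by
  induction α using WellFoundedLT.induction with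
  | ind α ih =>
    intro Z hZ
    rw [rk_iff] at hZ ⊢
    refine ⟨hZ.1.image _, fun β hβ => ?_⟩
    obtain ⟨f, f1, f2⟩ := hZ.2 β hβ
    exact ⟨fun n => e '' f n, fun n => ⟨he _ (f1 n).1, image_mono (f1 n).2.1,
      ih β hβ (f1 n).2.2⟩, fun i j hij => (disjoint_image_iff e.injective).2 (f2 hij)⟩

theorem rho_image_le {X' : Type} {𝒟' : Set (Set X')} (H : Alg0 𝒟) (H' : Alg0 𝒟') (e : X ≃ X')
    (he : ∀ Y ∈ 𝒟, e '' Y ∈ 𝒟') {Z : Set X} (hZ : Z ∈ 𝒟) : rho 𝒟 Z ≤ rho 𝒟' (e '' Z) :=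
  le_of_forall_lt fun α hα => (lt_rho H' (he _ hZ)).2 (rk_image e he α ((lt_rho H hZ).1 hα))

/-- No strictly descending chain with differences of full rank. -/
theorem no_chain (H : Alg0 𝒟) {Z : Set X} (hZ : Z ∈ 𝒟) (hne : Z.Nonempty) (P : Set X → Prop)
    (h0 : P Z) (hs : ∀ Y, Y ∈ 𝒟 → Y ⊆ Z → P Y → ∃ W ∈ 𝒟, rho 𝒟 Z ≤ rho 𝒟 (Y ∩ Wᶜ) ∧ P (Y ∩ W)) :
    False := by
  have step : ∀ Y : {Y // Y ∈ 𝒟 ∧ Y ⊆ Z ∧ P Y}, ∃ Y' : {Y // Y ∈ 𝒟 ∧ Y ⊆ Z ∧ P Y},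
      Y'.1 ⊆ Y.1 ∧ rho 𝒟 Z ≤ rho 𝒟 (Y.1 ∩ Y'.1ᶜ) := by
    rintro ⟨Y, y1, y2, y3⟩
    obtain ⟨W, w1, w2, w3⟩ := hs Y y1 y2 y3
    refine ⟨⟨Y ∩ W, H.inter _ y1 _ w1, inter_subset_left.trans y2, w3⟩, inter_subset_left, ?_⟩
    have : Y ∩ (Y ∩ W)ᶜ = Y ∩ Wᶜ := by ext x; simp; tauto
    simp only [this]; exact w2
  choose s s1 s2 using step
  let c : ℕ → {Y // Y ∈ 𝒟 ∧ Y ⊆ Z ∧ P Y} := fun n => s^[n] ⟨Z, hZ, subset_rfl, h0⟩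
  have cs : ∀ n, c (n + 1) = s (c n) := fun n => iterate_succ_apply' s n _
  have anti : Antitone fun n => (c n).1 := antitone_nat_of_succ_le fun n => by
    simp only [cs]; exact s1 _
  refine no_family H hZ hne (fun n => (c n).1 ∩ (c (n + 1)).1ᶜ) (fun n => ⟨H.inter _ (c n).2.1 _
    (H.compl _ (c _).2.1), inter_subset_left.trans (c n).2.2.1, by rw [cs]; exact s2 _⟩) ?_
  have : ∀ i j, i < j → Disjoint ((c i).1 ∩ (c (i + 1)).1ᶜ) ((c j).1 ∩ (c (j + 1)).1ᶜ) := by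
    intro i j hij
    exact disjoint_left.2 fun x h1 h2 => h1.2 (anti (Nat.succ_le_of_lt hij) h2.1)
  intro i j hij
  rcases lt_or_gt_of_ne hij with h | h
  · exact this i j h
  · exact (this j i h).symm

variable (𝒟) in
/-- A nonempty member of the algebra of Morley degree one. -/
def Atom (B : Set X) : Prop := B ∈ 𝒟 ∧ B.Nonempty ∧
  ∀ Y ∈ 𝒟, rho 𝒟 B ≤ rho 𝒟 (B ∩ Y) → rho 𝒟 (B ∩ Yᶜ) < rho 𝒟 B

variable (𝒟) in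
/-- The generic type of an atom. -/
def typ (B : Set X) : Set (Set X) := {Y | Y ∈ 𝒟 ∧ rho 𝒟 B ≤ rho 𝒟 (B ∩ Y)}

variable (𝒟) in
/-- The global types of full rank in `Z`. -/
def Full (Z : Set X) : Set (Set (Set X)) :=
  {p | ∃ B, Atom 𝒟 B ∧ B ⊆ Z ∧ rho 𝒟 Z ≤ rho 𝒟 B ∧ p = typ 𝒟 B}

theorem exists_atom (H : Alg0 𝒟) {Z : Set X} (hZ : Z ∈ 𝒟) (hne : Z.Nonempty) :
    ∃ B, Atom 𝒟 B ∧ B ⊆ Z ∧ rho 𝒟 Z ≤ rho 𝒟 B := by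
  by_contra hc
  push Not at hc
  refine no_chain H hZ hne (fun Y => rho 𝒟 Z ≤ rho 𝒟 Y) le_rfl (fun Y y1 y2 y3 => ?_)
  have : ¬ Atom 𝒟 Y := fun h => absurd (hc Y h y2) (not_lt.2 y3)
  simp only [Atom, not_and, not_forall, not_lt] at this
  obtain ⟨W, w1, w2, w3⟩ := this y1 ((rho_pos H y1).1 (((rho_pos H hZ).2 hne).trans_le y3))
  exact ⟨W, w1, y3.trans w3, y3.trans w2⟩

theorem Atom.inter_mem (H : Alg0 𝒟) {B Y Y' : Set X} (hB : Atom 𝒟 B) (h : Y ∈ typ 𝒟 B)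
    (h' : Y' ∈ typ 𝒟 B) : Y ∩ Y' ∈ typ 𝒟 B := by
  refine ⟨H.inter _ h.1 _ h'.1, ?_⟩
  rcases rho_split H h'.1 (H.inter _ hB.1 _ h.1) with k | k
  · rw [← inter_assoc]; exact h.2.trans k
  · refine absurd ((h.2.trans k).trans (rho_mono H (H.inter _ (H.inter _ hB.1 _ h.1) _
      (H.compl _ h'.1)) (H.inter _ hB.1 _ (H.compl _ h'.1))
      (inter_subset_inter_left _ inter_subset_left))) (not_le.2 (hB.2.2 _ h'.1 h'.2))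

theorem Atom.mono_mem (H : Alg0 𝒟) {B Y Y' : Set X} (hB : Atom 𝒟 B) (h : Y ∈ typ 𝒟 B)
    (h' : Y' ∈ 𝒟) (hs : Y ⊆ Y') : Y' ∈ typ 𝒟 B :=
  ⟨h', h.2.trans (rho_mono H (H.inter _ hB.1 _ h.1) (H.inter _ hB.1 _ h')
    (inter_subset_inter_right _ hs))⟩

theorem Atom.mem_or (H : Alg0 𝒟) {B Y : Set X} (hB : Atom 𝒟 B) (h : Y ∈ 𝒟) :
    Y ∈ typ 𝒟 B ∨ Yᶜ ∈ typ 𝒟 B :=
  (rho_split H h hB.1).imp (fun k => ⟨h, k⟩) (fun k => ⟨H.compl _ h, k⟩)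

theorem Atom.nonempty_mem (H : Alg0 𝒟) {B Y : Set X} (hB : Atom 𝒟 B) (h : Y ∈ typ 𝒟 B) :
    Y.Nonempty :=
  ((rho_pos H (H.inter _ hB.1 _ h.1)).1 (((rho_pos H hB.1).2 hB.2.1).trans_le h.2)).mono
    inter_subset_right

theorem Atom.self_mem {B : Set X} (hB : Atom 𝒟 B) : B ∈ typ 𝒟 B := ⟨hB.1, by rw [inter_self]⟩

theorem Atom.rho_le (H : Alg0 𝒟) {B Y : Set X} (hB : Atom 𝒟 B) (h : Y ∈ typ 𝒟 B) :
    rho 𝒟 B ≤ rho 𝒟 Y := h.2.trans (rho_mono H (H.inter _ hB.1 _ h.1) h.1 inter_subset_right)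

theorem Atom.typ_eq (H : Alg0 𝒟) {B B' : Set X} (hB : Atom 𝒟 B) (hB' : Atom 𝒟 B')
    (h : B' ∈ typ 𝒟 B) (hr : rho 𝒟 B' ≤ rho 𝒟 B) : typ 𝒟 B = typ 𝒟 B' := by
  have key : typ 𝒟 B ⊆ typ 𝒟 B' := fun Y hY =>
    ⟨hY.1, hr.trans (hB.rho_le H (hB.inter_mem H h hY))⟩
  refine key.antisymm (fun Y hY => (hB.mem_or H hY.1).resolve_right (fun k => ?_))
  simpa using hB'.nonempty_mem H (hB'.inter_mem H hY (key k))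

theorem Atom.inter (H : Alg0 𝒟) {B Y : Set X} (hB : Atom 𝒟 B) (h : Y ∈ typ 𝒟 B) :
    Atom 𝒟 (B ∩ Y) ∧ typ 𝒟 (B ∩ Y) = typ 𝒟 B := by
  have m := hB.inter_mem H hB.self_mem h
  have r : rho 𝒟 (B ∩ Y) ≤ rho 𝒟 B := rho_mono H m.1 hB.1 inter_subset_left
  have a : Atom 𝒟 (B ∩ Y) := by
    refine ⟨m.1, hB.nonempty_mem H m, fun W hW k => lt_of_lt_of_le (lt_of_le_of_lt
      (rho_mono H (H.inter _ m.1 _ (H.compl _ hW)) (H.inter _ hB.1 _ (H.compl _ hW))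
        (inter_subset_inter_left _ inter_subset_left)) (hB.2.2 W hW ?_)) h.2⟩
    exact (h.2.trans k).trans (rho_mono H (H.inter _ m.1 _ hW) (H.inter _ hB.1 _ hW)
      (inter_subset_inter_left _ inter_subset_left))
  exact ⟨a, (hB.typ_eq H a m r).symm⟩

theorem full_finite (H : Alg0 𝒟) {Z : Set X} (hZ : Z ∈ 𝒟) : (Full 𝒟 Z).Finite := by
  by_contra hinf
  have hne : Z.Nonempty := by
    obtain ⟨p, B, b1, b2, -⟩ := Set.Infinite.nonempty hinf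
    exact b1.2.1.mono b2
  refine no_chain H hZ hne (fun Y => {p ∈ Full 𝒟 Z | Y ∈ p}.Infinite) ?_ (fun Y y1 y2 y3 => ?_)
  · refine Set.Infinite.mono (fun p hp => ⟨hp, ?_⟩) hinf
    obtain ⟨B, b1, b2, -, rfl⟩ := hp
    exact b1.mono_mem H b1.self_mem hZ b2
  · obtain ⟨p, ⟨⟨B, b1, b2, b3, rfl⟩, hp⟩⟩ := y3.nonempty
    refine ⟨Bᶜ, H.compl _ b1.1, ?_, ?_⟩
    · rw [compl_compl, inter_comm]; exact b3.trans hp.2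
    · refine (y3.sdiff (finite_singleton (typ 𝒟 B))).mono ?_
      rintro q ⟨⟨⟨B', c1, c2, c3, rfl⟩, hq⟩, hne'⟩
      refine ⟨⟨B', c1, c2, c3, rfl⟩, c1.inter_mem H hq ((c1.mem_or H b1.1).resolve_left
        (fun k => hne' (c1.typ_eq H b1 k ((rho_mono H b1.1 hZ b2).trans c3))))⟩

end Pool.Agent.Lib.MP_905f9a_lc.D
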