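import Pool.Agent.Lib.MP_905f9a_lc.D.URank

/-! Triviality of forking in finite rank. -/

namespace Pool.Agent.Lib.MP_905f9a_lc.D

open Set Function

variable {G : Type} [Group G] [Ctx G]

variable {a b c d e f x y z : Q G}

attribute [local irreducible] In U

theorem triv1 (h1 : U z b ≤ 1) (h0 : ¬ b ≤ z) (sx : Same b z x) (sy : Same b z y)
    (nx : ¬ b ⊓ x ≤ z) (ny : ¬ b ⊓ y ≤ z) : ¬ b ⊓ x ⊓ y ≤ z := by
  intro hc
  obtain ⟨C, e, hC⟩ := exists_stat' z b
  have fb : ∀ g ∈ C.1, g • b = b := fun g hg => by rw [← e]; exact fix_of_mem hg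
  let S : O G := C ⊓ St (b ⊓ z)
  have eS : cl S = b ⊓ z := by simp only [S, cl_inf, e, cl_St]; order
  have eg : ∀ g ∈ C.1, cl (g • S) = b ⊓ g • z := fun g hg => by
    rw [cl_smul, eS, sm_inf, fb g hg]
  have mS : ∀ g ∈ C.1, g • z = z → g ∈ S.1 := fun g hg k =>
    ⟨hg, show g • (b ⊓ z) = b ⊓ z by rw [sm_inf, fb g hg, k]⟩
  obtain ⟨g, hg, rfl⟩ := sx C e.ge
  obtain ⟨h, hh, rfl⟩ := sy C e.ge
  refine Ctx.triv (B := C.1) S.2 inf_le_left ?_ ?_ ?_ g hg h hh ?_ ?_ ?_
  · intro k
    have : cl C ≤ cl S := k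
    rw [e, eS] at this
    exact h0 (this.trans inf_le_right)
  · intro V hV hVC p hp q hq
    let V' : O G := ⟨V, hV⟩
    have l : cl V' ≤ b := e ▸ cl_mono (C := V') (A := C) hVC
    have key : ∀ p ∈ C.1, Alg (cj p S.1) V ∨ In (p • z) b (cl V') := by
      intro p hp
      refine (in_or_le ((U_smul' (fb p hp) z).trans_le h1) (cl V')).symm.imp_left fun k => ?_
      show cl V' ≤ cl (p • S)
      rw [eg p hp]; order
    rcases key p hp with k1 | k1
    · exact Or.inl k1
    rcases key q hq with k2 | k2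
    · exact Or.inr (Or.inl k2)
    obtain ⟨v, hv, k⟩ := hC V' p q hp hq k1 k2
    refine Or.inr (Or.inr ⟨v, hv.2, (v * p)⁻¹ * q, mS _ (C.1.mul_mem (C.1.inv_mem
      (C.1.mul_mem hv.1 hp)) hq) ?_, by group⟩)
    rw [mul_smul, ← k, ← mul_smul v, inv_smul_smul]
  · intro S' l1 l2
    let T : O G := ⟨S', Ctx.op_mono S.2 l1⟩
    have m1 : b ⊓ z ≤ cl T := eS ▸ cl_mono (C := S) (A := T) l1
    have m2 : cl T ≤ b := e ▸ cl_mono (C := T) (A := C) l2
    rcases in_or_le h1 (cl T) with k | k
    · have m3 : b ≤ cl T := k.symm.le m1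
      refine Or.inr (le_antisymm l2 fun q hq => ?_)
      obtain ⟨v, hv, k⟩ := hC T 1 q (one_mem _) hq (In.of_le m3 _) (In.of_le m3 _)
      have : v⁻¹ * q ∈ S' := l1 (mS _ (C.1.mul_mem (C.1.inv_mem hv.1) hq) (by
        rw [mul_smul, ← k, one_smul, inv_smul_smul]))
      simpa using S'.mul_mem hv.2 this
    · have m3 : cl T = b ⊓ z := by order
      exact Or.inl (le_antisymm (fun q hq => ⟨l2 hq, show q • (b ⊓ z) = b ⊓ z by
        rw [← m3]; exact fix_of_mem (V := T) hq⟩) l1)
  · intro k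
    have : g • (b ⊓ z) = b ⊓ z := k.2
    rw [sm_inf, fb g hg] at this
    exact nx (by order)
  · intro k
    have : h • (b ⊓ z) = b ⊓ z := k.2
    rw [sm_inf, fb h hh] at this
    exact ny (by order)
  · show cl (C ⊓ g • S ⊓ h • S) ≤ cl S
    rw [cl_inf, cl_inf, eg g hg, eg h hh, e, eS]
    order

theorem triv3 (ux : U x e ≤ 1) (uy : U y e ≤ 1) (uz : U z e ≤ 1) (ix : In z e x) (iy : In z e y) :
    In z e (x ⊓ y) := by
  by_contra hc
  have a1 : e ⊓ (x ⊓ y) ≤ z := (in_or_le uz _).resolve_left hc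
  have n0 : ¬ e ≤ z := fun k => hc (In.of_le k _).symm
  have iyx : In y e x := (in_or_le uy x).resolve_right fun k => hc (ix.right (by order))
  have a2 : e ⊓ y ⊓ z ≤ x := (in_or_le ((U_mono x inf_le_left).trans ux) z).resolve_left
    fun k => hc ((iy.trans k.symm).right (by order))
  have a3 : e ⊓ x ⊓ z ≤ y := (in_or_le ((U_mono y inf_le_left).trans uy) z).resolve_left
    fun k => hc (ix.trans k.symm)
  obtain ⟨C, eC, hC⟩ := exists_same z e
  have fe : ∀ g ∈ C.1, g • e = e := fun g hg => by rw [← eC]; exact fix_of_mem hg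
  obtain ⟨g, hg, i2⟩ := extV y y (C ⊓ St x)
  obtain ⟨h, hh, i3⟩ := extV x (x ⊓ g • y) (C ⊓ St y)
  rw [cl_inf, eC, cl_St] at i2 i3
  have ge := fe g hg.1
  have gx : g • x = x := hg.2
  have he := fe h hh.1
  have hy : h • y = y := hh.2
  have b1 := (sm_le g).2 a1
  have b2 := (sm_le g).2 a2
  have b3 := iy.smul g
  have b4 := iyx.smul g
  have c1 := (sm_le h).2 a1
  have c2 := (sm_le h).2 a3
  have c3 := ix.smul h
  have c4 := iyx.smul h
  simp only [sm_inf, ge, gx, he, hy] at b1 b2 b3 b4 c1 c2 c3 c4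
  have s2 := hC g hg.1
  have s3 := hC h hh.1
  generalize g • y = y2 at *
  generalize g • z = z2 at *
  generalize h • x = x3 at *
  generalize h • z = z3 at *
  have I1 : In y2 e (x ⊓ y) := b4.trans i2
  have I2 : In x3 e (y ⊓ (x ⊓ y2)) := c4.symm.trans i3
  have J : In (x ⊓ y) e (y2 ⊓ x3) :=
    I1.symm.trans (I2.gen (by order) (by order) (by order) (by order)).symm
  have j1 : In z e (y2 ⊓ x3) := J.left a1
  have j2 : In z2 e (y2 ⊓ x3) :=
    b3.trans (I2.gen (by order) (by order) (by order) (by order)).symm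
  have I3 : In y2 e (y ⊓ x3) :=
    (I1.right (by order)).trans (I2.gen (by order) (by order) (by order) (by order)).symm
  have j3 : In z3 e (y2 ⊓ x3) :=
    (c3.trans (I3.gen (b' := z3) (by order) (by order) (by order) (by order)).symm).right (by order)
  have k1 : In z e (x ⊓ (y2 ⊓ x3)) :=
    ix.trans (J.symm.gen (by order) (by order) (by order) (by order)).symm
  have k2 : In z e (y ⊓ (y2 ⊓ x3)) :=
    iy.trans (J.symm.gen (by order) (by order) (by order) (by order)).symm
  exact triv1 ((U_mono z inf_le_left).trans uz) (fun k => n0 (j1.le k)) (s2.stat j1 j2)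
    (s3.stat j1 j3) (fun k => n0 (k1.le (by order))) (fun k => n0 (k2.le (by order))) (by order)

/-- `w` behaves trivially with respect to rank one elements over extensions of `e`. -/
def Tr (e w : Q G) : Prop := ∀ e' ≤ e, ∀ z v, U z e' ≤ 1 → U v e' ≤ 1 → In z e' w → In z e' v →
  In z e' (w ⊓ v)

theorem Tr.of_U (h : U x e ≤ 1) : Tr e x := fun _ he _ _ uz uv i1 i2 =>
  triv3 ((U_mono x he).trans h) uv uz i1 i2

theorem Tr.inf (h : Tr e x) (k : Tr e y) : Tr e (x ⊓ y) := by
  intro e' he z v uz uv i1 i2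
  have j := h e' he z v uz uv (i1.right (by order)) i2
  have j2 := k (e' ⊓ x) (by order) z v ((U_mono z inf_le_left).trans uz)
    ((U_mono v inf_le_left).trans uv) (i1.gen (by order) (by order) (by order) (by order))
    (j.gen (by order) (by order) (by order) (by order))
  exact ((i1.right (b' := x) (by order)).trans j2).right (by order)

theorem Tr.pre {f : ℕ → Q G} (h : ∀ i, Tr e (f i)) (k : ℕ) : Tr e (pre f k) := by
  induction k with
  | zero => rw [pre_zero]; exact Tr.of_U (by rw [U_zero.2 le_top]; exact zero_le)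
  | succ k ih => rw [pre_succ]; exact ih.inf (h k)

theorem triv_no (ua : U a e ≤ 1) (ub : U b e ≤ 1) (ia : In a e f) (iab : In a e b) :
    In a e (b ⊓ f) := by
  rcases in_or_le ub f with ib | ib
  swap
  · exact ia.right (by order)
  obtain ⟨g, g1, g2⟩ := morley2 (a ⊓ b) e f
  obtain ⟨k, hk⟩ := loc' f e (fun i => g i • (a ⊓ b))
  have t : Tr e (pre (fun i => g i • (a ⊓ b)) k) := Tr.pre (fun i => by
    rw [sm_inf]
    exact (Tr.of_U ((U_smul' (g1 i).1 a).trans_le ua)).inf
      (Tr.of_U ((U_smul' (g1 i).1 b).trans_le ub))) k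
  have m := g2 k
  have a1 := ia.smul (g k)
  have a2 := ib.smul (g k)
  have a3 := iab.smul (g k)
  have ua' := (U_smul' (g1 k).1 a).trans_le ua
  have ub' := (U_smul' (g1 k).1 b).trans_le ub
  suffices h : In (g k • a) e (g k • b ⊓ f) by
    have := h.smul (g k)⁻¹
    rwa [sm_inf, inv_smul_smul, inv_smul_smul, inv_smul_eq_iff.2 (g1 k).1.symm,
      inv_smul_eq_iff.2 (g1 k).2.symm] at this
  simp only [(g1 k).1, (g1 k).2] at a1 a2 a3
  generalize pre (fun i => g i • (a ⊓ b)) k = w at *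
  rw [sm_inf] at m hk
  generalize g k • a = a' at *
  generalize g k • b = b' at *
  have p1 : In a' e w := (a1.trans (m.left (by order))).right (by order)
  have p2 : In b' e w := (a2.trans (m.left (by order))).right (by order)
  have p3 : In a' e (w ⊓ b') := t e le_rfl a' b' ua' ub' p1 a3
  have p4 : In w e (b' ⊓ a') :=
    p2.symm.trans (p3.gen (by order) (by order) (by order) (by order)).symm
  have p5 : In (a' ⊓ b') e (w ⊓ f) := (p4.symm.left (by order)).trans hk
  exact a3.trans (p5.symm.gen (by order) (by order) (by order) (by order)).symm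

theorem coord {n : ℕ} (h : U a e = (n + 1 : ℕ)) (t : Q G) :
    ∃ d x, In d e (a ⊓ t) ∧ e ⊓ d ⊓ a ≤ x ∧ U x (e ⊓ d) = 1 := by
  classical
  obtain ⟨b, b1, b2⟩ := exists_fork h.ge
  have b3 : U a (e ⊓ b) = n := by
    have := U_fork b1
    rw [h] at this
    generalize U a (e ⊓ b) = u at *
    enat_to_nat
    omega
  obtain ⟨g, g1, g2⟩ := morley2 a e b
  set s : ℕ → Q G := fun i => g i • a with hs
  have u1 : ∀ i, U (s i) e = (n + 1 : ℕ) := fun i => (U_smul' (g1 i).1 a).trans h
  have u2 : ∀ i, U (s i) (e ⊓ b) = n := fun i =>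
    (U_smul' (by rw [sm_inf, (g1 i).1, (g1 i).2]) a).trans b3
  have ex : ∃ i, ∃ j, i ≤ j ∧ ¬ In (s j) e (pre s i) := by
    obtain ⟨k, hk⟩ := loc' b e s
    refine ⟨k, k, le_rfl, fun i => ?_⟩
    have := (i.trans hk).U_le (c' := e ⊓ b) (by order)
    rw [u1, u2] at this
    exact absurd this (by norm_cast; omega)
  obtain ⟨j, j1, j2⟩ := Nat.find_spec ex
  obtain ⟨i, hi⟩ : ∃ i, Nat.find ex = i + 1 := Nat.exists_eq_succ_of_ne_zero fun k => by
    rw [k, pre_zero] at j2
    exact j2 (In.of_le le_top _)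
  have mn : ∀ j, i ≤ j → In (s j) e (pre s i) := fun j hj => by
    by_contra k
    exact Nat.find_min ex (show i < Nat.find ex by omega) ⟨j, hj, k⟩
  rw [hi] at j1 j2
  have m1 : In (s j) (e ⊓ b) (pre s (i + 1)) :=
    (g2 j).right (inf_le_right.trans (pre_anti s j1))
  have m0 : In (s i) (e ⊓ b) (pre s i) := g2 i
  have n1 := mn i le_rfl
  have n2 := mn j (by omega)
  rw [pre_succ] at j2 m1
  have ui := u1 i
  have uj := u1 j
  have vi := u2 i
  have vj := u2 j
  have si : s i = g i • a := rfl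
  generalize pre s i = D at *
  generalize s j = w at *
  have r1 : U w (e ⊓ (D ⊓ s i)) ≤ n := by
    have := U_fork j2
    rw [uj] at this
    generalize U w (e ⊓ (D ⊓ s i)) = u at *
    enat_to_nat
    omega
  have m2 : In w (e ⊓ (D ⊓ s i)) (e ⊓ b) := in_of_U (ne_top_of_le_ne_top (by simp) r1)
    (r1.trans (vj ▸ m1.U_le (by order)))
  obtain ⟨x, x1, x2, x3⟩ := exists_cb' w (e ⊓ b)
  have x4 : e ⊓ (D ⊓ s i) ≤ x := x3 _ m2 (m1.right (by order))
  have r2 : U x (e ⊓ D) = 1 := by
    have l := lascar (s i) x (e ⊓ D)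
    have l1 : U (s i ⊓ x) (e ⊓ D) ≤ (n + 1 : ℕ) := (U_gen inf_le_left (by order)).trans ui.le
    have l2 : (n : ℕ∞) ≤ U (s i) (e ⊓ D ⊓ x) := vi ▸ m0.U_le (by order)
    have l3 : U x (e ⊓ D) ≠ 0 := fun k => by
      have k1 := U_zero.1 k
      have k2 : U w e ≤ U w x := (n2.U_le le_rfl).trans (U_mono w k1)
      have k3 : U w x ≤ U w (e ⊓ b) := x2.U_le inf_le_right
      rw [uj, vj] at *
      exact absurd (k2.trans k3) (by norm_cast; omega)
    have l4 : (n : ℕ∞) + U x (e ⊓ D) ≤ (n + 1 : ℕ) := (add_le_add l2 le_rfl).trans (l ▸ l1)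
    rw [Nat.cast_succ, ENat.add_le_add_iff_left (by simp)] at l4
    exact le_antisymm l4 (Order.one_le_iff_ne_zero.2 l3)
  obtain ⟨h, h1, h2, h3⟩ := ext2 ((g i)⁻¹ • D) t e a
  have fe : (h * (g i)⁻¹) • e = e := by
    rw [mul_smul, inv_smul_eq_iff.2 (g1 i).1.symm, h1]
  have fa : (h * (g i)⁻¹) • s i = a := by rw [mul_smul, si, inv_smul_smul, h2]
  have y1 := n1.smul (h * (g i)⁻¹)
  have y2 := (sm_le (h * (g i)⁻¹)).2 x4
  have y3 := (U_smul (h * (g i)⁻¹) x (e ⊓ D)).trans r2
  rw [← mul_smul] at h3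
  simp only [sm_inf, fe, fa] at y1 y2 y3
  exact ⟨_, _, y1.symm.trans h3, by order, y3⟩

theorem tt1 {n : ℕ} : ∀ {e : Q G}, U b e = n → U a e ≤ 1 → In a e b → In a e f →
    In a e (b ⊓ f) := by
  induction n using Nat.strong_induction_on with
  | _ n ih =>
    intro e ub ua i1 i2
    cases n with
    | zero => exact i2.right (by have := U_zero.1 ub; order)
    | succ n =>
      obtain ⟨d, x, d1, d2, d3⟩ := coord ub (a ⊓ f)
      have ua' := (U_mono a (inf_le_left (b := d))).trans ua
      have p0 : In a e d := (d1.right (by order)).symm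
      have p1 : In a (e ⊓ d) b := ((i1.symm.left (a' := b) (by order)).symm.trans
        (d1.gen (c' := e ⊓ b) (b' := a) (a' := d) (by order) (by order) (by order)
          (by order)).symm).gen (by order) (by order) (by order) (by order)
      have p2 : In a (e ⊓ d) f := (i2.trans
        (d1.gen (c' := e ⊓ f) (b' := a) (a' := d) (by order) (by order) (by order)
          (by order)).symm).gen (by order) (by order) (by order) (by order)
      have p3 : In a (e ⊓ d) x := p1.right d2
      have p4 := triv_no ua' d3.le p2 p3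
      have l := lascar b x (e ⊓ d)
      have l1 : U (b ⊓ x) (e ⊓ d) ≤ (n + 1 : ℕ) := (U_gen inf_le_left (by order)).trans ub.le
      rw [l, d3] at l1
      obtain ⟨m, hm⟩ := ENat.ne_top_iff_exists.1 (show U b (e ⊓ d ⊓ x) ≠ ⊤ by
        intro k; rw [k] at l1; simp at l1)
      have p5 := ih m (by rw [← hm] at l1; norm_cast at l1) hm.symm
        ((U_mono a inf_le_left).trans ua') (p1.gen (by order) (by order) (by order) (by order))
        (p4.gen (b' := f) (by order) (by order) (by order) (by order))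
      exact (p0.trans (p3.trans p5)).right (by order)

theorem tt0 {n : ℕ} : ∀ {e : Q G}, U a e = n → U b e ≠ ⊤ → In a e b → In a e f →
    In a e (b ⊓ f) := by
  induction n using Nat.strong_induction_on with
  | _ n ih =>
    intro e ua ub i1 i2
    cases n with
    | zero => exact (In.of_le (U_zero.1 ua) _).symm
    | succ n =>
      obtain ⟨d, x, d1, d2, d3⟩ := coord ua (b ⊓ f)
      have ub' := ne_top_of_le_ne_top ub (U_mono b (inf_le_left (b := d)))
      have p0 : In a e d := (d1.right (by order)).symm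
      have p1 : In a (e ⊓ d) b := (i1.trans
        (d1.gen (c' := e ⊓ b) (b' := a) (a' := d) (by order) (by order) (by order)
          (by order)).symm).gen (by order) (by order) (by order) (by order)
      have p2 : In a (e ⊓ d) f := (i2.trans
        (d1.gen (c' := e ⊓ f) (b' := a) (a' := d) (by order) (by order) (by order)
          (by order)).symm).gen (by order) (by order) (by order) (by order)
      obtain ⟨r, hr⟩ := ENat.ne_top_iff_exists.1 ub'
      have p3 : In x (e ⊓ d) (b ⊓ f) := tt1 hr.symm d3.le (p1.left d2) (p2.left d2)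
      have l := lascar a x (e ⊓ d)
      have l1 : U (a ⊓ x) (e ⊓ d) ≤ (n + 1 : ℕ) := (U_gen inf_le_left (by order)).trans ua.le
      rw [l, d3] at l1
      obtain ⟨m, hm⟩ := ENat.ne_top_iff_exists.1 (show U a (e ⊓ d ⊓ x) ≠ ⊤ by
        intro k; rw [k] at l1; simp at l1)
      have p5 := ih m (by rw [← hm] at l1; norm_cast at l1) hm.symm
        (ne_top_of_le_ne_top ub' (U_mono b inf_le_left))
        (p1.symm.gen (by order) (by order) (by order) (by order)).symm
        (p2.symm.gen (b' := a) (a' := f) (by order) (by order) (by order) (by order)).symm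
      exact (p0.trans ((p3.symm.trans p5.symm).right (b' := a) (by order)).symm).right (by order)

/-- Total triviality in finite rank. -/
theorem tt (ua : U a e ≠ ⊤) (ub : U b e ≠ ⊤) (i1 : In a e b) (i2 : In a e f) : In a e (b ⊓ f) := by
  obtain ⟨n, hn⟩ := ENat.ne_top_iff_exists.1 ua
  exact tt0 hn.symm ub i1 i2

theorem tt_pre {s : ℕ → Q G} (ua : U a e ≠ ⊤) (us : ∀ i, U (s i) e ≠ ⊤) (i1 : ∀ i, In a e (s i))
    (k : ℕ) : In a e (pre s k) := by
  induction k with
  | zero => rw [pre_zero]; exact In.of_le le_top _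
  | succ k ih => rw [pre_succ, inf_comm]; exact tt ua (us k) (i1 k) ih

end Pool.Agent.Lib.MP_905f9a_lc.D
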