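import Pool.Agent.Lib.MP_905f9a_lc.D.Calc

/-! The U-rank with values in `ℕ∞` and Lascar's equality. -/

namespace Pool.Agent.Lib.MP_905f9a_lc.D

open Set Function

variable {G : Type} [Group G] [Ctx G]

/-- There is a forking chain of length `n`. -/
def Uge : ℕ → Q G → Q G → Prop
  | 0, _, _ => True
  | n + 1, a, c => ∃ b, ¬ In a c b ∧ Uge n a (c ⊓ b)

variable {a b c d a' b' c' : Q G}

theorem Uge.pred : ∀ {n : ℕ} {a c : Q G}, Uge (n + 1) a c → Uge n a c
  | 0, _, _, _ => trivial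
  | _ + 1, _, _, ⟨b, h1, h2⟩ => ⟨b, h1, Uge.pred h2⟩

theorem Uge.anti {m n : ℕ} (h : Uge n a c) (k : m ≤ n) : Uge m a c := by
  induction k with
  | refl => exact h
  | step _ ih => exact ih h.pred

theorem Uge.mono : ∀ {n : ℕ} {c c' : Q G}, Uge n a c' → c' ≤ c → Uge n a c
  | 0, _, _, _, _ => trivial
  | _ + 1, c, c', ⟨b, h1, h2⟩, k => ⟨c' ⊓ b, fun i => h1 (i.gen k (by order) (by order) (by order)),
      by rwa [← inf_assoc, inf_eq_right.2 k]⟩

theorem Uge.left : ∀ {n : ℕ} {c : Q G}, Uge n a' c → c ⊓ a ≤ a' → Uge n a c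
  | 0, _, _, _ => trivial
  | _ + 1, _, ⟨b, h1, h2⟩, k => ⟨b, fun i => h1 (i.left k), Uge.left h2 (by order)⟩

theorem Uge.smul (g : G) : ∀ {n : ℕ} {c : Q G}, Uge n a c → Uge n (g • a) (g • c)
  | 0, _, _ => trivial
  | _ + 1, _, ⟨b, h1, h2⟩ => ⟨g • b, fun i => h1 (by simpa using i.smul g⁻¹),
      by rw [← sm_inf]; exact Uge.smul g h2⟩

theorem Uge.of_in : ∀ {n : ℕ} {c : Q G}, Uge n a c → In a c b → Uge n a (c ⊓ b)
  | 0, _, _, _ => trivial
  | n + 1, c, ⟨d, h1, h2⟩, k => by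
    obtain ⟨g, g1, g2, i⟩ := ext2 d b c a
    have h1' : ¬ In a c (g • d) := fun j => h1 (by
      have := j.smul g⁻¹
      rwa [inv_smul_smul, inv_smul_eq_iff.2 g1.symm, inv_smul_eq_iff.2 g2.symm] at this)
    have h2' := h2.smul g
    rw [sm_inf, g1, g2] at h2'
    have i2 : In a (c ⊓ g • d) b :=
      ((k.symm.trans i.symm).gen (by order) (by order) (by order) (by order)).symm
    refine ⟨g • d, fun j => h1' ((k.trans j).right (by order)), ?_⟩
    rw [inf_right_comm]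
    exact Uge.of_in h2' i2

/-- The U-rank of `a` over `c`. -/
noncomputable def U (a c : Q G) : ℕ∞ := ⨆ (n : ℕ) (_ : Uge n a c), (n : ℕ∞)

theorem le_U {n : ℕ} : (n : ℕ∞) ≤ U a c ↔ Uge n a c := by
  refine ⟨fun h => ?_, fun h => le_iSup₂_of_le n h le_rfl⟩
  by_contra hc
  cases n with
  | zero => exact hc trivial
  | succ n =>
    have : U a c ≤ n := iSup₂_le fun m hm => by
      by_contra k
      exact hc (hm.anti (by exact_mod_cast Order.add_one_le_of_lt (not_le.1 k)))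
    exact absurd (h.trans this) (by norm_cast; omega)

theorem enat_le {x y : ℕ∞} (h : ∀ n : ℕ, (n : ℕ∞) ≤ x → (n : ℕ∞) ≤ y) : x ≤ y :=
  ENat.forall_natCast_le_iff_le.1 h

theorem U_mono (a : Q G) (h : c' ≤ c) : U a c' ≤ U a c :=
  enat_le fun _ k => le_U.2 ((le_U.1 k).mono h)

theorem U_left (h : c ⊓ a ≤ a') : U a' c ≤ U a c := enat_le fun _ k => le_U.2 ((le_U.1 k).left h)

theorem U_gen (h1 : c' ≤ c) (h : c' ⊓ a ≤ a') : U a' c' ≤ U a c := (U_left h).trans (U_mono a h1)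

theorem U_smul (g : G) (a c : Q G) : U (g • a) (g • c) = U a c :=
  le_antisymm (enat_le fun _ k => le_U.2 (by simpa using (le_U.1 k).smul g⁻¹))
    (enat_le fun _ k => le_U.2 ((le_U.1 k).smul g))

theorem U_smul' {g : G} (h : g • c = c) (a : Q G) : U (g • a) c = U a c := by
  conv_lhs => rw [← h, U_smul]

theorem In.U_le (h : In a c b) (k : c ⊓ b ≤ c') : U a c ≤ U a c' :=
  (enat_le fun _ k => le_U.2 ((le_U.1 k).of_in h)).trans (U_mono a k)

theorem U_fork (h : ¬ In a c b) : U a (c ⊓ b) + 1 ≤ U a c := by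
  refine enat_le fun n k => ?_
  cases n with
  | zero => exact zero_le
  | succ n =>
    refine le_U.2 ⟨b, h, le_U.1 ?_⟩
    rw [Nat.cast_succ] at k
    exact (ENat.add_le_add_iff_right (by simp)).1 k

theorem exists_fork {n : ℕ} (h : ((n + 1 : ℕ) : ℕ∞) ≤ U a c) :
    ∃ b, ¬ In a c b ∧ (n : ℕ∞) ≤ U a (c ⊓ b) := by
  obtain ⟨b, h1, h2⟩ := le_U.1 h
  exact ⟨b, h1, le_U.2 h2⟩

theorem U_zero : U a c = 0 ↔ c ≤ a := by
  constructor
  · intro h
    by_contra k
    have := U_fork (a := a) (c := c) (b := a) (fun i => k (i.le inf_le_right))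
    rw [h] at this
    simp at this
  · intro h
    by_contra k
    obtain ⟨b, h1, -⟩ := exists_fork (n := 0) (a := a) (c := c) (Order.one_le_iff_ne_zero.2 k)
    exact h1 (In.of_le h b).symm

theorem in_of_U (h : U a c ≠ ⊤) (k : U a c ≤ U a (c ⊓ b)) : In a c b := by
  by_contra i
  have := (U_fork i).trans k
  have h2 : U a (c ⊓ b) ≠ ⊤ := ne_top_of_le_ne_top h (U_mono a inf_le_left)
  exact absurd this (not_le.2 (ENat.lt_add_one_iff h2 |>.2 le_rfl))

/-- In rank at most one forking means becoming algebraic. -/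
theorem in_or_le (h : U a c ≤ 1) (b : Q G) : In a c b ∨ c ⊓ b ≤ a := by
  refine or_iff_not_imp_left.2 fun i => U_zero.1 ?_
  have := (U_fork i).trans h
  generalize U a (c ⊓ b) = x at this
  enat_to_nat
  omega

theorem Uge.lascar1 : ∀ {m : ℕ} {c : Q G}, Uge m a (c ⊓ b) → Uge m (a ⊓ b) c
  | 0, _, _ => trivial
  | _ + 1, _, ⟨d, h1, h2⟩ => ⟨d,
      fun i => h1 (i.symm.gen (by order) (by order) (by order) (by order)).symm,
      Uge.lascar1 (by rwa [inf_right_comm] at h2)⟩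

theorem Uge.lascar2 {m : ℕ} : ∀ {n : ℕ} {c : Q G}, Uge m a (c ⊓ b) → Uge n b c →
    Uge (m + n) (a ⊓ b) c
  | 0, _, h, _ => h.lascar1
  | n + 1, c, h, ⟨d, h1, h2⟩ => by
    obtain ⟨g, g1, g2, i⟩ := ext2 d a c b
    have h1' : ¬ In b c (g • d) := fun j => h1 (by
      have := j.smul g⁻¹
      rwa [inv_smul_smul, inv_smul_eq_iff.2 g1.symm, inv_smul_eq_iff.2 g2.symm] at this)
    have h2' := h2.smul g
    rw [sm_inf, g1, g2] at h2'
    refine ⟨g • d, fun j => h1' (j.left (by order)), Uge.lascar2 ?_ h2'⟩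
    rw [inf_right_comm]
    exact h.of_in i.symm

theorem Uge.lascar3 : ∀ {k : ℕ} {c : Q G}, Uge k (a ⊓ b) c →
    ∃ m n, m + n = k ∧ Uge m a (c ⊓ b) ∧ Uge n b c
  | 0, _, _ => ⟨0, 0, rfl, trivial, trivial⟩
  | k + 1, c, ⟨d, h1, h2⟩ => by
    obtain ⟨m, n, e, k1, k2⟩ := Uge.lascar3 h2
    by_cases i : In b c d
    · refine ⟨m + 1, n, by omega, ⟨d, fun j => h1 ?_, by rwa [inf_right_comm]⟩,
        k2.mono inf_le_left⟩
      exact ((i.symm.trans j.symm).right (by order)).symm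
    · exact ⟨m, n + 1, by omega, k1.mono (by order), d, i, k2⟩

theorem lascar (a b c : Q G) : U (a ⊓ b) c = U a (c ⊓ b) + U b c := by
  refine le_antisymm (enat_le fun k hk => ?_) ?_
  · obtain ⟨m, n, rfl, k1, k2⟩ := (le_U.1 hk).lascar3
    rw [Nat.cast_add]
    exact add_le_add (le_U.2 k1) (le_U.2 k2)
  · refine enat_le fun k hk => ?_
    obtain ⟨m, n, e, k1, k2⟩ : ∃ m n : ℕ, k ≤ m + n ∧ (m : ℕ∞) ≤ U a (c ⊓ b) ∧ (n : ℕ∞) ≤ U b c := by
      generalize U a (c ⊓ b) = x at hk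
      generalize U b c = y at hk
      induction x using ENat.recTopCoe with
      | top => exact ⟨k, 0, by omega, le_top, zero_le⟩
      | coe m =>
        induction y using ENat.recTopCoe with
        | top => exact ⟨0, k, by omega, zero_le, le_top⟩
        | coe n => exact ⟨m, n, by exact_mod_cast hk, le_rfl, le_rfl⟩
    exact le_U.2 (((le_U.1 k1).lascar2 (le_U.1 k2)).anti e)

theorem U_inf_fin (h1 : U a c ≠ ⊤) (h2 : U b c ≠ ⊤) : U (a ⊓ b) c ≠ ⊤ := by
  rw [lascar]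
  exact WithTop.add_ne_top.2 ⟨ne_top_of_le_ne_top h1 (U_mono a inf_le_left), h2⟩

theorem U_pre_fin {f : ℕ → Q G} (h : ∀ i, U (f i) c ≠ ⊤) (k : ℕ) : U (pre f k) c ≠ ⊤ := by
  induction k with
  | zero => rw [pre_zero, U_zero.2 le_top]; simp
  | succ k ih => rw [pre_succ]; exact U_inf_fin ih (h k)

/-- Finite ranks of conjugates over a fixed base are bounded. -/
theorem U_bound (a c : Q G) : ∃ N : ℕ, ∀ g : G, U (g • a) c ≠ ⊤ → U (g • a) c ≤ N := by
  obtain ⟨F, hF⟩ := fin_conj a c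
  refine ⟨F.sup (fun f => (U (f • a) c).toNat), fun g hg => ?_⟩
  obtain ⟨f, hf, v, hv, e⟩ := hF g
  rw [e, U_smul' hv] at hg ⊢
  rw [← ENat.natCast_toNat hg]
  exact_mod_cast Finset.le_sup (f := fun f => (U (f • a) c).toNat) hf

end Pool.Agent.Lib.MP_905f9a_lc.D
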